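import Pool.Agent.Lib.SmL.Ar.IndD

/-!
# SMITH-L, arithmetic: permutation modules, definitions

`X` = a finite transitive `G`-set, `r x • x = x0`, `H` = stabiliser of `x0` = absolute Galois group of a
finite extension `L` of `K`. A place of `L` above `v` is an orbit of `D v` on `X`. For `x : X` the elements
`sgx v x = sg v ^ e`, `phx v x = sg v ^ j * ph v ^ f` of `D v ∩ Stab x` are a tame generator and a Frobenius for
the completion of `L` at the place of the orbit of `x`; `(e, f, j) = E v x`.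

`Bs.Uni`: the quotients of `D v` by the members of `NN` contain the groups `Z/l^k ⋊ Z/l^k`.
-/

set_option autoImplicit false

open Finset

namespace Pool.Agent.SmL.Ar

/-- Universality of `D v` for `l`-groups. -/
def Bs.Uni (l : ℕ) {G Pl : Type*} [Group G] (B : Bs G Pl) : Prop :=
  ∀ v (k : ℕ), ∃ N ∈ B.NN, ∀ (a : ℤ) (b : ℕ), B.sg v ^ a * B.ph v ^ b ∈ N →
    ((l ^ k : ℕ) : ℤ) ∣ a ∧ l ^ k ∣ b

end Pool.Agent.SmL.Ar

namespace Pool.Agent.SmL.F

open MulAction Pool.Agent.SmL.Ar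

/-- The local invariant with respect to `σ, φ, q`. -/
def linv {l : ℕ} {G : Type*} [Group G] (σ φ : G) (q : ℕ) (c : G → G → ZMod l) : ZMod l :=
  c φ σ - c (σ ^ q) φ - ∑ i ∈ Ico 1 q, c (σ ^ i) σ

/-- The properties of the exponents `e, f, j` at `x`. -/
structure Efj {G X : Type*} [Group G] [MulAction G X] (sg ph : G) (x : X) (e f j : ℕ) : Prop where
  e_pos : 0 < e
  f_pos : 0 < f
  sg_fix : sg ^ e • x = x
  ph_fix : (sg ^ j * ph ^ f) • x = x
  e_min : ∀ m : ℤ, sg ^ m • x = x → (e : ℤ) ∣ m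
  f_min : ∀ (n : ℕ) (a : ℤ), 0 < n → (sg ^ a * ph ^ n) • x = x → f ≤ n

/-- The symbol of two homomorphisms in terms of the values at a tame generator and at a Frobenius
(the form `sy` of the trivial module). -/
def sym {l : ℕ} (a b : ZMod l × ZMod l) : ZMod l := a.2 * b.1 - a.1 * b.2

section

variable {l : ℕ} {G Pl : Type*} [Group G] (B : Bs G Pl) {X : Type*} [MulAction G X]
  (E : Pl → X → ℕ × ℕ × ℕ)

/-- tame generator at `(v, x)` -/
def sgx (v : Pl) (x : X) : G := B.sg v ^ (E v x).1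

/-- Frobenius at `(v, x)` -/
def phx (v : Pl) (x : X) : G := B.sg v ^ (E v x).2.2 * B.ph v ^ (E v x).2.1

/-- order of the residue field at `(v, x)` -/
def qx (v : Pl) (x : X) : ℕ := B.q v ^ (E v x).2.1

/-- decomposition group at `(v, x)` -/
def Dx (v : Pl) (x : X) : Subgroup G := B.D v ⊓ stabilizer G x

/-- the pair of values at `(v, x)` of a homomorphism on the stabiliser of `x0` -/
def lp (r : X → G) (v : Pl) (x : X) (b : G → ZMod l) : ZMod l × ZMod l :=
  (b (r x * sgx B E v x * (r x)⁻¹), b (r x * phx B E v x * (r x)⁻¹))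

/-- The action of `G` on `X` is of finite level. -/
def TrivX (X : Type*) [MulAction G X] : Prop := ∃ N ∈ B.NN, ∀ n ∈ N, ∀ x : X, n • x = x

/-- Homomorphisms on the subgroup `H`. -/
def HomH (H : Subgroup G) (b : G → ZMod l) : Prop :=
  B.TFOn H b ∧ ∀ s ∈ H, ∀ t ∈ H, b (s * t) = b s + b t

/-- 2-cocycles on the subgroup `H` (trivial action). -/
def Coc2H (H : Subgroup G) (c : G → G → ZMod l) : Prop :=
  B.TF2On H c ∧ ∀ s ∈ H, ∀ t ∈ H, ∀ w ∈ H, c s t + c (s * t) w = c t w + c s (t * w)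

/-- `c` splits on `H` (trivial action). -/
def SplH (H : Subgroup G) (c : G → G → ZMod l) : Prop :=
  ∃ b : G → ZMod l, B.TFOn H b ∧ ∀ s ∈ H, ∀ t ∈ H, c s t = b s + b t - b (s * t)

/-- 1-cocycles on `D` with values in `X → ZMod l` (`Z1On` for `permP` without the level). -/
def IsCoc (D : Subgroup G) (c : G → X → ZMod l) : Prop :=
  ∀ s ∈ D, ∀ t ∈ D, ∀ x, c (s * t) x = c s x + c t (s⁻¹ • x)

/-- 2-cocycles on `D` with values in `X → ZMod l`. -/
def IsCoc2 (D : Subgroup G) (c : G → G → X → ZMod l) : Prop :=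
  ∀ s ∈ D, ∀ t ∈ D, ∀ u ∈ D, ∀ x, c s t x + c (s * t) u x = c t u (s⁻¹ • x) + c s (t * u) x

variable (l) in
/-- The exponents: `efj`, and the orbit formula for the invariants. -/
structure OrbE : Prop where
  efj : ∀ v x, Efj (B.sg v) (B.ph v) x (E v x).1 (E v x).2.1 (E v x).2.2
  formula : ∀ v (x : X) (c : G → G → X → ZMod l), B.TF2On (B.D v) c →
    (∀ s ∈ B.D v, ∀ t ∈ B.D v, ∀ u ∈ B.D v, ∀ y ∈ orbit (B.D v) x,
      c s t y + c (s * t) u y = c t u (s⁻¹ • y) + c s (t * u) y) →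
    linv (sgx B E v x) (phx B E v x) (qx B E v x) (fun s t => c s t x) =
      B.inv v (fun s t => ∑ᶠ y : orbit (B.D v) x, c s t y)

/-- Homomorphisms on the stabiliser of `x0` which are unramified outside of `T`. -/
def HomT (x0 : X) (r : X → G) (T : Finset Pl) (b : G → ZMod l) : Prop :=
  HomH B (stabilizer G x0) b ∧ ∀ v, v ∉ T → ∀ x, (lp B E r v x b).1 = 0

variable (l) in
/-- The statements over the field `L` of the point `x0`: the number of the homomorphisms unramified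
outside of `T`, and the Hasse principle for `H²(L, F_l)`. -/
structure LGl (x0 : X) (r : X → G) : Prop where
  card : ∃ T0 : Finset Pl, ∀ T, T0 ⊆ T → ∃ A : Finset (G → ZMod l),
    A.card = l ^ (∑ v ∈ T, Nat.card (orbitRel.Quotient (B.D v) X)) ∧
    (∀ b ∈ A, HomT B E x0 r T b) ∧
    ∀ b : G → ZMod l, HomT B E x0 r T b → ∃! b', b' ∈ A ∧ ∀ s ∈ stabilizer G x0, b s = b' s
  hasse : ∀ c : G → G → ZMod l, Coc2H B (stabilizer G x0) c →
    (∀ (v : Pl) (x : X), ∃ b : G → ZMod l,
      B.TFOn (stabilizer G x0 ⊓ (B.D v).map (MulAut.conj (r x)).toMonoidHom) b ∧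
      ∀ s ∈ stabilizer G x0, (r x)⁻¹ * s * r x ∈ B.D v →
        ∀ t ∈ stabilizer G x0, (r x)⁻¹ * t * r x ∈ B.D v → c s t = b s + b t - b (s * t)) →
    SplH B (stabilizer G x0) c

end

end Pool.Agent.SmL.F
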