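import Pool.Agent.Lib.SmL.F.Defs

/-!
# SMITH-L, arithmetic: Shapiro's lemma for permutation modules, by explicit formulas

PORT of `SmN/F/Shap.lean` to `ZMod l` (signs!).

* `IsCoc.cob`: a cocycle on `D` whose components vanish is a coboundary (`z x = - c g_x (rep x)`-like formula,
  `g_x x = rep x`).
* `sh r b s x = b (r x * s * (r (s⁻¹ x))⁻¹)`, `r x • x = x0`.
* `exists_sh`: local version for a subgroup `D` with several orbits: choose `r x ∈ D` with `r x • x = o.out`, `o` the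
  orbit of `x`, and `c s x = b o.out (r x * s * (r (s⁻¹ x))⁻¹)`.
* `spl_of_x` (degree 2): choose for every `x` an element `r x ∈ D` with `r x • x = x̂`, a representative of the orbit,
  with `β` splitting `c · · x̂` on `D ⊓ Stab x̂` (a function of the orbit). With `h = r x * s * (r (s⁻¹ x))⁻¹ ∈ Stab x̂`:
  `b s x = c (r x) s x̂ + β h - c h (r (s⁻¹ x)) x̂`.
-/

set_option autoImplicit false

open Finset

namespace Pool.Agent.SmL.F

open MulAction Pool.Agent.SmL.Ar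

variable {l : ℕ} {G Pl : Type*} [Group G] {B : Bs G Pl} {X : Type*} [MulAction G X]

theorem IsCoc.mono {D D' : Subgroup G} (h : D' ≤ D) {c : G → X → ZMod l} (hc : IsCoc D c) :
    IsCoc D' c := fun s hs t ht x => hc s (h hs) t (h ht) x

theorem IsCoc.sub {D : Subgroup G} {c d : G → X → ZMod l} (hc : IsCoc D c) (hd : IsCoc D d) :
    IsCoc D (fun s x => c s x - d s x) := by
  intro s hs t ht x
  change c (s * t) x - d (s * t) x = c s x - d s x + (c t (s⁻¹ • x) - d t (s⁻¹ • x))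
  rw [hc s hs t ht x, hd s hs t ht x]
  ring

theorem IsCoc.one {D : Subgroup G} {c : G → X → ZMod l} (hc : IsCoc D c) (x : X) : c 1 x = 0 := by
  have h := hc 1 D.one_mem 1 D.one_mem x
  rw [mul_one, inv_one, one_smul] at h
  exact left_eq_add.1 h

theorem IsCoc.inv {D : Subgroup G} {c : G → X → ZMod l} (hc : IsCoc D c) {s : G} (hs : s ∈ D)
    (x : X) : c s⁻¹ x = -c s (s • x) := by
  have h := hc s⁻¹ (D.inv_mem hs) s hs x
  rw [inv_mul_cancel, hc.one, inv_inv] at h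
  exact eq_neg_of_add_eq_zero_left h.symm

/-- The component at `x` is invariant under conjugation. -/
theorem IsCoc.conj {D : Subgroup G} {c : G → X → ZMod l} (hc : IsCoc D c) {g s : G} (hg : g ∈ D)
    (hs : s ∈ D) {x : X} (hx : s • x = x) : c (g * s * g⁻¹) (g • x) = c s x := by
  have hx' : s⁻¹ • x = x := by rw [inv_smul_eq_iff, hx]
  rw [hc (g * s) (D.mul_mem hg hs) g⁻¹ (D.inv_mem hg), hc g hg s hs, mul_inv_rev, mul_smul,
    inv_smul_smul, hx', hc.inv hg]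
  ring

/-- A cocycle on `D` all of whose components vanish is a coboundary. -/
theorem IsCoc.cob {D : Subgroup G} {c : G → X → ZMod l} (hc : IsCoc D c)
    (h0 : ∀ x : X, ∃ g ∈ D, ∀ s ∈ D, s • (g • x) = g • x → c s (g • x) = 0) :
    ∃ z : X → ZMod l, ∀ s ∈ D, ∀ x, c s x = z (s⁻¹ • x) - z x := by
  classical
  -- representatives of the orbits
  let S := orbitRel D X
  let rep : X → X := fun x => (Quotient.mk S x).out
  have hrep : ∀ x, ∃ t : D, t • x = rep x := by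
    intro x
    have h1 : (Quotient.mk S x).out ≈ x := Quotient.mk_out (s := S) x
    have h2 : (Quotient.mk S x).out ∈ orbit D x := h1
    exact h2
  choose t ht using hrep
  have hrep2 : ∀ (x : X) (s : G), s ∈ D → rep (s • x) = rep x := by
    intro x s hs
    have h1 : (Quotient.mk S (s • x)) = Quotient.mk S x := by
      apply Quotient.sound
      exact ⟨⟨s, hs⟩, rfl⟩
    change (Quotient.mk S (s • x)).out = (Quotient.mk S x).out
    rw [h1]
  have hz : ∀ x : X, ∀ s ∈ D, s • x = x → c s x = 0 := by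
    intro x s hs hx
    obtain ⟨g, hg, h1⟩ := h0 x
    rw [← hc.conj hg hs hx]
    refine h1 _ (D.mul_mem (D.mul_mem hg hs) (D.inv_mem hg)) ?_
    rw [mul_smul, inv_smul_smul, mul_smul, hx]
  refine ⟨fun x => c (t x) (rep x), fun s hs x => ?_⟩
  change c s x = c (t (s⁻¹ • x)) (rep (s⁻¹ • x)) - c (t x) (rep x)
  have hy : rep (s⁻¹ • x) = rep x := hrep2 x s⁻¹ (D.inv_mem hs)
  set g : G := (t x : G) with hg
  set g' : G := (t (s⁻¹ • x) : G) with hg'
  have h1 : g • x = rep x := ht x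
  have h2 : g' • (s⁻¹ • x) = rep x := by
    have := ht (s⁻¹ • x)
    rw [hy] at this
    exact this
  have h1' : g⁻¹ • rep x = x := by rw [← h1, inv_smul_smul]
  have h2' : g'⁻¹ • rep x = s⁻¹ • x := by rw [← h2, inv_smul_smul]
  have hgD : g ∈ D := (t x).2
  have hgD' : g' ∈ D := (t (s⁻¹ • x)).2
  have h3 : (g * s * g'⁻¹) • rep x = rep x := by
    rw [mul_smul, h2', mul_smul, smul_inv_smul, h1]
  have h4 := hz (rep x) (g * s * g'⁻¹) (D.mul_mem (D.mul_mem hgD hs) (D.inv_mem hgD')) h3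
  rw [hc (g * s) (D.mul_mem hgD hs) g'⁻¹ (D.inv_mem hgD'), hc g hgD s hs, h1', mul_inv_rev, mul_smul,
    h1', hc.inv hgD', h2] at h4
  rw [hy]
  linear_combination h4

/-- The Shapiro lift. -/
def sh (r : X → G) (b : G → ZMod l) (s : G) (x : X) : ZMod l :=
  b (r x * s * (r (s⁻¹ • x))⁻¹)

section

variable {x0 : X} {r : X → G} (hr : ∀ x, r x • x = x0)

include hr

private theorem Shap_r_inv (x : X) : (r x)⁻¹ • x0 = x := by rw [← hr x, inv_smul_smul]

theorem sh_mem (s : G) (x : X) : r x * s * (r (s⁻¹ • x))⁻¹ ∈ stabilizer G x0 := by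
  rw [mem_stabilizer_iff, mul_smul, Shap_r_inv hr, mul_smul, smul_inv_smul, hr]

theorem sh_coc {b : G → ZMod l}
    (hb : ∀ s ∈ stabilizer G x0, ∀ t ∈ stabilizer G x0, b (s * t) = b s + b t) :
    IsCoc ⊤ (sh r b) := by
  intro s _ t _ x
  unfold sh
  rw [← hb _ (sh_mem hr s x) _ (sh_mem hr t (s⁻¹ • x))]
  congr 1
  rw [mul_inv_rev, mul_smul]
  group

omit hr in
/-- The component at `x` of the Shapiro lift. -/
theorem sh_self (b : G → ZMod l) {s : G} {x : X} (hx : s • x = x) :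
    sh r b s x = b (r x * s * (r x)⁻¹) := by
  have hx' : s⁻¹ • x = x := by rw [inv_smul_eq_iff, hx]
  unfold sh
  rw [hx']

/-- Every cocycle is the Shapiro lift of its `x0`-component, up to a coboundary. -/
theorem coc_sh {c : G → X → ZMod l} (hc : IsCoc ⊤ c) :
    ∃ z : X → ZMod l, ∀ s x, c s x = sh r (fun t => c t x0) s x + (z (s⁻¹ • x) - z x) := by
  refine ⟨fun x => c (r x) x0, fun s x => ?_⟩
  have h := hc (r x * s) trivial (r (s⁻¹ • x))⁻¹ trivial x0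
  rw [hc (r x) trivial s trivial, Shap_r_inv hr, hc.inv trivial, mul_inv_rev, mul_smul,
    Shap_r_inv hr, hr] at h
  unfold sh
  change c s x = c (r x * s * (r (s⁻¹ • x))⁻¹) x0 + (c (r (s⁻¹ • x)) x0 - c (r x) x0)
  rw [h]
  ring

/-- The Shapiro lift is of finite level. -/
theorem sh_tf (hB : B.Ok l) (hX : TrivX B X) {b : G → ZMod l}
    (hb : B.TFOn (stabilizer G x0) b) : B.TF (sh r b) := by
  obtain ⟨N, hN, h1⟩ := hb
  obtain ⟨M, hM, h2⟩ := hX
  refine ⟨N ⊓ M, hB.inf_mem N hN M hM, fun s n hn => funext fun x => ?_⟩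
  have hn1 : n⁻¹ • (s⁻¹ • x) = s⁻¹ • x := h2 _ (M.inv_mem hn.2) _
  have h3 : (s * n)⁻¹ • x = s⁻¹ • x := by rw [mul_inv_rev, mul_smul, hn1]
  unfold sh
  rw [h3]
  have h4 : r x * (s * n) * (r (s⁻¹ • x))⁻¹ =
      (r x * s * (r (s⁻¹ • x))⁻¹) * (r (s⁻¹ • x) * n * (r (s⁻¹ • x))⁻¹) := by group
  rw [h4]
  refine h1 _ (sh_mem hr s x) _ ((hB.normal N hN).conj_mem n hn.1 _) ?_
  rw [mem_stabilizer_iff, mul_smul, mul_smul, Shap_r_inv hr, h2 n hn.2, hr]

end

omit [MulAction G X] in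
private theorem Shap_inf [Finite X] (hB : B.Ok l) (f : X → Subgroup G) (h : ∀ x, f x ∈ B.NN) :
    ∃ N ∈ B.NN, ∀ x, N ≤ f x := by
  classical
  have := Fintype.ofFinite X
  have key : ∀ A : Finset X, ∃ N ∈ B.NN, ∀ x ∈ A, N ≤ f x := by
    intro A
    induction A using Finset.induction_on with
    | empty => exact ⟨⊤, hB.top_mem, fun x hx => absurd hx (notMem_empty x)⟩
    | insert a A _ ih =>
      obtain ⟨N, hN, h1⟩ := ih
      refine ⟨f a ⊓ N, hB.inf_mem _ (h a) _ hN, fun x hx => ?_⟩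
      rcases mem_insert.1 hx with rfl | hx
      · exact inf_le_left
      · exact inf_le_right.trans (h1 x hx)
  obtain ⟨N, hN, h1⟩ := key univ
  exact ⟨N, hN, fun x => h1 x (mem_univ x)⟩

/-- Local version. -/
theorem exists_sh [Finite X] (hB : B.Ok l) (hX : TrivX B X) (D : Subgroup G)
    {b : X → G → ZMod l} (hb : ∀ x, HomH B (D ⊓ stabilizer G x) (b x)) :
    ∃ c : G → X → ZMod l, B.TFOn D c ∧ IsCoc D c ∧ ∀ o : orbitRel.Quotient D X,
      ∀ s ∈ D ⊓ stabilizer G o.out, c s o.out = b o.out s := by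
  classical
  let S := orbitRel D X
  let rep : X → X := fun x => (Quotient.mk S x).out
  have hrep : ∀ x, ∃ t ∈ D, t • x = rep x := by
    intro x
    have h1 : (Quotient.mk S x).out ≈ x := Quotient.mk_out (s := S) x
    have h2 : (Quotient.mk S x).out ∈ orbit D x := h1
    obtain ⟨t, ht⟩ := h2
    exact ⟨t, t.2, ht⟩
  choose r hrD hr using hrep
  have hrep2 : ∀ (x : X) (s : G), s ∈ D → rep (s • x) = rep x := by
    intro x s hs
    have h1 : (Quotient.mk S (s • x)) = Quotient.mk S x := by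
      apply Quotient.sound
      exact ⟨⟨s, hs⟩, rfl⟩
    change (Quotient.mk S (s • x)).out = (Quotient.mk S x).out
    rw [h1]
  have hri : ∀ x, (r x)⁻¹ • rep x = x := fun x => by rw [← hr x, inv_smul_smul]
  have hmem : ∀ s ∈ D, ∀ x, r x * s * (r (s⁻¹ • x))⁻¹ ∈ D ⊓ stabilizer G (rep x) := by
    intro s hs x
    refine Subgroup.mem_inf.2 ⟨D.mul_mem (D.mul_mem (hrD x) hs) (D.inv_mem (hrD _)), ?_⟩
    have h1 : (r (s⁻¹ • x))⁻¹ • rep x = s⁻¹ • x := by
      rw [← hrep2 x s⁻¹ (D.inv_mem hs)]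
      exact hri _
    rw [mem_stabilizer_iff, mul_smul, h1, mul_smul, smul_inv_smul, hr]
  obtain ⟨M, hM, h2⟩ := hX
  choose F hF hF1 using fun x => (hb x).1
  obtain ⟨N, hN, h3⟩ := Shap_inf hB F hF
  refine ⟨fun s x => b (rep x) (r x * s * (r (s⁻¹ • x))⁻¹), ?_, ?_, ?_⟩
  · refine ⟨N ⊓ M, hB.inf_mem N hN M hM, fun s hs n hn hnD => funext fun x => ?_⟩
    have hn1 : n⁻¹ • (s⁻¹ • x) = s⁻¹ • x := h2 _ (M.inv_mem hn.2) _
    have h4 : (s * n)⁻¹ • x = s⁻¹ • x := by rw [mul_inv_rev, mul_smul, hn1]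
    change b (rep x) (r x * (s * n) * (r ((s * n)⁻¹ • x))⁻¹) =
      b (rep x) (r x * s * (r (s⁻¹ • x))⁻¹)
    rw [h4]
    have h5 : r x * (s * n) * (r (s⁻¹ • x))⁻¹ =
        (r x * s * (r (s⁻¹ • x))⁻¹) * (r (s⁻¹ • x) * n * (r (s⁻¹ • x))⁻¹) := by group
    rw [h5]
    refine hF1 (rep x) _ (hmem s hs x) _
      (h3 _ ((hB.normal N hN).conj_mem n hn.1 _)) ?_
    refine Subgroup.mem_inf.2 ⟨D.mul_mem (D.mul_mem (hrD _) hnD) (D.inv_mem (hrD _)), ?_⟩
    have h6 : (r (s⁻¹ • x))⁻¹ • rep x = s⁻¹ • x := by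
      rw [← hrep2 x s⁻¹ (D.inv_mem hs)]
      exact hri _
    rw [mem_stabilizer_iff, mul_smul, mul_smul, h6, h2 n hn.2, hr, hrep2 x s⁻¹ (D.inv_mem hs)]
  · intro s hs t ht x
    change b (rep x) (r x * (s * t) * (r ((s * t)⁻¹ • x))⁻¹) =
      b (rep x) (r x * s * (r (s⁻¹ • x))⁻¹) +
        b (rep (s⁻¹ • x)) (r (s⁻¹ • x) * t * (r (t⁻¹ • s⁻¹ • x))⁻¹)
    have h4 : rep (s⁻¹ • x) = rep x := hrep2 x s⁻¹ (D.inv_mem hs)
    have h5 := hmem t ht (s⁻¹ • x)
    rw [h4] at h5 ⊢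
    rw [← (hb (rep x)).2 _ (hmem s hs x) _ h5]
    congr 1
    rw [mul_inv_rev, mul_smul]
    group
  · intro o s hs
    have ho : rep o.out = o.out := by
      change (Quotient.mk S o.out).out = o.out
      have : Quotient.mk S o.out = o := Quotient.out_eq o
      rw [this]
    have hsx : s⁻¹ • o.out = o.out := by
      rw [inv_smul_eq_iff]
      exact (mem_stabilizer_iff.1 hs.2).symm
    change b (rep o.out) (r o.out * s * (r (s⁻¹ • o.out))⁻¹) = b o.out s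
    rw [hsx, ho]
    have hrm : r o.out ∈ D ⊓ stabilizer G o.out := by
      refine Subgroup.mem_inf.2 ⟨hrD _, ?_⟩
      rw [mem_stabilizer_iff, hr, ho]
    have hh := (hb o.out).2
    rw [hh _ ((D ⊓ stabilizer G o.out).mul_mem hrm hs) _
      ((D ⊓ stabilizer G o.out).inv_mem hrm), hh _ hrm _ hs]
    have h0 : b o.out 1 = 0 := by
      have := hh 1 (D ⊓ stabilizer G o.out).one_mem 1 (D ⊓ stabilizer G o.out).one_mem
      rw [mul_one] at this
      exact left_eq_add.1 this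
    have h1 := hh _ hrm _ ((D ⊓ stabilizer G o.out).inv_mem hrm)
    rw [mul_inv_cancel, h0] at h1
    linear_combination -h1

/-- Degree 2. -/
theorem spl_of_x [Finite X] (hB : B.Ok l) (hX : TrivX B X) {D : Subgroup G}
    {c : G → G → X → ZMod l} (hf : B.TF2On D c) (hc : IsCoc2 D c)
    (h : ∀ x : X, ∃ g ∈ D, SplH B (D ⊓ stabilizer G (g • x)) (fun s t => c s t (g • x))) :
    ∃ b : G → X → ZMod l, B.TFOn D b ∧
      ∀ s ∈ D, ∀ t ∈ D, ∀ x, c s t x = b s x + b t (s⁻¹ • x) - b (s * t) x := by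
  classical
  let S := orbitRel D X
  choose g hgD β hβ hβ2 using h
  -- the representatives of the orbits
  let o : X → X := fun x => (Quotient.mk S x).out
  let rep : X → X := fun x => g (o x) • o x
  have ho : ∀ (x : X) (s : G), s ∈ D → o (s • x) = o x := by
    intro x s hs
    have h1 : (Quotient.mk S (s • x)) = Quotient.mk S x := by
      apply Quotient.sound
      exact ⟨⟨s, hs⟩, rfl⟩
    change (Quotient.mk S (s • x)).out = (Quotient.mk S x).out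
    rw [h1]
  have hrep : ∀ x, ∃ t ∈ D, t • x = rep x := by
    intro x
    have h1 : (Quotient.mk S x).out ≈ x := Quotient.mk_out (s := S) x
    have h2 : (Quotient.mk S x).out ∈ orbit D x := h1
    obtain ⟨t, ht⟩ := h2
    refine ⟨g (o x) * t, D.mul_mem (hgD _) t.2, ?_⟩
    have h3 : (t : G) • x = o x := ht
    rw [mul_smul, h3]
  choose r hrD hr using hrep
  have hrep2 : ∀ (x : X) (s : G), s ∈ D → rep (s • x) = rep x := by
    intro x s hs
    change g (o (s • x)) • o (s • x) = g (o x) • o x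
    rw [ho x s hs]
  have hri : ∀ x, (r x)⁻¹ • rep x = x := fun x => by rw [← hr x, inv_smul_smul]
  have hri2 : ∀ s ∈ D, ∀ x, (r (s⁻¹ • x))⁻¹ • rep x = s⁻¹ • x := by
    intro s hs x
    rw [← hrep2 x s⁻¹ (D.inv_mem hs)]
    exact hri _
  have hmem : ∀ s ∈ D, ∀ x, r x * s * (r (s⁻¹ • x))⁻¹ ∈ D ⊓ stabilizer G (rep x) := by
    intro s hs x
    refine Subgroup.mem_inf.2 ⟨D.mul_mem (D.mul_mem (hrD x) hs) (D.inv_mem (hrD _)), ?_⟩
    rw [mem_stabilizer_iff, mul_smul, hri2 s hs, mul_smul, smul_inv_smul, hr]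
  obtain ⟨M, hM, h2⟩ := hX
  obtain ⟨L, hL, hf⟩ := hf
  choose F hF hF1 using hβ
  obtain ⟨N, hN, h3⟩ := Shap_inf hB F hF
  let bb : G → X → ZMod l := fun s x => c (r x) s (rep x) +
    β (o x) (r x * s * (r (s⁻¹ • x))⁻¹) -
    c (r x * s * (r (s⁻¹ • x))⁻¹) (r (s⁻¹ • x)) (rep x)
  refine ⟨bb, ?_, ?_⟩
  · refine ⟨N ⊓ (M ⊓ L), hB.inf_mem N hN _ (hB.inf_mem M hM L hL),
      fun s hs n hn hnD => funext fun x => ?_⟩
    obtain ⟨hnN, hnM, hnL⟩ := hn
    have hn1 : n⁻¹ • (s⁻¹ • x) = s⁻¹ • x := h2 _ (M.inv_mem hnM) _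
    have h4 : (s * n)⁻¹ • x = s⁻¹ • x := by rw [mul_inv_rev, mul_smul, hn1]
    have h5 : r x * (s * n) * (r (s⁻¹ • x))⁻¹ =
        (r x * s * (r (s⁻¹ • x))⁻¹) * (r (s⁻¹ • x) * n * (r (s⁻¹ • x))⁻¹) := by group
    have hm := hmem s hs x
    have hcD : r (s⁻¹ • x) * n * (r (s⁻¹ • x))⁻¹ ∈ D :=
      D.mul_mem (D.mul_mem (hrD _) hnD) (D.inv_mem (hrD _))
    have e1 : c (r x) (s * n) (rep x) = c (r x) s (rep x) := by
      have := hf (r x) (hrD x) s hs 1 L.one_mem D.one_mem n hnL hnD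
      rw [mul_one] at this
      rw [this]
    have e2 : β (o x) (r x * s * (r (s⁻¹ • x))⁻¹ * (r (s⁻¹ • x) * n * (r (s⁻¹ • x))⁻¹)) =
        β (o x) (r x * s * (r (s⁻¹ • x))⁻¹) := by
      refine hF1 (o x) _ hm _ (h3 _ ((hB.normal N hN).conj_mem n hnN _))
        (Subgroup.mem_inf.2 ⟨hcD, ?_⟩)
      change (r (s⁻¹ • x) * n * (r (s⁻¹ • x))⁻¹) • rep x = rep x
      rw [mul_smul, mul_smul, hri2 s hs, h2 n hnM, hr, hrep2 x s⁻¹ (D.inv_mem hs)]
    have e3 : c (r x * s * (r (s⁻¹ • x))⁻¹ * (r (s⁻¹ • x) * n * (r (s⁻¹ • x))⁻¹)) (r (s⁻¹ • x))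
        (rep x) = c (r x * s * (r (s⁻¹ • x))⁻¹) (r (s⁻¹ • x)) (rep x) := by
      have := hf _ hm.1 (r (s⁻¹ • x)) (hrD _) _ ((hB.normal L hL).conj_mem n hnL _) hcD 1
        L.one_mem D.one_mem
      rw [mul_one] at this
      rw [this]
    change c (r x) (s * n) (rep x) +
        β (o x) (r x * (s * n) * (r ((s * n)⁻¹ • x))⁻¹) -
        c (r x * (s * n) * (r ((s * n)⁻¹ • x))⁻¹) (r ((s * n)⁻¹ • x)) (rep x) =
      c (r x) s (rep x) + β (o x) (r x * s * (r (s⁻¹ • x))⁻¹) -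
        c (r x * s * (r (s⁻¹ • x))⁻¹) (r (s⁻¹ • x)) (rep x)
    rw [h4, h5, e1, e2, e3]
  · intro s hs t ht x
    have hst : (s * t)⁻¹ • x = t⁻¹ • s⁻¹ • x := by rw [mul_inv_rev, mul_smul]
    have ho' : o (s⁻¹ • x) = o x := ho x s⁻¹ (D.inv_mem hs)
    have hr' : rep (s⁻¹ • x) = rep x := hrep2 x s⁻¹ (D.inv_mem hs)
    have hm1 := hmem s hs x
    have hm2 := hmem t ht (s⁻¹ • x)
    rw [hr'] at hm2
    have hgx := hrD x
    have hgy := hrD (s⁻¹ • x)
    have hgz := hrD (t⁻¹ • s⁻¹ • x)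
    have h0 : (r x)⁻¹ • rep x = x := hri x
    have h1 : (r x * s * (r (s⁻¹ • x))⁻¹)⁻¹ • rep x = rep x := by
      rw [inv_smul_eq_iff]
      exact (mem_stabilizer_iff.1 hm1.2).symm
    have hA := hc (r x) hgx s hs t ht (rep x)
    rw [h0] at hA
    have hB' := hc _ hm1.1 _ hm2.1 _ hgz (rep x)
    rw [h1] at hB'
    have hC := hc _ hm1.1 _ hgy t ht (rep x)
    rw [h1] at hC
    have hS := hβ2 (o x) _ hm1 _ hm2
    change c s t x = c (r x) s (rep x) +
        β (o x) (r x * s * (r (s⁻¹ • x))⁻¹) -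
        c (r x * s * (r (s⁻¹ • x))⁻¹) (r (s⁻¹ • x)) (rep x) +
      (c (r (s⁻¹ • x)) t (rep (s⁻¹ • x)) +
        β (o (s⁻¹ • x)) (r (s⁻¹ • x) * t * (r (t⁻¹ • s⁻¹ • x))⁻¹) -
        c (r (s⁻¹ • x) * t * (r (t⁻¹ • s⁻¹ • x))⁻¹) (r (t⁻¹ • s⁻¹ • x)) (rep (s⁻¹ • x))) -
      (c (r x) (s * t) (rep x) +
        β (o x) (r x * (s * t) * (r ((s * t)⁻¹ • x))⁻¹) -
        c (r x * (s * t) * (r ((s * t)⁻¹ • x))⁻¹) (r ((s * t)⁻¹ • x)) (rep x))
    rw [hst, ho', hr']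
    have k1 : r x * s * (r (s⁻¹ • x))⁻¹ * (r (s⁻¹ • x) * t * (r (t⁻¹ • s⁻¹ • x))⁻¹) =
        r x * (s * t) * (r (t⁻¹ • s⁻¹ • x))⁻¹ := by group
    have k2 : r (s⁻¹ • x) * t * (r (t⁻¹ • s⁻¹ • x))⁻¹ * r (t⁻¹ • s⁻¹ • x) =
        r (s⁻¹ • x) * t := by group
    have k3 : r x * s * (r (s⁻¹ • x))⁻¹ * r (s⁻¹ • x) = r x * s := by group
    rw [k1, k2] at hB'
    rw [k3] at hC
    rw [k1] at hS
    change c (r x * s * (r (s⁻¹ • x))⁻¹) (r (s⁻¹ • x) * t * (r (t⁻¹ • s⁻¹ • x))⁻¹) (rep x) = _ at hS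
    linear_combination -hA + hC - hB' + hS

end Pool.Agent.SmL.F
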