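import Pool.Agent.Lib.SmL.F.H2
import Pool.Agent.Lib.SmL.F.Shap
import Pool.Agent.Lib.SmL.Ar.Nd

/-!
# SMITH-L, arithmetic: the local facts for permutation modules

`P = permP l G X`. `permP_swap`: `P.swap = P`.

`card_ker_rel` (any dual pair): the annihilator in `N'` of the image of `rel` is `N'^D`: `e (rel x) y = 0` for all
`x = (0, x2)` says that `sg^q` fixes `y` (`e` nondegenerate), so `sg` fixes `y` (`tame`); for `x = (x1, 0)`:
`e (ph x1 - nrm x1) y = e x1 (ph⁻¹ y - q y)`, so `ph` fixes `y`; conversely clear. So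
`#(N / im rel) = #N'^D` (duality of finite dimensional spaces) and `#ker rel = #N^2 / #im rel = #N * #N'^D`.

`permP_cp`: let `Φ : N × N → ∏_o F_l × F_l` (`o` orbits of `D v`) be the linear map with: if `x = loc c`, `c` a
cocycle of `D v`, then `Φ x o = (c (sgx o.out) o.out, c (phx o.out) o.out)` (expand `c (sg^e)`,
`c (sg^j ph^f)` by the cocycle rule, this is linear in `x`). (1) `Φ` maps `CP` onto everything: `exists_pair`,
`exists_sh`. (2) the coboundaries are in `ker rel ∩ ker Φ`. (3) `#ker rel = #N * l^m`, `m` = number of orbits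
(`card_ker_rel`; `N'^D` = functions on the orbits). (4) number of coboundaries = `#N / #N^D = #N / l^m`.
(5) `#(ker rel ∩ ker Φ) = #ker rel / l^{2m} = #N / l^m`, so `ker rel ∩ ker Φ` = coboundaries, and
`ker rel = CP + coboundaries = CP`.

`permP_h2`: for `x : X` take for `y` the indicator function of the orbit of `x` under `D v`: the hypothesis gives
`B.inv v (∑_{y in the orbit} c s t y) = 0`, so `linv (..) (c · · x) = 0` by `OrbE.formula`, `h2_x`, `spl_of_x`.
-/

set_option autoImplicit false

open Finset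

namespace Pool.Agent.SmL.F

open MulAction Pool.Agent.SmL.Ar

section gen

variable {l : ℕ} {G Pl N N' : Type*} [Group G] {B : Bs G Pl} [AddCommGroup N]
  [Module (ZMod l) N] [AddCommGroup N'] [Module (ZMod l) N'] {P : DP l G N N'}

private theorem LoP_fd {l : ℕ} {M : Type*} [AddCommGroup M] [Module (ZMod l) M] [Finite M] :
    Module.Finite (ZMod l) M :=
  ⟨⟨(Set.finite_univ (α := M)).toFinset, by
    rw [Set.Finite.coe_toFinset]
    exact Submodule.span_univ⟩⟩

private theorem LoP_pp (hB : B.Ok l) (hP : P.Ok B) : P.e.IsPerfPair := by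
  have hl : Fact l.Prime := ⟨hB.prime⟩
  have := hP.fin
  have hfd : Module.Finite (ZMod l) N := LoP_fd
  exact LinearMap.IsPerfPair.of_injective
    ((injective_iff_map_eq_zero _).2 fun x hx => hP.nd x fun y => by
      rw [hx, LinearMap.zero_apply])
    ((injective_iff_map_eq_zero _).2 fun y hy => hP.nd' y fun x => by
      rw [← LinearMap.flip_apply, hy, LinearMap.zero_apply])

/-- fixed by `sg`, `ph` implies fixed by `D v` -/
private theorem LoP_fix (hB : B.Ok l) {M : Type*} [AddCommGroup M] [Module (ZMod l) M]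
    {a : G →* (M ≃ₗ[ZMod l] M)} (hk : ∃ N ∈ B.NN, ∀ s ∈ N, a s = 1) (v : Pl) {y : M}
    (h1 : a (B.sg v) y = y) (h2 : a (B.ph v) y = y) : ∀ s ∈ B.D v, a s y = y := by
  intro s hs
  obtain ⟨N, hN, hN1⟩ := hk
  obtain ⟨t, ht, hts⟩ := hB.gen v N hN s hs
  have h3 : a t y = y := by
    refine Subgroup.closure_induction (p := fun t _ => a t y = y) ?_ ?_ ?_ ?_ ht
    · intro x hx
      rcases hx with rfl | hx
      · exact h2
      · rw [Set.mem_singleton_iff.1 hx]
        exact h1
    · rw [map_one]
      rfl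
    · intro x x' _ _ hx hx'
      rw [map_mul, LinearEquiv.mul_apply, hx', hx]
    · intro x _ hx
      rw [map_inv]
      have : (a x)⁻¹ (a x y) = y := (a x).symm_apply_apply y
      rw [hx] at this
      exact this
  have h4 : a s y = a t (a (t⁻¹ * s) y) := by
    rw [← LinearEquiv.mul_apply, ← map_mul, mul_inv_cancel_left]
  rw [h4, hN1 _ hts]
  exact h3

private theorem LoP_inv_symm (hP : P.Ok B) (s : G) (x : N) (y : N') :
    P.e (P.a s x) y = P.e x (P.a' s⁻¹ y) := by
  rw [← hP.inv s x (P.a' s⁻¹ y), ← LinearEquiv.mul_apply, ← map_mul, mul_inv_cancel, map_one]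
  rfl

private theorem LoP_nrm (hB : B.Ok l) (hP : P.Ok B) (v : Pl) (x : N) {y : N'}
    (hy : P.a' (B.sg v)⁻¹ y = y) : P.e (nrm (P.a (B.sg v)) (B.q v) x) y = P.e x y := by
  have h1 : ∀ i : ℕ, P.e ((P.a (B.sg v) ^ i : N ≃ₗ[ZMod l] N) x) y = P.e x y := by
    intro i
    induction i with
    | zero => rfl
    | succ i ih =>
      rw [pow_succ', LinearEquiv.mul_apply, LoP_inv_symm hP, hy, ih]
  rw [nrm_apply, map_sum, LinearMap.sum_apply, sum_congr rfl fun i _ => h1 i, sum_const,
    card_range, nsmul_eq_mul, hB.q_one, one_mul]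

private theorem LoP_ann (hB : B.Ok l) (hP : P.Ok B) (v : Pl) (y : N') :
    (∀ x, P.e (rel B P.a v x) y = 0) ↔ ∀ s ∈ B.D v, P.a' s y = y := by
  constructor
  · intro h
    have hsq : (P.a' (B.sg v) ^ B.q v : N' ≃ₗ[ZMod l] N') y = y := by
      rw [← sub_eq_zero]
      refine hP.nd' _ fun w => ?_
      have h1 := h (0, P.a (B.sg v ^ B.q v)⁻¹ w)
      rw [rel_apply] at h1
      simp only [map_zero, sub_zero, zero_add, map_sub, LinearMap.sub_apply] at h1
      have h2 : (P.a (B.sg v) ^ B.q v : N ≃ₗ[ZMod l] N) (P.a (B.sg v ^ B.q v)⁻¹ w) = w := by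
        rw [← map_pow, ← LinearEquiv.mul_apply, ← map_mul, mul_inv_cancel, map_one]
        rfl
      rw [h2, LoP_inv_symm hP, inv_inv, map_pow] at h1
      rw [map_sub, h1]
    obtain ⟨M, hM, hM1⟩ := hP.ker'
    obtain ⟨m, -, hm1, hm2⟩ := hB.tame v M hM
    have hAm : P.a' (B.sg v) ^ m = 1 := by
      rw [← map_pow]
      exact hM1 _ hm1
    have hcop : (B.q v).Coprime (orderOf (P.a' (B.sg v))) :=
      (hm2.coprime_dvd_left (orderOf_dvd_of_pow_eq_one hAm)).symm
    obtain ⟨j, hj⟩ := exists_pow_eq_self_of_coprime hcop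
    have h2 : ∀ i : ℕ, ((P.a' (B.sg v) ^ B.q v) ^ i : N' ≃ₗ[ZMod l] N') y = y := by
      intro i
      induction i with
      | zero => rfl
      | succ i ih => rw [pow_succ, LinearEquiv.mul_apply, hsq, ih]
    have hsg : P.a' (B.sg v) y = y := by
      have := h2 j
      rw [hj] at this
      exact this
    have hsg' : P.a' (B.sg v)⁻¹ y = y := by
      rw [map_inv]
      have : (P.a' (B.sg v))⁻¹ (P.a' (B.sg v) y) = y := (P.a' (B.sg v)).symm_apply_apply y
      rw [hsg] at this
      exact this
    have hph : P.a' (B.ph v) y = y := by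
      have h3 : P.a' (B.ph v)⁻¹ y = y := by
        rw [← sub_eq_zero]
        refine hP.nd' _ fun w => ?_
        have h1 := h (w, 0)
        rw [rel_apply] at h1
        simp only [map_zero, sub_zero, add_zero, map_sub, LinearMap.sub_apply] at h1
        rw [LoP_inv_symm hP, LoP_nrm hB hP v w hsg'] at h1
        rw [map_sub, h1]
      have h4 : P.a' (B.ph v) (P.a' (B.ph v)⁻¹ y) = y := by
        rw [← LinearEquiv.mul_apply, ← map_mul, mul_inv_cancel, map_one]
        rfl
      rw [h3] at h4
      exact h4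
    exact LoP_fix hB hP.ker' v hsg hph
  · intro h x
    have h1 : ∀ s ∈ B.D v, ∀ w : N, P.e (P.a s w) y = P.e w y := by
      intro s hs w
      rw [LoP_inv_symm hP, h _ ((B.D v).inv_mem hs)]
    rw [rel_apply]
    simp only [map_add, map_sub, LinearMap.add_apply, LinearMap.sub_apply]
    rw [h1 _ (hB.ph_mem v), LoP_nrm hB hP v x.1 (h _ ((B.D v).inv_mem (hB.sg_mem v))),
      ← map_pow, h1 _ ((B.D v).pow_mem (hB.sg_mem v) _)]
    ring

theorem card_ker_rel (hB : B.Ok l) (hP : P.Ok B) (v : Pl) :
    Nat.card (LinearMap.ker (rel B P.a v)) =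
      Nat.card N * Nat.card {y : N' // ∀ s ∈ B.D v, P.a' s y = y} := by
  have hl : Fact l.Prime := ⟨hB.prime⟩
  have := hP.fin
  have := hP.fin'
  have hfd : Module.Finite (ZMod l) N := LoP_fd
  have hfd' : Module.Finite (ZMod l) N' := LoP_fd
  have hpp := LoP_pp hB hP
  set f := rel B P.a v with hf
  let ψ : N' →ₗ[ZMod l] Module.Dual (ZMod l) (N × N) := f.dualMap.comp P.e.flip
  have hψ : ∀ y, ψ y = 0 ↔ ∀ s ∈ B.D v, P.a' s y = y := by
    intro y
    rw [← LoP_ann hB hP v y]
    constructor
    · intro h x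
      have := LinearMap.congr_fun h x
      exact this
    · intro h
      exact LinearMap.ext h
  have hcard : Nat.card {y : N' // ∀ s ∈ B.D v, P.a' s y = y} = Nat.card (LinearMap.ker ψ) :=
    Nat.card_congr (Equiv.subtypeEquivRight fun y => by
      rw [LinearMap.mem_ker]
      exact (hψ y).symm)
  have hsurj : Function.Surjective P.e.flip := hpp.bijective_right.surjective
  have hr1 : LinearMap.range ψ = LinearMap.range f.dualMap :=
    LinearMap.range_comp_of_range_eq_top _ (LinearMap.range_eq_top.2 hsurj)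
  have hr2 : Module.finrank (ZMod l) (LinearMap.range ψ) =
      Module.finrank (ZMod l) (LinearMap.range f) := by
    rw [hr1]
    exact LinearMap.finrank_range_dualMap_eq_finrank_range f
  have k1 := LinearMap.finrank_range_add_finrank_ker ψ
  have k2 := LinearMap.finrank_range_add_finrank_ker f
  have k3 : Module.finrank (ZMod l) N' = Module.finrank (ZMod l) N := by
    have h1 := (LinearEquiv.ofBijective _ hpp.bijective_right).finrank_eq
    rw [Subspace.dual_finrank_eq] at h1
    exact h1
  rw [Module.finrank_prod] at k2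
  rw [hcard, Module.natCard_eq_pow_finrank (K := ZMod l) (V := LinearMap.ker ψ),
    Module.natCard_eq_pow_finrank (K := ZMod l) (V := N),
    Module.natCard_eq_pow_finrank (K := ZMod l) (V := LinearMap.ker f), ← pow_add]
  congr 1
  omega

end gen

variable {l : ℕ} {G Pl : Type*} [Group G] {B : Bs G Pl} {X : Type*} [MulAction G X] [Fintype X]
  {E : Pl → X → ℕ × ℕ × ℕ}

theorem permP_swap : (permP l G X).swap = permP l G X := by
  have h : (permP l G X).e.flip = (permP l G X).e := by
    refine LinearMap.ext₂ fun f f' => ?_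
    rw [LinearMap.flip_apply, permP_e, permP_e]
    exact sum_congr rfl fun x _ => mul_comm _ _
  change (⟨(permP l G X).a', (permP l G X).a, (permP l G X).e.flip⟩ :
    DP l G (X → ZMod l) (X → ZMod l)) = _
  rw [h]
  rfl

theorem permP_ok (hB : B.Ok l) (hX : TrivX B X) : (permP l G X).Ok B := by
  classical
  have hl : Fact l.Prime := ⟨hB.prime⟩
  obtain ⟨N, hN, h1⟩ := hX
  have hk : ∀ s ∈ N, (permP l G X).a s = 1 := by
    intro s hs
    ext f x
    rw [permP_a, h1 _ (N.inv_mem hs)]
    rfl
  have hnd : ∀ x : X → ZMod l, (∀ y : X → ZMod l, ∑ i, x i * y i = 0) → x = 0 := by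
    intro x hx
    funext i
    have h2 := hx (Pi.single i 1)
    rw [sum_eq_single i (fun j _ hj => by rw [Pi.single_eq_of_ne hj, mul_zero])
      (fun h => absurd (mem_univ i) h), Pi.single_eq_same, mul_one] at h2
    exact h2
  exact {
    fin := inferInstance
    fin' := inferInstance
    ker := ⟨N, hN, hk⟩
    ker' := ⟨N, hN, hk⟩
    inv := fun s x y => by
      rw [permP_e, permP_e]
      exact Equiv.sum_comp (MulAction.toPerm s⁻¹ : Equiv.Perm X) (fun i => x i * y i)
    nd := fun x hx => hnd x fun y => hx y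
    nd' := fun y hy => hnd y fun x => by
      have := hy x
      rw [permP_e] at this
      rw [← this]
      exact sum_congr rfl fun i _ => mul_comm _ _ }

/-- The values of a cocycle at `sgx`, `phx`. -/
private noncomputable def LoPPhi (B : Bs G Pl) (X : Type*) [MulAction G X] [Fintype X]
    (E : Pl → X → ℕ × ℕ × ℕ) (l : ℕ) (v : Pl) :
    (X → ZMod l) × (X → ZMod l) →ₗ[ZMod l] (orbitRel.Quotient (B.D v) X → ZMod l × ZMod l) :=
  LinearMap.pi fun o =>
    LinearMap.prod
      ((LinearMap.proj o.out).comp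
        ((nrm ((permP l G X).a (B.sg v)) (E v o.out).1).comp (LinearMap.fst _ _ _)))
      ((LinearMap.proj o.out).comp
        ((nrm ((permP l G X).a (B.sg v)) (E v o.out).2.2).comp (LinearMap.fst _ _ _) +
          ((permP l G X).a (B.sg v ^ (E v o.out).2.2)).toLinearMap.comp
            ((nrm ((permP l G X).a (B.ph v)) (E v o.out).2.1).comp (LinearMap.snd _ _ _))))

private theorem LoPPhi_loc (hB : B.Ok l) (v : Pl) {c : G → X → ZMod l}
    (hc : Z1On B (permP l G X).a v c) (o : orbitRel.Quotient (B.D v) X) :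
    LoPPhi B X E l v (loc B v c) o =
      (c (sgx B E v o.out) o.out, c (phx B E v o.out) o.out) := by
  have hsg := hB.sg_mem v
  have hph := hB.ph_mem v
  unfold sgx phx
  rw [hc.pow hB hsg, hc.2 _ ((B.D v).pow_mem hsg _) _ ((B.D v).pow_mem hph _), hc.pow hB hsg,
    hc.pow hB hph]
  rfl

private theorem LoP_coc {v : Pl} {c : G → X → ZMod l} (hf : B.TFOn (B.D v) c)
    (hc : IsCoc (B.D v) c) : Z1On B (permP l G X).a v c := by
  refine ⟨hf, fun s hs t ht => funext fun x => ?_⟩
  rw [hc s hs t ht x]
  rfl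

/-- `N^D` = functions on the orbits -/
private noncomputable def LoP_orb (B : Bs G Pl) (X : Type*) [MulAction G X] [Fintype X] (l : ℕ)
    (v : Pl) : {y : X → ZMod l // ∀ s ∈ B.D v, (permP l G X).a' s y = y} ≃
      (orbitRel.Quotient (B.D v) X → ZMod l) where
  toFun y o := y.1 o.out
  invFun h := ⟨fun x => h (Quotient.mk _ x), fun s hs => funext fun x => by
    change h (Quotient.mk _ (s⁻¹ • x)) = h (Quotient.mk _ x)
    congr 1
    exact Quotient.sound ⟨⟨s⁻¹, (B.D v).inv_mem hs⟩, rfl⟩⟩
  left_inv y := by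
    refine Subtype.ext (funext fun x => ?_)
    change y.1 (Quotient.mk (orbitRel (B.D v) X) x).out = y.1 x
    have h1 : (Quotient.mk (orbitRel (B.D v) X) x).out ∈ orbit (B.D v) x :=
      Quotient.mk_out (s := orbitRel (B.D v) X) x
    obtain ⟨t, ht⟩ := h1
    have ht' : (t : G) • x = (Quotient.mk (orbitRel (B.D v) X) x).out := ht
    rw [← ht']
    have h2 := congrFun (y.2 (t : G)⁻¹ ((B.D v).inv_mem t.2)) x
    rw [permP_a', inv_inv] at h2
    exact h2
  right_inv h := by
    funext o
    change h (Quotient.mk _ o.out) = h o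
    congr 1
    exact Quotient.out_eq o

theorem permP_cp (hB : B.Ok l) (hU : B.Uni l) (hX : TrivX B X) (hE : OrbE l B E) (v : Pl)
    (x : (X → ZMod l) × (X → ZMod l)) (h : rel B (permP l G X).a v x = 0) :
    x ∈ CP B (permP l G X).a v := by
  classical
  have hl : Fact l.Prime := ⟨hB.prime⟩
  have hP := permP_ok (l := l) (G := G) (X := X) hB hX
  have hk := hP.ker
  have hfq : Finite (orbitRel.Quotient (B.D v) X) := inferInstance
  have := Fintype.ofFinite (orbitRel.Quotient (B.D v) X)
  set a := (permP l G X).a with ha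
  set K := LinearMap.ker (rel B a v) with hK
  set W := (orbitRel.Quotient (B.D v) X → ZMod l × ZMod l) with hW
  let m := Fintype.card (orbitRel.Quotient (B.D v) X)
  let g : K →ₗ[ZMod l] W := (LoPPhi B X E l v).domRestrict K
  have hcpK : ∀ y ∈ CP B a v, y ∈ K := fun y hy => rel_of_cp hB v hy
  -- surjectivity
  have hsurj' : ∀ w : W, ∃ y ∈ CP B a v, LoPPhi B X E l v y = w := by
    intro w
    choose b hb hb1 hb2 using fun x : X => exists_pair hB hU hX hE v x (w (Quotient.mk _ x))
    obtain ⟨c, hcf, hcc, hco⟩ := exists_sh hB hX (B.D v) (b := b) hb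
    refine ⟨loc B v c, ⟨c, LoP_coc hcf hcc, rfl⟩, funext fun o => ?_⟩
    rw [LoPPhi_loc hB v (LoP_coc hcf hcc) o, hco o _ (sgx_mem hB hE v o.out),
      hco o _ (phx_mem hB hE v o.out), hb1, hb2]
    have : (Quotient.mk _ o.out : orbitRel.Quotient (B.D v) X) = o := Quotient.out_eq o
    rw [this]
  have hsurj : Function.Surjective g := by
    intro w
    obtain ⟨y, hy, h1⟩ := hsurj' w
    exact ⟨⟨y, hcpK y hy⟩, h1⟩
  -- the coboundaries
  let cobL : (X → ZMod l) →ₗ[ZMod l] (X → ZMod l) × (X → ZMod l) :=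
    { toFun := fun z => cob B a v z
      map_add' := fun z z' => by
        refine Prod.ext ?_ ?_
        · change a (B.sg v) (z + z') - (z + z') = a (B.sg v) z - z + (a (B.sg v) z' - z')
          rw [map_add]
          abel
        · change a (B.ph v) (z + z') - (z + z') = a (B.ph v) z - z + (a (B.ph v) z' - z')
          rw [map_add]
          abel
      map_smul' := fun r z => by
        refine Prod.ext ?_ ?_
        · change a (B.sg v) (r • z) - r • z = r • (a (B.sg v) z - z)
          rw [map_smul, smul_sub]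
        · change a (B.ph v) (r • z) - r • z = r • (a (B.ph v) z - z)
          rw [map_smul, smul_sub] }
  let cobK : (X → ZMod l) →ₗ[ZMod l] K :=
    cobL.codRestrict K fun z => hcpK _ (cob_mem_cp hk v z)
  have hle : LinearMap.range cobK ≤ LinearMap.ker g := by
    rintro _ ⟨z, rfl⟩
    rw [LinearMap.mem_ker]
    refine funext fun o => ?_
    have h1 := LoPPhi_loc (E := E) hB v (z1On_cob hk v z) o
    change LoPPhi B X E l v (loc B v fun s => a s z - z) o = 0
    rw [h1]
    have h2 : ∀ s : G, s • o.out = o.out → (a s z - z) o.out = 0 := by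
      intro s hs
      have hs' : s⁻¹ • o.out = o.out := by rw [inv_smul_eq_iff, hs]
      change z (s⁻¹ • o.out) - z o.out = 0
      rw [hs', sub_self]
    rw [h2 _ (mem_stabilizer_iff.1 (sgx_mem hB hE v o.out).2),
      h2 _ (mem_stabilizer_iff.1 (phx_mem hB hE v o.out).2)]
    rfl
  -- dimensions
  have hm : Nat.card {y : X → ZMod l // ∀ s ∈ B.D v, (permP l G X).a' s y = y} = l ^ m := by
    rw [Nat.card_congr (LoP_orb B X l v), Nat.card_fun, Nat.card_zmod, Nat.card_eq_fintype_card]
  have hkc : Module.finrank (ZMod l) (LinearMap.ker cobK) = m := by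
    have h1 : Nat.card (LinearMap.ker cobK) = l ^ m := by
      rw [← hm]
      refine Nat.card_congr (Equiv.subtypeEquivRight fun y => ?_)
      rw [LinearMap.mem_ker]
      constructor
      · intro h2
        have h3 : cob B a v y = 0 := congrArg Subtype.val h2
        have h4 : a (B.sg v) y - y = 0 := congrArg Prod.fst h3
        have h5 : a (B.ph v) y - y = 0 := congrArg Prod.snd h3
        exact LoP_fix hB hk v (sub_eq_zero.1 h4) (sub_eq_zero.1 h5)
      · intro h2
        refine Subtype.ext (Prod.ext ?_ ?_)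
        · exact sub_eq_zero.2 (h2 _ (hB.sg_mem v))
        · exact sub_eq_zero.2 (h2 _ (hB.ph_mem v))
    rw [Module.natCard_eq_pow_finrank (K := ZMod l), Nat.card_zmod] at h1
    exact Nat.pow_right_injective hB.prime.two_le h1
  have hKd : Module.finrank (ZMod l) K = Module.finrank (ZMod l) (X → ZMod l) + m := by
    have h1 := card_ker_rel hB hP v
    rw [hm] at h1
    rw [Module.natCard_eq_pow_finrank (K := ZMod l),
      Module.natCard_eq_pow_finrank (K := ZMod l) (V := X → ZMod l), Nat.card_zmod,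
      ← pow_add] at h1
    exact Nat.pow_right_injective hB.prime.two_le h1
  have hWd : Module.finrank (ZMod l) W = m + m := by
    change Module.finrank (ZMod l) (orbitRel.Quotient (B.D v) X → ZMod l × ZMod l) = m + m
    rw [Module.finrank_pi_fintype, sum_const, Module.finrank_prod, Module.finrank_self,
      smul_eq_mul, card_univ]
    change m * (1 + 1) = m + m
    ring
  have k1 := LinearMap.finrank_range_add_finrank_ker cobK
  have k2 := LinearMap.finrank_range_add_finrank_ker g
  rw [LinearMap.range_eq_top.2 hsurj, finrank_top] at k2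
  have heq : LinearMap.range cobK = LinearMap.ker g :=
    Submodule.eq_of_le_of_finrank_eq hle (by omega)
  -- conclusion
  obtain ⟨y, hy, hy1⟩ := hsurj' (LoPPhi B X E l v x)
  have hxK : x ∈ K := h
  have h1 : (⟨x, hxK⟩ - ⟨y, hcpK y hy⟩ : K) ∈ LinearMap.ker g := by
    rw [LinearMap.mem_ker, map_sub, sub_eq_zero]
    exact hy1.symm
  rw [← heq] at h1
  obtain ⟨z, hz⟩ := h1
  have h2 : cob B a v z = x - y := congrArg Subtype.val hz
  have h3 : x = cob B a v z + y := by
    rw [h2, sub_add_cancel]
  rw [h3]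
  exact (CPs hB a v).add_mem (cob_mem_cp hk v z) hy

theorem permP_h2 (hB : B.Ok l) (hU : B.Uni l) (hX : TrivX B X) (hE : OrbE l B E) (v : Pl)
    (c : G → G → X → ZMod l) (hc : Z2On B (permP l G X).a v c)
    (h : ∀ y : X → ZMod l, (∀ s ∈ B.D v, (permP l G X).a' s y = y) →
      B.inv v (fun s t => (permP l G X).e (c s t) y) = 0) : SplOn B (permP l G X).a v c := by
  classical
  obtain ⟨hf, hcc⟩ := hc
  have hc2 : IsCoc2 (B.D v) c := fun s hs t ht u hu x => congrFun (hcc s hs t ht u hu) x
  have hx : ∀ x : X, SplH B (Dx B v x) (fun s t => c s t x) := by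
    intro x
    refine h2_x hB hU hX hE v x ⟨?_, ?_⟩ ?_
    · obtain ⟨N, hN, h1⟩ := hf
      refine ⟨N, hN, fun s hs t ht n hn hnD m hm hmD => ?_⟩
      exact congrFun (h1 s hs.1 t ht.1 n hn hnD.1 m hm hmD.1) x
    · intro s hs t ht u hu
      have h1 := hc2 s hs.1 t ht.1 u hu.1 x
      have h2 : s⁻¹ • x = x := by
        rw [inv_smul_eq_iff]
        exact (mem_stabilizer_iff.1 hs.2).symm
      rw [h2] at h1
      exact h1
    · rw [hE.formula v x c hf fun s hs t ht u hu y _ => hc2 s hs t ht u hu y]
      let y : X → ZMod l := fun x' => if x' ∈ orbit (B.D v) x then 1 else 0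
      have hy : ∀ s ∈ B.D v, (permP l G X).a' s y = y := by
        intro s hs
        funext x'
        rw [permP_a']
        change (if s⁻¹ • x' ∈ orbit (B.D v) x then (1 : ZMod l) else 0) =
          if x' ∈ orbit (B.D v) x then 1 else 0
        have h1 : s⁻¹ • x' ∈ orbit (B.D v) x ↔ x' ∈ orbit (B.D v) x := by
          constructor
          · rintro ⟨t, ht⟩
            have ht' : (t : G) • x = s⁻¹ • x' := ht
            refine ⟨⟨s, hs⟩ * t, ?_⟩
            change (s * (t : G)) • x = x'
            rw [mul_smul, ht', smul_inv_smul]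
          · rintro ⟨t, ht⟩
            have ht' : (t : G) • x = x' := ht
            refine ⟨⟨s, hs⟩⁻¹ * t, ?_⟩
            change (s⁻¹ * (t : G)) • x = s⁻¹ • x'
            rw [mul_smul, ht']
        simp only [h1]
      rw [← h y hy]
      congr 1
      funext s t
      rw [permP_e, finsum_eq_sum_of_fintype]
      have h2 : ∀ x' : X, c s t x' * y x' =
          if x' ∈ orbit (B.D v) x then c s t x' else 0 := by
        intro x'
        change c s t x' * (if x' ∈ orbit (B.D v) x then (1 : ZMod l) else 0) = _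
        split_ifs <;> simp
      rw [sum_congr rfl fun x' _ => h2 x', ← sum_filter]
      exact (Finset.sum_subtype _ (fun x' => by simp) fun x' => c s t x').symm
  obtain ⟨b, hb, hb2⟩ := spl_of_x hB hX hf hc2 fun x => ⟨1, (B.D v).one_mem, by
    rw [one_smul]
    exact hx x⟩
  exact ⟨b, hb, fun s hs t ht => funext fun x => hb2 s hs t ht x⟩

theorem permP_lo (hB : B.Ok l) (hU : B.Uni l) (hX : TrivX B X) (hE : OrbE l B E) :
    (permP l G X).Lo B := ⟨permP_cp hB hU hX hE, permP_h2 hB hU hX hE⟩

end Pool.Agent.SmL.F
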