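import Pool.Agent.Lib.SmL.F.LagL
import Pool.Agent.Lib.SmL.F.LoP

/-!
# SMITH-L, arithmetic: the global facts for permutation modules

PORT of `SmN/F/VL.lean` (`lagV`, `injV`), `SmN/F/HasseV.lean`, for `P = permP l G X` itself (`i = p = id`).

`permP_fin`: `c ∈ Z¹_T` is `sh r b + dz` (`coc_sh`), `b` = the `x0`-component, `z : X → ZMod l`; for `v ∉ T ∪ T1`
(`T1` = places with `sg v` not trivial on `X`) `lp v x b` has first component `c (sg v) x = 0` (`lp_comp`,
`sgx_eq`), so `b ∈ HomT (T ∪ T1)`: finitely many `b` on the stabiliser (`finL`; `sh r b` depends only on the values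
there, `sh_mem`), finitely many `z`.
`permP_sha`: `injL`. `permP_lag`: `lagL`; the difference of the local cocycle and of the restriction of
`sh r b` vanishes at `sgx`, `phx` for the representatives of the orbits, so on `Dx` (`Efj.gen`), and is a
coboundary on `D v` by `IsCoc.cob`.
`permP_hasse`: the `x0`-component of `c` satisfies the hypotheses of `LGl.hasse`: for `(v, x)`: `c` splits on `D v`,
`c = db`, so `c (r s' r⁻¹) (r t' r⁻¹) x0`, `r = r x`, is cohomologous to `c s' t' x` on `Dx` (conjugation;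
`s = r s' r⁻¹`): explicit cochain `c (r, s') - c (s, r)`, component at `x0` (`SmN/F/HasseV.lean`). Then `spl_of_x` with
`D = ⊤`.
-/

/-!
# SMITH-L, arithmetic: the global facts for permutation modules

PORT of `SmN/F/VL.lean` (`lagV`, `injV`), `SmN/F/HasseV.lean`, for `P = permP l G X` itself (`i = p = id`).

`permP_fin`: `c ∈ Z¹_T` is `sh r b + dz` (`coc_sh`), `b` = the `x0`-component, `z : X → ZMod l`; for `v ∉ T ∪ T1`
(`T1` = places with `sg v` not trivial on `X`) `lp v x b` has first component `c (sg v) x = 0` (`lp_comp`,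
`sgx_eq`), so `b ∈ HomT (T ∪ T1)`: finitely many `b` on the stabiliser (`finL`; `sh r b` depends only on the values
there, `sh_mem`), finitely many `z`.
`permP_sha`: `injL`. `permP_lag`: `lagL`; the difference of the local cocycle and of the restriction of
`sh r b` vanishes at `sgx`, `phx` for the representatives of the orbits, so on `Dx` (`Efj.gen`), and is a
coboundary on `D v` by `IsCoc.cob`.
`permP_hasse`: the `x0`-component of `c` satisfies the hypotheses of `LGl.hasse`: for `(v, x)`: `c` splits on `D v`,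
`c = db`, so `c (r s' r⁻¹) (r t' r⁻¹) x0`, `r = r x`, is cohomologous to `c s' t' x` on `Dx` (conjugation;
`s = r s' r⁻¹`): explicit cochain `c (r, s') - c (s, r)`, component at `x0` (`SmN/F/HasseV.lean`). Then `spl_of_x` with
`D = ⊤`.
-/

set_option autoImplicit false

open Finset

namespace Pool.Agent.SmL.F

open MulAction Pool.Agent.SmL.Ar

variable {l : ℕ} {G Pl : Type*} [Group G] {B : Bs G Pl} {X : Type*} [MulAction G X] [Fintype X]
  {E : Pl → X → ℕ × ℕ × ℕ} {x0 : X} {r : X → G}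

private theorem GlP_isCoc {c : G → X → ZMod l}
    (hc : ∀ s t, c (s * t) = c s + (permP l G X).a s (c t)) : IsCoc ⊤ c := by
  intro s _ t _ x
  rw [hc s t]
  rfl

omit [Fintype X] in
private theorem GlP_T1 (hB : B.Ok l) (hX : TrivX B X) :
    ∃ T1 : Finset Pl, ∀ v, v ∉ T1 → ∀ x : X, B.sg v • x = x := by
  obtain ⟨N, hN, h⟩ := hX
  refine ⟨(hB.unr N hN).toFinset, fun v hv x => ?_⟩
  have h1 : B.sg v ∈ N := by
    by_contra h2
    exact hv ((hB.unr N hN).mem_toFinset.2 h2)
  exact h _ h1 x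

private theorem GlP_homT (hB : B.Ok l) (hE : OrbE l B E) (hr : ∀ x, r x • x = x0)
    {T T1 : Finset Pl} (hT1 : ∀ v, v ∉ T1 → ∀ x : X, B.sg v • x = x) {c : G → X → ZMod l}
    (hc : Z1T B (permP l G X).a T c) {T' : Finset Pl} (h1 : T ⊆ T') (h2 : T1 ⊆ T') :
    HomT B E x0 r T' (fun s => c s x0) := by
  have hcc : IsCoc ⊤ c := GlP_isCoc hc.1.2
  refine ⟨⟨?_, ?_⟩, ?_⟩
  · obtain ⟨N, hN, h⟩ := hc.1.1
    exact ⟨N, hN, fun s _ n hn _ => congrFun (h s n hn) x0⟩
  · intro s hs t ht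
    have h3 := hcc s trivial t trivial x0
    have h4 : s⁻¹ • x0 = x0 := (stabilizer G x0).inv_mem hs
    rw [h4] at h3
    exact h3
  · intro v hv x
    rw [lp_comp hB hE hr hcc]
    change c (sgx B E v x) x = 0
    rw [sgx_eq hE (hT1 v (fun h => hv (h2 h)) x), hc.2 v (fun h => hv (h1 h))]
    rfl

/-- The elements of `D` fixing `x` at which the component at `x` vanishes. -/
private def GlP_K {D : Subgroup G} {c : G → X → ZMod l} (hc : IsCoc D c) (x : X) : Subgroup G where
  carrier := {s | s ∈ D ∧ s • x = x ∧ c s x = 0}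
  mul_mem' := by
    rintro s t ⟨h1, h2, h3⟩ ⟨h4, h5, h6⟩
    refine ⟨D.mul_mem h1 h4, by rw [mul_smul, h5, h2], ?_⟩
    have h7 : s⁻¹ • x = x := by rw [inv_smul_eq_iff, h2]
    rw [hc s h1 t h4 x, h7, h3, h6, add_zero]
  one_mem' := ⟨D.one_mem, one_smul G x, hc.one x⟩
  inv_mem' := by
    rintro s ⟨h1, h2, h3⟩
    refine ⟨D.inv_mem h1, by rw [inv_smul_eq_iff, h2], ?_⟩
    rw [hc.inv h1, h2, h3, neg_zero]

theorem permP_fin (hB : B.Ok l) (hX : TrivX B X) (hE : OrbE l B E) (hr : ∀ x, r x • x = x0)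
    (hL : LGl l B E x0 r) (T : Finset Pl) : {c : G → X → ZMod l | Z1T B (permP l G X).a T c}.Finite := by
  classical
  obtain ⟨T1, hT1⟩ := GlP_T1 hB hX
  obtain ⟨A, hA⟩ := finL hL (T ∪ T1)
  have : NeZero l := ⟨hB.prime.ne_zero⟩
  have : Finite (ZMod l) := Fintype.finite inferInstance
  have : Finite (X → ZMod l) := Pi.finite
  refine Set.Finite.subset (s := (fun p : (G → ZMod l) × (X → ZMod l) =>
    fun (s : G) (x : X) => sh r p.1 s x + (p.2 (s⁻¹ • x) - p.2 x)) ''
      ((A : Set (G → ZMod l)) ×ˢ (Set.univ : Set (X → ZMod l)))) ?_ ?_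
  · exact (A.finite_toSet.prod Set.finite_univ).image _
  · intro c hc
    have hcc : IsCoc ⊤ c := GlP_isCoc hc.1.2
    have hb : HomT B E x0 r (T ∪ T1) (fun s => c s x0) :=
      GlP_homT hB hE hr hT1 hc subset_union_left subset_union_right
    obtain ⟨b', hb', hbb⟩ := hA _ hb
    obtain ⟨z, hz⟩ := coc_sh hr hcc
    refine ⟨(b', z), ⟨hb', trivial⟩, ?_⟩
    funext s x
    rw [hz s x]
    have h1 : sh r (fun t => c t x0) s x = sh r b' s x := hbb _ (sh_mem hr s x)
    rw [h1]

theorem permP_sha (hB : B.Ok l) (hCh : B.Cheb1) (hX : TrivX B X) (hE : OrbE l B E)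
    (hr : ∀ x, r x • x = x0) (hL : LGl l B E x0 r) :
    ∃ T0 : Finset Pl, ∀ T, T0 ⊆ T → ShaT B (permP l G X).a T := by
  classical
  obtain ⟨T1, hT1⟩ := GlP_T1 hB hX
  obtain ⟨T2, hT2⟩ := injL hB hCh hX hE hr hL
  refine ⟨T2 ∪ T1, fun T hT c hc ht => ?_⟩
  have hcc : IsCoc ⊤ c := GlP_isCoc hc.1.2
  have hb : HomT B E x0 r T (fun s => c s x0) :=
    GlP_homT hB hE hr hT1 hc subset_rfl (subset_union_right.trans hT)
  have h1 : ∀ s ∈ stabilizer G x0, c s x0 = 0 := by
    refine hT2 T (subset_union_left.trans hT) _ hb ?_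
    intro v hv x
    rw [lp_comp hB hE hr hcc]
    obtain ⟨z, hz⟩ := ht v hv
    -- the cocycle `c - dz`
    let C : G → X → ZMod l := fun s y => c s y - (z (s⁻¹ • y) - z y)
    have hC : IsCoc ⊤ C := by
      intro s _ t _ y
      change c (s * t) y - (z ((s * t)⁻¹ • y) - z y) = c s y - (z (s⁻¹ • y) - z y) +
        (c t (s⁻¹ • y) - (z (t⁻¹ • s⁻¹ • y) - z (s⁻¹ • y)))
      rw [hcc s trivial t trivial y, mul_inv_rev, mul_smul]
      ring
    have h2 : ∀ y, C (B.sg v) y = 0 := by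
      intro y
      have h3 : c (B.sg v) = (permP l G X).a (B.sg v) z - z := congrArg Prod.fst hz
      change c (B.sg v) y - (z ((B.sg v)⁻¹ • y) - z y) = 0
      rw [h3]
      exact sub_self _
    have h3 : ∀ y, C (B.ph v) y = 0 := by
      intro y
      have h3 : c (B.ph v) = (permP l G X).a (B.ph v) z - z := congrArg Prod.snd hz
      change c (B.ph v) y - (z ((B.ph v)⁻¹ • y) - z y) = 0
      rw [h3]
      exact sub_self _
    -- the powers and the products
    have hpow : ∀ s : G, (∀ y, C s y = 0) → ∀ n : ℕ, ∀ y, C (s ^ n) y = 0 := by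
      intro s hs n
      induction n with
      | zero => intro y; rw [pow_zero, hC.one]
      | succ n ih => intro y; rw [pow_succ, hC _ trivial s trivial, ih, hs, add_zero]
    have hmul : ∀ s t : G, (∀ y, C s y = 0) → (∀ y, C t y = 0) → ∀ y, C (s * t) y = 0 := by
      intro s t hs ht y
      rw [hC _ trivial t trivial, hs, ht, add_zero]
    have h4 : C (sgx B E v x) x = 0 := hpow _ h2 _ x
    have h5 : C (phx B E v x) x = 0 := hmul _ _ (hpow _ h2 _) (hpow _ h3 _) x
    have h6 : ∀ s : G, s • x = x → C s x = c s x := by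
      intro s hs
      have h7 : s⁻¹ • x = x := by rw [inv_smul_eq_iff, hs]
      change c s x - (z (s⁻¹ • x) - z x) = c s x
      rw [h7, sub_self, sub_zero]
    have h8 := h6 _ (sgx_mem hB hE v x).2
    have h9 := h6 _ (phx_mem hB hE v x).2
    exact Prod.ext (h8.symm.trans h4) (h9.symm.trans h5)
  obtain ⟨z, hz⟩ := coc_sh hr hcc
  refine ⟨z, fun s => ?_⟩
  funext x
  have h3 := hz s x
  have h4 : sh r (fun t => c t x0) s x = 0 := h1 _ (sh_mem hr s x)
  rw [h4, zero_add] at h3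
  exact h3

theorem permP_lag (hB : B.Ok l) (hR : B.Rec2 l) (hCh : B.Cheb1) (hX : TrivX B X)
    (hE : OrbE l B E) (hr : ∀ x, r x • x = x0) (hL : LGl l B E x0 r) :
    ∃ T0 : Finset Pl, ∀ T, T0 ⊆ T → (permP l G X).LagT B T := by
  classical
  obtain ⟨T1, hT1⟩ := GlP_T1 hB hX
  obtain ⟨T2, hT2⟩ := lagL hB hR hCh hX hE hr hL
  refine ⟨T2 ∪ T1, fun T hT xi hxi horth => ?_⟩
  have hTa : T2 ⊆ T := subset_union_left.trans hT
  have hTb : T1 ⊆ T := subset_union_right.trans hT
  choose! γ hγ hγl using hxi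
  have hγc : ∀ v ∈ T, IsCoc (B.D v) (γ v) := by
    intro v hv s hs t ht x
    rw [(hγ v hv).2 s hs t ht]
    rfl
  -- the Shapiro lifts
  have hsh : ∀ b : G → ZMod l, HomT B E x0 r T b → Z1T B (permP l G X).a T (sh r b) := by
    intro b hb
    refine ⟨⟨sh_tf hr hB hX hb.1.1, fun s t => ?_⟩, fun v hv => ?_⟩
    · funext x
      exact sh_coc hr hb.1.2 s trivial t trivial x
    · funext x
      have h1 : sh r b (sgx B E v x) x = 0 :=
        (congrArg Prod.fst (lp_sh hB hE b v x)).trans (hb.2 v hv x)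
      rw [sgx_eq hE (hT1 v (fun h => hv (hTb h)) x)] at h1
      exact h1
  have hon : ∀ (b : G → ZMod l), HomT B E x0 r T b → ∀ v,
      Z1On B (permP l G X).a v (sh r b) := by
    intro b hb v
    obtain ⟨⟨⟨N, hN, h1⟩, h2⟩, -⟩ := hsh b hb
    exact ⟨⟨N, hN, fun s _ n hn _ => h1 s n hn⟩, fun s _ t _ => h2 s t⟩
  obtain ⟨b, hb, hbx⟩ := hT2 T hTa
    (fun v o => (γ v (sgx B E v o.out) o.out, γ v (phx B E v o.out) o.out)) (by
      intro b hb
      have h1 := horth (sh r b) (hsh b hb)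
      rw [← h1]
      refine sum_congr rfl fun v hv => ?_
      rw [← hγl v hv, sy_orb hB hX hE v (hγ v hv) (hon b hb v)]
      refine finsum_congr fun o => ?_
      rw [lp_sh hB hE])
  refine ⟨sh r b, hsh b hb, fun v hv => ?_⟩
  -- the difference of the two cocycles on `D v`
  have hc2 : IsCoc (B.D v) (sh r b) := (sh_coc hr hb.1.2).mono le_top
  have hc : IsCoc (B.D v) (fun s x => sh r b s x - γ v s x) := hc2.sub (hγc v hv)
  obtain ⟨z, hz⟩ := hc.cob (by
    intro x
    -- the representative of the orbit of `x`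
    set o : orbitRel.Quotient (B.D v) X := Quotient.mk _ x with ho
    have h1 : o.out ∈ orbit (B.D v) x := Quotient.mk_out (s := orbitRel (B.D v) X) x
    obtain ⟨g, hg⟩ := h1
    refine ⟨g, g.2, ?_⟩
    change (g : G) • x = o.out at hg
    rw [hg]
    intro s hs hsx
    obtain ⟨N1, hN1, h2⟩ := (hγ v hv).1
    obtain ⟨N2, hN2, h3⟩ := sh_tf hr hB hX hb.1.1
    obtain ⟨N0, hN0, h0⟩ := hX
    have hN : N1 ⊓ N2 ⊓ N0 ∈ B.NN := hB.inf_mem _ (hB.inf_mem _ hN1 _ hN2) _ hN0
    obtain ⟨a, m, ham⟩ := (hE.efj v o.out).gen hB hN (fun n hn x => h0 n hn.2 x)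
      (s := s) ⟨hs, hsx⟩
    have hsm := sgx_mem hB hE v o.out
    have hpm := phx_mem hB hE v o.out
    have hx1 := hbx v hv o
    have e1 : sh r b (sgx B E v o.out) o.out = γ v (sgx B E v o.out) o.out :=
      congrArg Prod.fst ((lp_sh hB hE b v o.out).trans hx1)
    have e2 : sh r b (phx B E v o.out) o.out = γ v (phx B E v o.out) o.out :=
      congrArg Prod.snd ((lp_sh hB hE b v o.out).trans hx1)
    have k1 : sgx B E v o.out ∈ GlP_K hc o.out :=
      ⟨hsm.1, hsm.2, by change sh r b _ _ - γ v _ _ = 0; rw [e1, sub_self]⟩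
    have k2 : phx B E v o.out ∈ GlP_K hc o.out :=
      ⟨hpm.1, hpm.2, by change sh r b _ _ - γ v _ _ = 0; rw [e2, sub_self]⟩
    have k3 : sgx B E v o.out ^ a * phx B E v o.out ^ m ∈ GlP_K hc o.out :=
      (GlP_K hc o.out).mul_mem ((GlP_K hc o.out).zpow_mem k1 a) ((GlP_K hc o.out).pow_mem k2 m)
    set u : G := sgx B E v o.out ^ a * phx B E v o.out ^ m with hu
    obtain ⟨huD, -, hu0⟩ := k3
    have hsu : s = u * (u⁻¹ * s) := by group
    have hnD : u⁻¹ * s ∈ B.D v := (B.D v).mul_mem ((B.D v).inv_mem huD) hs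
    have ham' : u⁻¹ * s ∈ N1 ⊓ N2 ⊓ N0 := ham
    change sh r b s o.out - γ v s o.out = 0
    rw [hsu, h2 u huD _ ham'.1.1 hnD, h3 u _ ham'.1.2]
    exact hu0)
  refine ⟨z, ?_⟩
  rw [← hγl v hv]
  refine Prod.ext ?_ ?_
  · funext x
    exact hz _ (hB.sg_mem v) x
  · funext x
    exact hz _ (hB.ph_mem v) x

end Pool.Agent.SmL.F
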