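import Pool.Agent.Lib.SmL.F.Uni

/-!
# SMITH-L, arithmetic: `H²` of the decomposition groups with values in `F_l`

Let `c` be of level `N1` on `D = Dx B v x`, `N ∈ NN`, `N ≤ N1`, `N` acting trivially on `X`, `Q` = the image of `D` in
`G ⧸ N` (or `D ⧸ N.subgroupOf D`), finite; `c` gives a 2-cocycle `c̄` of `Q`. For `f : ZMod l`, `s : Q` let `P f s` be
the permutation `(g, t) ↦ (f + g + c̄(s, t), s t)` of `ZMod l × Q`; `P f s * P f' s' = P (f + f' + c̄(s, s')) (s s')`.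
`Γ = Perm (ZMod l × Q)`, `σ = P 0 sgx`, `φ = P 0 phx`: `linv = 0` says `φ σ = σ^q φ` (`σ^i = P (∑_{1 ≤ m < i} c̄(σ^m, σ)) σ^i` for
`i ≥ 1`). If `sgx^a phx^b ∈ N` then `σ^a φ^b` is some `P f 1` (the `P f s` are a subgroup which maps to `Q`), which
has order dividing `l` up to `c̄(1,1)` (the identity is `P (-c̄(1,1)) 1`, `P f 1 * P f' 1 = P (f + f' + c̄(1,1)) 1`,
and `c̄(s,1) = c̄(1,1) = c̄(1,s)`) and commutes with all `P f' s`. `exists_hom` gives `F : D → Γ`, with values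
`F s = P (β s) s` (on the words in `sgx`, `phx`, and modulo the level: multiplicativity and `Efj.gen`), so
`β (s t) = β s + β t + c s t`; `b = -β`.
-/

set_option autoImplicit false

open Finset

namespace Pool.Agent.SmL.F

open MulAction Pool.Agent.SmL.Ar

section ext

variable {l : ℕ} {Q : Type*} [Group Q] (c : Q → Q → ZMod l)

/-- The permutations. -/
private def h2P (f : ZMod l) (s : Q) : Equiv.Perm (ZMod l × Q) where
  toFun p := (f + p.1 + c s p.2, s * p.2)
  invFun p := (p.1 - f - c s (s⁻¹ * p.2), s⁻¹ * p.2)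
  left_inv p := by
    refine Prod.ext ?_ ?_
    · simp only [inv_mul_cancel_left]
      ring
    · simp only [inv_mul_cancel_left]
  right_inv p := by
    refine Prod.ext ?_ ?_
    · simp only
      ring
    · simp only [mul_inv_cancel_left]

private theorem h2P_apply (f : ZMod l) (s : Q) (p : ZMod l × Q) :
    h2P c f s p = (f + p.1 + c s p.2, s * p.2) := rfl

variable {c}

private theorem h2_mul (hc : ∀ s t u, c s t + c (s * t) u = c t u + c s (t * u)) (f f' : ZMod l)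
    (s s' : Q) : h2P c f s * h2P c f' s' = h2P c (f + f' + c s s') (s * s') := by
  refine Equiv.ext fun p => ?_
  rw [Equiv.Perm.mul_apply, h2P_apply, h2P_apply, h2P_apply]
  refine Prod.ext ?_ ?_
  · simp only
    linear_combination -hc s s' p.2
  · simp only [mul_assoc]

private theorem h2_left (hc : ∀ s t u, c s t + c (s * t) u = c t u + c s (t * u)) (u : Q) :
    c 1 u = c 1 1 := by
  have h := hc 1 1 u
  simp only [one_mul] at h
  linear_combination -h

private theorem h2_right (hc : ∀ s t u, c s t + c (s * t) u = c t u + c s (t * u)) (s : Q) :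
    c s 1 = c 1 1 := by
  have h := hc s 1 1
  simp only [mul_one] at h
  linear_combination h

private theorem h2_one (hc : ∀ s t u, c s t + c (s * t) u = c t u + c s (t * u)) :
    h2P c (-c 1 1) 1 = 1 := by
  refine Equiv.ext fun p => ?_
  rw [h2P_apply, h2_left hc p.2]
  refine Prod.ext ?_ ?_
  · simp only [Equiv.Perm.one_apply]
    ring
  · simp only [Equiv.Perm.one_apply, one_mul]

private theorem h2_pow (hc : ∀ s t u, c s t + c (s * t) u = c t u + c s (t * u)) (s : Q) (n : ℕ) :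
    h2P c 0 s ^ (n + 1) = h2P c (∑ m ∈ Ico 1 (n + 1), c (s ^ m) s) (s ^ (n + 1)) := by
  induction n with
  | zero => simp
  | succ n ih =>
    rw [pow_succ, ih, h2_mul hc, sum_Ico_succ_top (by omega : 1 ≤ n + 1), pow_succ s (n + 1),
      add_zero]

/-- The extension, as a subgroup. -/
private def h2K (hc : ∀ s t u, c s t + c (s * t) u = c t u + c s (t * u)) :
    Subgroup (Equiv.Perm (ZMod l × Q) × Q) where
  carrier := {p | ∃ f, p.1 = h2P c f p.2}
  mul_mem' := by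
    rintro p r ⟨f, hf⟩ ⟨f', hf'⟩
    exact ⟨_, by rw [Prod.fst_mul, Prod.snd_mul, hf, hf', h2_mul hc]⟩
  one_mem' := ⟨-c 1 1, by rw [Prod.fst_one, Prod.snd_one, h2_one hc]⟩
  inv_mem' := by
    rintro p ⟨f, hf⟩
    refine ⟨-f - c p.2 p.2⁻¹ - c 1 1, ?_⟩
    rw [Prod.fst_inv, Prod.snd_inv, inv_eq_iff_mul_eq_one, hf, h2_mul hc, mul_inv_cancel]
    have e : f + (-f - c p.2 p.2⁻¹ - c 1 1) + c p.2 p.2⁻¹ = -c 1 1 := by ring
    rw [e, h2_one hc]

private theorem h2_ker [NeZero l] (hc : ∀ s t u, c s t + c (s * t) u = c t u + c s (t * u))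
    (f : ZMod l) : h2P c f 1 ^ l = 1 ∧ ∀ s, Commute (h2P c f 1) (h2P c 0 s) := by
  constructor
  · have h : ∀ n : ℕ, ∀ p, (h2P c f 1 ^ n) p = (n * (f + c 1 1) + p.1, p.2) := by
      intro n
      induction n with
      | zero => intro p; simp
      | succ n ih =>
        intro p
        rw [pow_succ', Equiv.Perm.mul_apply, ih, h2P_apply]
        simp only [h2_left hc p.2]
        refine Prod.ext ?_ ?_
        · simp only [Nat.cast_succ]
          ring
        · simp only [one_mul]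
    refine Equiv.ext fun p => ?_
    rw [h l p, ZMod.natCast_self, zero_mul, zero_add]
    rfl
  · intro s
    rw [Commute, SemiconjBy, h2_mul hc, h2_mul hc, h2_left hc s, h2_right hc s, one_mul, mul_one]
    congr 1
    ring

private theorem h2_inj {f f' : ZMod l} {s : Q} (h : h2P c f s = h2P c f' s) : f = f' := by
  have e := congrArg (fun σ : Equiv.Perm (ZMod l × Q) => (σ (0, 1)).1) h
  simp only [h2P_apply] at e
  linear_combination e

end ext

variable {l : ℕ} {G Pl : Type*} [Group G] {B : Bs G Pl} {X : Type*} [MulAction G X]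
  {E : Pl → X → ℕ × ℕ × ℕ}

theorem h2_x (hB : B.Ok l) (hU : B.Uni l) (hX : TrivX B X) (hE : OrbE l B E) (v : Pl) (x : X)
    {c : G → G → ZMod l} (hc : Coc2H B (Dx B v x) c)
    (h0 : linv (sgx B E v x) (phx B E v x) (qx B E v x) c = 0) : SplH B (Dx B v x) c := by
  classical
  have : NeZero l := ⟨hB.prime.ne_zero⟩
  obtain ⟨N1, hN1, hlev⟩ := hc.1
  obtain ⟨N2, hN2, htriv⟩ := id hX
  obtain ⟨N, hN, hle1, hle2⟩ : ∃ N ∈ B.NN, N ≤ N1 ∧ N ≤ N2 :=
    ⟨N1 ⊓ N2, hB.inf_mem _ hN1 _ hN2, inf_le_left, inf_le_right⟩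
  have hnorm : N.Normal := hB.normal N hN
  have hfi : N.FiniteIndex := hB.fi N hN
  obtain ⟨D, hD⟩ : ∃ D, D = Dx B v x := ⟨_, rfl⟩
  have hfi' : (N.subgroupOf D).FiniteIndex := inferInstance
  have hfinQ : Finite (D ⧸ N.subgroupOf D) := Subgroup.finite_quotient_of_finiteIndex
  rw [← hD] at hc hlev ⊢
  have hsg : sgx B E v x ∈ D := hD ▸ sgx_mem hB hE v x
  have hph : phx B E v x ∈ D := hD ▸ phx_mem hB hE v x
  -- the cocycle of the quotient
  obtain ⟨cb, hcb⟩ : ∃ cb : D ⧸ N.subgroupOf D → D ⧸ N.subgroupOf D → ZMod l,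
      ∀ s t : D, cb s t = c s t := by
    refine ⟨fun p r => c (p.out : D) (r.out : D), fun s t => ?_⟩
    obtain ⟨n, hn⟩ := QuotientGroup.mk_out_eq_mul (N.subgroupOf D) s
    obtain ⟨m, hm⟩ := QuotientGroup.mk_out_eq_mul (N.subgroupOf D) t
    change c ((s : D ⧸ N.subgroupOf D).out : D) ((t : D ⧸ N.subgroupOf D).out : D) = c s t
    rw [hn, hm]
    exact hlev s s.2 t t.2 (n : D) (hle1 n.2) (n : D).2 (m : D) (hle1 m.2) (m : D).2
  have hcc : ∀ s t u, cb s t + cb (s * t) u = cb t u + cb s (t * u) := by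
    intro s t u
    induction s using QuotientGroup.induction_on with
    | H s =>
    induction t using QuotientGroup.induction_on with
    | H t =>
    induction u using QuotientGroup.induction_on with
    | H u =>
    rw [← QuotientGroup.mk_mul, ← QuotientGroup.mk_mul, hcb, hcb, hcb, hcb]
    exact hc.2 s s.2 t t.2 u u.2
  obtain ⟨sg, hsge⟩ : ∃ sg : D, (sg : G) = sgx B E v x := ⟨⟨_, hsg⟩, rfl⟩
  obtain ⟨ph, hphe⟩ : ∃ ph : D, (ph : G) = phx B E v x := ⟨⟨_, hph⟩, rfl⟩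
  have hrel : (ph : D ⧸ N.subgroupOf D) * sg = (sg : D ⧸ N.subgroupOf D) ^ qx B E v x * ph := by
    have h1 := rel_x hB (E := E) v x hN
    rw [← hsge, ← hphe] at h1
    have h2 : ((sg ^ qx B E v x : D) : D ⧸ N.subgroupOf D) = ((ph * sg * ph⁻¹ : D) : _) := by
      rw [QuotientGroup.eq, Subgroup.mem_subgroupOf]
      exact h1
    rw [QuotientGroup.mk_mul, QuotientGroup.mk_mul, QuotientGroup.mk_inv,
      QuotientGroup.mk_pow] at h2
    rw [h2, inv_mul_cancel_right]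
  have hΓ : h2P cb 0 (ph : D ⧸ N.subgroupOf D) * h2P cb 0 (sg : D ⧸ N.subgroupOf D) =
      h2P cb 0 (sg : D ⧸ N.subgroupOf D) ^ qx B E v x * h2P cb 0 (ph : D ⧸ N.subgroupOf D) := by
    obtain ⟨q, hq⟩ : ∃ q, qx B E v x = q + 1 :=
      ⟨qx B E v x - 1, by have := qx_pos hB E v x; omega⟩
    rw [hq] at hrel h0 ⊢
    rw [h2_pow hcc, h2_mul hcc, h2_mul hcc, hrel]
    congr 1
    have e1 : cb ph sg = c (phx B E v x) (sgx B E v x) := by rw [hcb, hphe, hsge]
    have e2 : cb ((sg : D ⧸ N.subgroupOf D) ^ (q + 1)) ph =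
        c (sgx B E v x ^ (q + 1)) (phx B E v x) := by
      rw [← QuotientGroup.mk_pow, hcb, ← hphe, ← hsge]
      rfl
    have e3 : ∀ m : ℕ, cb ((sg : D ⧸ N.subgroupOf D) ^ m) sg =
        c (sgx B E v x ^ m) (sgx B E v x) := by
      intro m
      rw [← QuotientGroup.mk_pow, hcb, ← hsge]
      rfl
    unfold linv at h0
    rw [e1, e2, sum_congr rfl fun m _ => e3 m]
    linear_combination h0
  have hmk : ∀ (a : ℤ) (b : ℕ),
      (h2P cb 0 (sg : D ⧸ N.subgroupOf D) ^ a * h2P cb 0 (ph : D ⧸ N.subgroupOf D) ^ b,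
        ((sg ^ a * ph ^ b : D) : D ⧸ N.subgroupOf D)) ∈ h2K hcc := by
    intro a b
    have h1 : (h2P cb 0 (sg : D ⧸ N.subgroupOf D), (sg : D ⧸ N.subgroupOf D)) ∈ h2K hcc :=
      ⟨0, rfl⟩
    have h2 : (h2P cb 0 (ph : D ⧸ N.subgroupOf D), (ph : D ⧸ N.subgroupOf D)) ∈ h2K hcc :=
      ⟨0, rfl⟩
    exact (h2K hcc).mul_mem ((h2K hcc).zpow_mem h1 a) ((h2K hcc).pow_mem h2 b)
  obtain ⟨F, hF1, hF2, hF3, hF4⟩ := exists_hom hB hU hX hE v x hΓ ⟨N, hN, fun a b hab => by
    obtain ⟨f, hf⟩ := hmk a b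
    have h1 : ((sg ^ a * ph ^ b : D) : D ⧸ N.subgroupOf D) = 1 := by
      rw [QuotientGroup.eq_one_iff, Subgroup.mem_subgroupOf]
      rw [← hsge, ← hphe] at hab
      exact hab
    simp only [h1] at hf
    rw [hf]
    exact ⟨(h2_ker hcc f).1, (h2_ker hcc f).2 _⟩⟩
  rw [← hD] at hF1 hF2
  -- the values of `F`
  have hF5 : F 1 = 1 := by
    have h := hF2 1 D.one_mem 1 D.one_mem
    rw [mul_one] at h
    exact (mul_eq_left.mp h.symm)
  have hFm : ∀ s : D, F s ∈ Set.range fun f => h2P cb f (s : D ⧸ N.subgroupOf D) := by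
    intro s
    obtain ⟨NF, hNF, hlF⟩ := hF1
    obtain ⟨a, b, hab⟩ := Efj.gen hB (hE.efj v x) (hB.inf_mem _ hN _ hNF)
      (fun n hn => htriv n (hle2 hn.1)) (s := (s : G)) (by rw [← hD]; exact s.2)
    have hab' : (sgx B E v x ^ a * phx B E v x ^ b)⁻¹ * s ∈ N ⊓ NF := hab
    rw [← hsge, ← hphe] at hab'
    -- `F` as a homomorphism
    let FD : D →* Equiv.Perm (ZMod l × (D ⧸ N.subgroupOf D)) :=
      { toFun := fun s => F s
        map_one' := hF5
        map_mul' := fun s t => hF2 s s.2 t t.2 }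
    have e1 : F s = h2P cb 0 (sg : D ⧸ N.subgroupOf D) ^ a *
        h2P cb 0 (ph : D ⧸ N.subgroupOf D) ^ b := by
      have h1 := hlF (sg ^ a * ph ^ b : D) (sg ^ a * ph ^ b : D).2
        (((sg ^ a * ph ^ b)⁻¹ * s : D) : G) hab'.2 ((sg ^ a * ph ^ b)⁻¹ * s : D).2
      have h2 : ((sg ^ a * ph ^ b : D) : G) * (((sg ^ a * ph ^ b)⁻¹ * s : D) : G) = s := by
        rw [← Subgroup.coe_mul, mul_inv_cancel_left]
      rw [h2] at h1
      rw [h1]
      change FD (sg ^ a * ph ^ b) = _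
      rw [map_mul, map_zpow, map_pow]
      have e3 : FD sg = h2P cb 0 (sg : D ⧸ N.subgroupOf D) := by
        change F sg = _
        rw [hsge, hF3]
      have e4 : FD ph = h2P cb 0 (ph : D ⧸ N.subgroupOf D) := by
        change F ph = _
        rw [hphe, hF4]
      rw [e3, e4]
    have e2 : (s : D ⧸ N.subgroupOf D) = ((sg ^ a * ph ^ b : D) : D ⧸ N.subgroupOf D) := by
      symm
      rw [QuotientGroup.eq, Subgroup.mem_subgroupOf]
      exact hab'.1
    obtain ⟨f, hf⟩ := hmk a b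
    refine ⟨f, ?_⟩
    simp only
    rw [e1, e2]
    exact hf.symm
  refine ⟨fun s => cb 1 1 - (F s (0, 1)).1, ?_, ?_⟩
  · obtain ⟨NF, hNF, hlF⟩ := hF1
    exact ⟨NF, hNF, fun s hs n hn hn' => by simp only [hlF s hs n hn hn']⟩
  · have hval : ∀ (s : D) (f : ZMod l), F s = h2P cb f (s : D ⧸ N.subgroupOf D) →
        cb 1 1 - (F s (0, 1)).1 = -f := by
      intro s f hf
      rw [hf, h2P_apply]
      simp only
      rw [h2_right hcc (s : D ⧸ N.subgroupOf D)]
      ring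
    intro s hs t ht
    obtain ⟨f, hf⟩ := hFm ⟨s, hs⟩
    obtain ⟨f', hf'⟩ := hFm ⟨t, ht⟩
    obtain ⟨f'', hf''⟩ := hFm (⟨s, hs⟩ * ⟨t, ht⟩)
    have e1 := hval ⟨s, hs⟩ f hf.symm
    have e2 := hval ⟨t, ht⟩ f' hf'.symm
    have e3 := hval (⟨s, hs⟩ * ⟨t, ht⟩) f'' hf''.symm
    have e4 := hF2 s hs t ht
    simp only at hf hf' hf''
    have e5 : h2P cb f'' ((⟨s, hs⟩ * ⟨t, ht⟩ : D) : D ⧸ N.subgroupOf D) =
        h2P cb (f + f' + cb (⟨s, hs⟩ : D) (⟨t, ht⟩ : D))
          ((⟨s, hs⟩ * ⟨t, ht⟩ : D) : D ⧸ N.subgroupOf D) := by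
      rw [QuotientGroup.mk_mul, ← h2_mul hcc, hf, hf', ← QuotientGroup.mk_mul, hf'']
      exact e4
    have e6 := h2_inj e5
    rw [hcb] at e6
    simp only [Subgroup.coe_mul] at e1 e2 e3 e6
    change c s t = (cb 1 1 - (F s (0, 1)).1) + (cb 1 1 - (F t (0, 1)).1) -
      (cb 1 1 - (F (s * t) (0, 1)).1)
    rw [e1, e2, e3, e6]
    ring

end Pool.Agent.SmL.F
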