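import Pool.Agent.Lib.SmL.F.Shap
import Pool.Agent.Lib.SmL.Ar.Inv

/-!
# SMITH-L, arithmetic: the Hasse principle for `H²` of permutation modules

The `x0`-component of `c` satisfies the hypotheses of `LGl.hasse`: for `(v, x)`, `ρ = r x`, `ρ x = x0`: `c` splits on
`D v`, `c = dβ`. For `s = ρ s' ρ⁻¹`, `t = ρ t' ρ⁻¹`, `s', t' ∈ Dx`:
`c s t x0 = c s' t' x + (dη)(s, t)`, `η s = c ρ s' x0 - c s ρ x0` up to sign (use the cocycle identity for
`(ρ, s', t')`, `(s, ρ, t')`, `(s, t, ρ)` at `x0`; compare `SmN/F/HasseV.lean`). So `c · · x0 = db` with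
`b s = β s' x ± η s` on the conjugate of `Dx`. `LGl.hasse` gives `SplH` on the stabiliser of `x0`, and
`spl_of_x` with `D = ⊤`, `g = r x`.
-/

set_option autoImplicit false

open Finset

namespace Pool.Agent.SmL.F

open MulAction Pool.Agent.SmL.Ar

variable {l : ℕ} {G Pl : Type*} [Group G] {B : Bs G Pl} {X : Type*} [MulAction G X] [Fintype X]
  {E : Pl → X → ℕ × ℕ × ℕ} {x0 : X} {r : X → G}

theorem permP_hasse (hB : B.Ok l) (hX : TrivX B X) (hr : ∀ x, r x • x = x0)
    (hL : LGl l B E x0 r) (c : G → G → X → ZMod l) (hc : Z2 B (permP l G X).a c)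
    (h : ∀ v, SplOn B (permP l G X).a v c) : Spl B (permP l G X).a c := by
  classical
  obtain ⟨hcf, hco⟩ := hc
  obtain ⟨Nc, hNc, hcN⟩ := id hcf
  have hN2 : ∀ N : Subgroup G, N ∈ B.NN → ∀ n ∈ N, ∀ g : G, g⁻¹ * n * g ∈ N := by
    intro N hN n hn g
    have h := (hB.normal N hN).conj_mem n hn g⁻¹
    rwa [inv_inv] at h
  have hCl : ∀ s t, ∀ m ∈ Nc, c s (t * m) = c s t := by
    intro s t m hm
    have h := hcN s t 1 Nc.one_mem m hm
    rwa [mul_one] at h
  have hCr : ∀ s t, ∀ n ∈ Nc, c (s * n) t = c s t := by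
    intro s t n hn
    have h := hcN s t n hn 1 Nc.one_mem
    rwa [mul_one] at h
  have hC : ∀ s t u x, c s t x + c (s * t) u x = c t u (s⁻¹ • x) + c s (t * u) x := by
    intro s t u x
    have h := congrFun (hco s t u) x
    rw [Pi.add_apply, Pi.add_apply, permP_a] at h
    exact h
  have hinv : ∀ (s : G) (x : X), s • x = x → s⁻¹ • x = x := by
    intro s x hs
    rw [inv_smul_eq_iff, hs]
  have hS : SplH B (stabilizer G x0) (fun s t => c s t x0) := by
    refine hL.hasse (fun s t => c s t x0) ⟨⟨Nc, hNc, ?_⟩, ?_⟩ ?_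
    · intro s _ t _ n hn _ m hm _
      change c (s * n) (t * m) x0 = c s t x0
      rw [hcN s t n hn m hm]
    · intro s hs t _ w _
      have h := hC s t w x0
      rw [hinv s x0 hs] at h
      exact h
    · intro v x
      obtain ⟨β, ⟨Nb, hNb, hbN⟩, hβ⟩ := h v
      have hgx : (r x)⁻¹ • x0 = x := by rw [inv_smul_eq_iff, hr]
      refine ⟨fun s => β ((r x)⁻¹ * s * r x) x + c s (r x) x0 - c (r x) ((r x)⁻¹ * s * r x) x0,
        ⟨Nb ⊓ Nc, hB.inf_mem Nb hNb Nc hNc, ?_⟩, ?_⟩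
      · intro s hs n hn hnH
        have hD : ∀ s ∈ stabilizer G x0 ⊓ (B.D v).map (MulAut.conj (r x)).toMonoidHom,
            (r x)⁻¹ * s * r x ∈ B.D v := by
          intro s hs
          obtain ⟨d, hd, hds⟩ := Subgroup.mem_map.1 hs.2
          have hds' : r x * d * (r x)⁻¹ = s := hds
          rw [← hds', show (r x)⁻¹ * (r x * d * (r x)⁻¹) * r x = d by group]
          exact hd
        have e1 : (r x)⁻¹ * (s * n) * r x = ((r x)⁻¹ * s * r x) * ((r x)⁻¹ * n * r x) := by group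
        change β ((r x)⁻¹ * (s * n) * r x) x + c (s * n) (r x) x0
            - c (r x) ((r x)⁻¹ * (s * n) * r x) x0
          = β ((r x)⁻¹ * s * r x) x + c s (r x) x0 - c (r x) ((r x)⁻¹ * s * r x) x0
        rw [e1, hbN _ (hD s hs) _ (hN2 Nb hNb n hn.1 _) (hD n hnH),
          hCl _ _ _ (hN2 Nc hNc n hn.2 _), hCr _ _ _ hn.2]
      · intro s hs hsD t ht htD
        have hsx : s • x0 = x0 := hs
        have hs' : ((r x)⁻¹ * s * r x) • x = x := by
          rw [mul_smul, hr, mul_smul, hsx, hgx]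
        have h1 := hC (r x) ((r x)⁻¹ * s * r x) ((r x)⁻¹ * t * r x) x0
        have h2 := hC s (r x) ((r x)⁻¹ * t * r x) x0
        have h3 := hC s t (r x) x0
        rw [hgx] at h1
        rw [hinv s x0 hsx] at h2 h3
        have h4 := congrFun (hβ _ hsD _ htD) x
        rw [Pi.sub_apply, Pi.add_apply, permP_a, hinv _ x hs'] at h4
        rw [show r x * ((r x)⁻¹ * s * r x) = s * r x by group,
          show (r x)⁻¹ * s * r x * ((r x)⁻¹ * t * r x) = (r x)⁻¹ * (s * t) * r x by group] at h1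
        rw [show r x * ((r x)⁻¹ * t * r x) = t * r x by group] at h2
        rw [show (r x)⁻¹ * s * r x * ((r x)⁻¹ * t * r x) = (r x)⁻¹ * (s * t) * r x by group] at h4
        change c s t x0 = (β ((r x)⁻¹ * s * r x) x + c s (r x) x0
            - c (r x) ((r x)⁻¹ * s * r x) x0)
          + (β ((r x)⁻¹ * t * r x) x + c t (r x) x0 - c (r x) ((r x)⁻¹ * t * r x) x0)
          - (β ((r x)⁻¹ * (s * t) * r x) x + c (s * t) (r x) x0
            - c (r x) ((r x)⁻¹ * (s * t) * r x) x0)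
        linear_combination h1 - h2 + h3 + h4
  obtain ⟨b, ⟨Nb, hNb, hbN⟩, hb⟩ := spl_of_x (l := l) hB hX (D := ⊤) (c := c)
    ⟨Nc, hNc, fun s _ t _ n hn _ m hm _ => hcN s t n hn m hm⟩
    (fun s _ t _ u _ x => hC s t u x)
    (fun x => ⟨r x, Subgroup.mem_top _, by rw [hr x, top_inf_eq]; exact hS⟩)
  refine ⟨b, ⟨Nb, hNb, fun s n hn => hbN s (Subgroup.mem_top _) n hn (Subgroup.mem_top _)⟩, ?_⟩
  intro s t
  funext x
  rw [Pi.sub_apply, Pi.add_apply, permP_a]
  exact hb s (Subgroup.mem_top _) t (Subgroup.mem_top _) x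

end Pool.Agent.SmL.F
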