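import Pool.Agent.Lib.SmL.F.SyP

/-!
# SMITH-L, arithmetic: the homomorphisms over `L`: components of cocycles, finiteness, Chebotarev

`lp_comp`, `homT_comp`: for a cocycle `c` of `G` with values in `X → ZMod l` the `x0`-component is a homomorphism on the
stabiliser `H` of `x0`, and `lp v x` of it is `(c (sgx) x, c (phx) x)` (`IsCoc.conj`). `sgx_eq`: `e = 1` if `sg v` fixes `x`.

`hom_zero`: a homomorphism `b` on `H` with `lp v x b = 0` for all `v ∉ T`, `x` (`T` finite) is zero. PROOF: let `N ∈ NN`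
be a level of `b` on `H`, acting trivially on `X`, and add to `T` the places with `sg v ∉ N`. Let `g ∈ H`. `Cheb1`:
`v ∉ T`, `h` with `h ph h⁻¹ = g n`, `n ∈ N`. Put `x = h⁻¹ x0`: `ph v` fixes `x`, `sg v` fixes `x`, so `e = 1`, `f = 1`,
`phx = sg^j ph`, and `r x phx (r x)⁻¹ = (r x h⁻¹) (h sg^j h⁻¹) (g n) (r x h⁻¹)⁻¹`, `r x h⁻¹ ∈ H`, `h sg^j h⁻¹ ∈ N`. So
`b g = b (r x phx (r x)⁻¹) = 0`.

`finL`: `HomT` for `T` is contained in `HomT` for `T ∪ T0`: `LGl.card`.
`injL`: let `T1` be such that `card` holds; for each of the finitely many `b ∈ A` (`A` for `T1`) which is not zero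
on `H` choose `(v, x)` with `lp v x b ≠ 0` (`hom_zero`); `T2 = T1 ∪` these `v` (for `lp v x b ≠ 0` at ONE `x` only: the
hypothesis of `injL` is for all `x`). If `T2 ⊆ T`, `b ∈ HomT T`, zero at `T`, then `b` is unramified outside of `T1`, so it
is some element of `A` on `H`, and it is zero at the chosen place.
-/

set_option autoImplicit false

open Finset

namespace Pool.Agent.SmL.F

open MulAction Pool.Agent.SmL.Ar

variable {l : ℕ} {G Pl : Type*} [Group G] {B : Bs G Pl} {X : Type*} [MulAction G X]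
  {E : Pl → X → ℕ × ℕ × ℕ} {x0 : X} {r : X → G}

theorem sgx_eq (hE : OrbE l B E) {v : Pl} {x : X} (hv : B.sg v • x = x) :
    sgx B E v x = B.sg v := by
  have h1 := (hE.efj v x).e_min 1 (by rw [zpow_one]; exact hv)
  have h2 : (E v x).1 = 1 := by
    have h3 : (E v x).1 ∣ 1 := by exact_mod_cast h1
    exact Nat.dvd_one.1 h3
  rw [sgx, h2, pow_one]

theorem lp_comp (hB : B.Ok l) (hE : OrbE l B E) (hr : ∀ x, r x • x = x0) {c : G → X → ZMod l}
    (hc : IsCoc ⊤ c) (v : Pl) (x : X) :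
    lp B E r v x (fun s => c s x0) = (c (sgx B E v x) x, c (phx B E v x) x) := by
  have h1 := hc.conj (g := r x) (Subgroup.mem_top _) (Subgroup.mem_top _)
    (sgx_mem hB hE v x).2
  have h2 := hc.conj (g := r x) (Subgroup.mem_top _) (Subgroup.mem_top _)
    (phx_mem hB hE v x).2
  rw [hr x] at h1 h2
  exact Prod.ext h1 h2

theorem lp_sh (hB : B.Ok l) (hE : OrbE l B E) (b : G → ZMod l) (v : Pl) (x : X) :
    (sh r b (sgx B E v x) x, sh r b (phx B E v x) x) = lp B E r v x b :=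
  Prod.ext (sh_self b (sgx_mem hB hE v x).2) (sh_self b (phx_mem hB hE v x).2)

private theorem Inj_conj {G X : Type*} [Group G] [MulAction G X] {r : X → G} {x0 x : X}
    (hr : ∀ x, r x • x = x0) {s : G} (hs : s • x = x) : r x * s * (r x)⁻¹ ∈ stabilizer G x0 := by
  rw [mem_stabilizer_iff, ← hr x, smul_smul, inv_mul_cancel_right, mul_smul, hs]

private theorem Inj_one {b : G → ZMod l} (hb : HomH B (stabilizer G x0) b) : b 1 = 0 := by
  have h := hb.2 1 (one_mem _) 1 (one_mem _)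
  rw [mul_one] at h
  have h2 : b 1 + 0 = b 1 + b 1 := by rw [add_zero]; exact h
  exact (add_left_cancel h2).symm

/-- A homomorphism on the stabiliser of `x0` is zero at `(v, x)` for all `x` iff it is for the
representatives of the orbits. -/
theorem lp_zero_iff [Finite X] (hB : B.Ok l) (hX : TrivX B X) (hE : OrbE l B E)
    (hr : ∀ x, r x • x = x0) {b : G → ZMod l} (hb : HomH B (stabilizer G x0) b) (v : Pl) :
    (∀ x, lp B E r v x b = 0) ↔
      ∀ o : orbitRel.Quotient (B.D v) X, lp B E r v o.out b = 0 := by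
  refine ⟨fun h o => h _, fun h x => ?_⟩
  have hc : IsCoc ⊤ (sh r b) := sh_coc hr hb.2
  obtain ⟨M, hM, h1⟩ := sh_tf hr hB hX hb.1
  obtain ⟨M', hM', h2⟩ := hX
  have hN := hB.inf_mem M hM M' hM'
  -- representative
  set o : orbitRel.Quotient (B.D v) X := Quotient.mk'' x with ho
  set y : X := o.out with hy
  have hyx : y ∈ orbit (B.D v) x := by
    have h3 : (Quotient.mk'' y : orbitRel.Quotient (B.D v) X) = o := Quotient.out_eq' o
    rw [ho] at h3
    exact (orbitRel_apply).1 (Quotient.exact' h3)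
  obtain ⟨d, hd⟩ := hyx
  have hd' : (d : G)⁻¹ • y = x := by
    rw [← hd]
    change (d : G)⁻¹ • ((d : G) • x) = x
    rw [inv_smul_smul]
  -- the component at `y` vanishes on `Dx v y`
  have hpy := h o
  rw [← lp_sh hB hE] at hpy
  have hs0 : sh r b (sgx B E v y) y = 0 := congrArg Prod.fst hpy
  have hp0 : sh r b (phx B E v y) y = 0 := congrArg Prod.snd hpy
  have hfix : ∀ s : G, s • y = y → ∀ t : G, sh r b (s * t) y = sh r b s y + sh r b t y := by
    intro s hs t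
    rw [hc s (Subgroup.mem_top _) t (Subgroup.mem_top _) y]
    congr 2
    rw [inv_smul_eq_iff, hs]
  have hpow : ∀ s : G, s • y = y → sh r b s y = 0 → ∀ n : ℕ, (s ^ n) • y = y ∧
      sh r b (s ^ n) y = 0 := by
    intro s hs h0 n
    induction n with
    | zero =>
      refine ⟨by rw [pow_zero, one_smul], ?_⟩
      rw [pow_zero, hc.one]
    | succ n ih =>
      refine ⟨by rw [pow_succ, mul_smul, hs, ih.1], ?_⟩
      rw [pow_succ, hfix _ ih.1, ih.2, h0, add_zero]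
  have hinv : ∀ s : G, s • y = y → sh r b s y = 0 → s⁻¹ • y = y ∧ sh r b s⁻¹ y = 0 := by
    intro s hs h0
    refine ⟨by rw [inv_smul_eq_iff, hs], ?_⟩
    rw [hc.inv (Subgroup.mem_top _), hs, h0, neg_zero]
  have hzpow : ∀ s : G, s • y = y → sh r b s y = 0 → ∀ n : ℤ, (s ^ n) • y = y ∧
      sh r b (s ^ n) y = 0 := by
    intro s hs h0 n
    obtain ⟨m, rfl | rfl⟩ := n.eq_nat_or_neg
    · rw [zpow_natCast]
      exact hpow s hs h0 m
    · rw [zpow_neg, zpow_natCast]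
      exact hinv _ (hpow s hs h0 m).1 (hpow s hs h0 m).2
  have hsy := sgx_mem hB hE v y
  have hpy' := phx_mem hB hE v y
  have hvan : ∀ s ∈ Dx B v y, sh r b s y = 0 := by
    intro s hs
    obtain ⟨a, k, hak⟩ := Efj.gen hB (hE.efj v y) hN (fun n hn x => h2 n hn.2 x) hs
    change ((sgx B E v y ^ a) * (phx B E v y ^ k))⁻¹ * s ∈ M ⊓ M' at hak
    obtain ⟨ha1, ha2⟩ := hzpow _ hsy.2 hs0 a
    obtain ⟨hk1, hk2⟩ := hpow _ hpy'.2 hp0 k
    have h3 := h1 ((sgx B E v y ^ a) * (phx B E v y ^ k)) _ hak.1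
    rw [mul_inv_cancel_left] at h3
    rw [h3, hfix _ ha1, ha2, hk2, add_zero]
  have hconj : ∀ s ∈ Dx B v x, sh r b s x = 0 := by
    intro s hs
    have h4 := hc.conj (g := (d : G)) (Subgroup.mem_top _) (Subgroup.mem_top _) hs.2
    rw [← h4]
    have hdx : (d : G) • x = y := hd
    rw [hdx]
    refine hvan _ ⟨(B.D v).mul_mem ((B.D v).mul_mem d.2 hs.1) ((B.D v).inv_mem d.2), ?_⟩
    change ((d : G) * s * (d : G)⁻¹) • y = y
    rw [mul_smul, mul_smul, hd', show s • x = x from hs.2, hdx]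
  rw [← lp_sh hB hE, hconj _ (sgx_mem hB hE v x), hconj _ (phx_mem hB hE v x)]
  rfl

theorem hom_zero [Finite X] (hB : B.Ok l) (hCh : B.Cheb1) (hX : TrivX B X) (hE : OrbE l B E)
    (hr : ∀ x, r x • x = x0) {b : G → ZMod l} (hb : HomH B (stabilizer G x0) b) (T : Finset Pl)
    (h : ∀ v, v ∉ T → ∀ x, lp B E r v x b = 0) : ∀ s ∈ stabilizer G x0, b s = 0 := by
  classical
  intro g hg
  obtain ⟨M, hM, h1⟩ := hb.1
  obtain ⟨M', hM', h2⟩ := hX
  have hN := hB.inf_mem M hM M' hM'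
  set N := M ⊓ M' with hNdef
  have hNn : N.Normal := hB.normal N hN
  have hNH : ∀ n ∈ N, n ∈ stabilizer G x0 := fun n hn => h2 n hn.2 x0
  have hbN : ∀ n ∈ N, b n = 0 := by
    intro n hn
    have h3 := h1 1 (one_mem _) n hn.1 (hNH n hn)
    rw [one_mul] at h3
    rw [h3, Inj_one hb]
  have hfin := hB.unr N hN
  obtain ⟨v, hvT, h0, hh0⟩ := hCh N hN g (T ∪ hfin.toFinset)
  rw [Finset.mem_union, not_or] at hvT
  have hsg : B.sg v ∈ N := by
    by_contra hc
    exact hvT.2 (hfin.mem_toFinset.2 hc)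
  set n := (h0 * B.ph v * h0⁻¹)⁻¹ * g with hn
  have hcn : h0 * B.ph v * h0⁻¹ = g * n⁻¹ := by
    rw [hn]
    group
  have hninv : n⁻¹ ∈ N := N.inv_mem hh0
  set x : X := h0⁻¹ • x0 with hx
  have hph : B.ph v • x = x := by
    have h3 : (h0 * B.ph v * h0⁻¹) • x0 = x0 := by
      rw [hcn, mul_smul, hNH _ hninv, hg]
    rw [mul_smul, mul_smul] at h3
    rw [hx, eq_inv_smul_iff]
    exact h3
  have hsgx : B.sg v • x = x := h2 _ hsg.2 x
  have hE' := hE.efj v x
  have he : sgx B E v x = B.sg v := sgx_eq hE hsgx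
  have hf : (E v x).2.1 = 1 := by
    have h3 := hE'.f_min 1 0 Nat.one_pos (by rw [zpow_zero, one_mul, pow_one]; exact hph)
    have h4 := hE'.f_pos
    omega
  have hphx : phx B E v x = B.sg v ^ (E v x).2.2 * B.ph v := by
    rw [phx, hf, pow_one]
  have hval : b (r x * phx B E v x * (r x)⁻¹) = 0 := congrArg Prod.snd (h v hvT.1 x)
  set u := r x * h0⁻¹ with hu
  have huH : u ∈ stabilizer G x0 := by
    rw [mem_stabilizer_iff, hu, mul_smul]
    exact hr x
  set m := h0 * B.sg v ^ (E v x).2.2 * h0⁻¹ with hm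
  have hmN : m ∈ N := hNn.conj_mem _ (N.pow_mem hsg _) h0
  have heq : r x * phx B E v x * (r x)⁻¹ = u * (m * (g * n⁻¹)) * u⁻¹ := by
    rw [hphx, ← hcn, hm, hu]
    group
  have h3 := hNH m hmN
  have h4 := hNH _ hninv
  have h5 : g * n⁻¹ ∈ stabilizer G x0 := (stabilizer G x0).mul_mem hg h4
  have h6 : m * (g * n⁻¹) ∈ stabilizer G x0 := (stabilizer G x0).mul_mem h3 h5
  have h7 : u⁻¹ ∈ stabilizer G x0 := (stabilizer G x0).inv_mem huH
  rw [heq, hb.2 _ ((stabilizer G x0).mul_mem huH h6) _ h7, hb.2 _ huH _ h6, hb.2 _ h3 _ h5,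
    hb.2 _ hg _ h4, hbN _ hmN, hbN _ hninv, zero_add, add_zero] at hval
  have h8 := hb.2 _ huH _ h7
  rw [mul_inv_cancel, Inj_one hb] at h8
  have h9 : b u + b g + b u⁻¹ = b g + (b u + b u⁻¹) := by ring
  rw [h9, ← h8, add_zero] at hval
  exact hval

theorem finL (hL : LGl l B E x0 r) (T : Finset Pl) : ∃ A : Finset (G → ZMod l), ∀ b : G → ZMod l,
    HomT B E x0 r T b → ∃ b' ∈ A, ∀ s ∈ stabilizer G x0, b s = b' s := by
  classical
  obtain ⟨T0, h0⟩ := hL.card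
  obtain ⟨A, -, -, hA⟩ := h0 (T ∪ T0) Finset.subset_union_right
  refine ⟨A, fun b hb => ?_⟩
  obtain ⟨b', ⟨h1, h2⟩, -⟩ := hA b ⟨hb.1, fun v hv x => hb.2 v (fun hv' => hv
    (Finset.mem_union_left _ hv')) x⟩
  exact ⟨b', h1, h2⟩

theorem injL [Finite X] (hB : B.Ok l) (hCh : B.Cheb1) (hX : TrivX B X) (hE : OrbE l B E)
    (hr : ∀ x, r x • x = x0) (hL : LGl l B E x0 r) :
    ∃ T0 : Finset Pl, ∀ T, T0 ⊆ T → ∀ b : G → ZMod l, HomT B E x0 r T b →
      (∀ v ∈ T, ∀ x, lp B E r v x b = 0) → ∀ s ∈ stabilizer G x0, b s = 0 := by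
  classical
  obtain ⟨T1, h0⟩ := hL.card
  obtain ⟨A, -, hA1, hA2⟩ := h0 T1 (Finset.Subset.refl _)
  have hch : ∀ b' : G → ZMod l, ∃ U : Finset Pl, b' ∈ A →
      (∃ s ∈ stabilizer G x0, b' s ≠ 0) → ∃ v ∈ U, ∃ x, lp B E r v x b' ≠ 0 := by
    intro b'
    by_cases hb' : b' ∈ A ∧ ∃ s ∈ stabilizer G x0, b' s ≠ 0
    · have h1 : ∃ v, ∃ x, lp B E r v x b' ≠ 0 := by
        by_contra hcon
        push Not at hcon
        obtain ⟨s, hs, hs0⟩ := hb'.2
        exact hs0 (hom_zero hB hCh hX hE hr (hA1 b' hb'.1).1 ∅ (fun v _ x => hcon v x) s hs)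
      obtain ⟨v, x, hvx⟩ := h1
      exact ⟨{v}, fun _ _ => ⟨v, Finset.mem_singleton_self v, x, hvx⟩⟩
    · exact ⟨∅, fun h1 h2 => absurd ⟨h1, h2⟩ hb'⟩
  choose U hU using hch
  refine ⟨T1 ∪ A.biUnion U, fun T hT b hb hz => ?_⟩
  have hbT1 : HomT B E x0 r T1 b := by
    refine ⟨hb.1, fun v hv x => ?_⟩
    by_cases hvT : v ∈ T
    · rw [hz v hvT x]
      rfl
    · exact hb.2 v hvT x
  obtain ⟨b', ⟨hb'A, hbb'⟩, -⟩ := hA2 b hbT1
  by_contra hcon
  push Not at hcon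
  obtain ⟨s, hs, hs0⟩ := hcon
  obtain ⟨v, hv, x, hvx⟩ := hU b' hb'A ⟨s, hs, by rw [← hbb' s hs]; exact hs0⟩
  have hvT : v ∈ T := hT (Finset.mem_union_right _ (Finset.mem_biUnion.2 ⟨b', hb'A, hv⟩))
  refine hvx ?_
  rw [← hz v hvT x]
  exact Prod.ext (hbb' _ (Inj_conj hr (sgx_mem hB hE v x).2)).symm
    (hbb' _ (Inj_conj hr (phx_mem hB hE v x).2)).symm

end Pool.Agent.SmL.F
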