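import Pool.Agent.Lib.SmL.F.Inj

/-!
# SMITH-L, arithmetic: reciprocity and duality over `L`

`recL`: for `b, b' ∈ HomT T`, `T` containing the places with `sg v` not trivial on `X`: `c = sh r b`, `d = sh r b'` are
cocycles of `G` (`sh_coc`, `sh_tf`); `(s, t) ↦ ∑_x c s x * d t (s⁻¹ x)` is a 2-cocycle of `G` with values in `ZMod l`, `Rec2`
and `inv_sy` give `∑ᶠ_v sy v (loc c) (loc d) = 0`; `sy_orb`, `lp_sh`. For `v ∉ T` the local term is `0`: both are
unramified (`sym a b = 0` if `a.1 = b.1 = 0`).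

`lagL`: PORT of `GBU/Lag.lean` (`locForm`, `locForm_nondeg`, `mem_of_orth`, `lag`): `W = (Σ v : T, orbits) → F_l × F_l` with the
form `∑ sym`, which is nondegenerate and alternating; `Λ` = image of `HomT T`, isotropic by `recL`, of cardinality
`l ^ (number of v, o)` by `LGl.card`, and `injL`: half of the dimension, so `Λ` is its own orthogonal complement.
-/

set_option autoImplicit false

open Finset

namespace Pool.Agent.SmL.F

open MulAction Pool.Agent.SmL.Ar

variable {l : ℕ} {G Pl : Type*} [Group G] {B : Bs G Pl} {X : Type*} [MulAction G X] [Fintype X]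
  {E : Pl → X → ℕ × ℕ × ℕ} {x0 : X} {r : X → G}

/-- The Shapiro lift as a cocycle with values in the permutation module. -/
private theorem LagL_z1 (hB : B.Ok l) (hX : TrivX B X) (hr : ∀ x, r x • x = x0)
    {b : G → ZMod l} (hb : HomH B (stabilizer G x0) b) :
    Z1 B (permP l G X).a (sh r b) := by
  refine ⟨sh_tf hr hB hX hb.1, fun s t => ?_⟩
  funext x
  rw [Pi.add_apply, permP_a]
  exact sh_coc hr hb.2 s (Subgroup.mem_top s) t (Subgroup.mem_top t) x

private theorem LagL_inv (s : G) (f f' : X → ZMod l) :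
    (permP l G X).e ((permP l G X).a s f) ((permP l G X).a' s f') = (permP l G X).e f f' := by
  rw [permP_e, permP_e]
  simp only [permP_a, permP_a']
  exact Equiv.sum_comp (MulAction.toPerm s⁻¹) (fun x => f x * f' x)

theorem recL (hB : B.Ok l) (hR : B.Rec2 l) (hX : TrivX B X) (hE : OrbE l B E)
    (hr : ∀ x, r x • x = x0) {T : Finset Pl} {b b' : G → ZMod l} (hb : HomT B E x0 r T b)
    (hb' : HomT B E x0 r T b') :
    ∑ v ∈ T, ∑ᶠ o : orbitRel.Quotient (B.D v) X,
      sym (lp B E r v o.out b) (lp B E r v o.out b') = 0 := by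
  have hc := LagL_z1 hB hX hr hb.1
  have hd := LagL_z1 hB hX hr hb'.1
  have hd' : ∀ s t, sh r b' (s * t) = sh r b' s + (permP l G X).a' s (sh r b' t) := hd.2
  obtain ⟨h1, h2⟩ := hR (fun s t => (permP l G X).e (sh r b s)
    ((permP l G X).a' s (sh r b' t))) (by
      obtain ⟨N1, hN1, hc1⟩ := hc.1
      obtain ⟨N2, hN2, hd1⟩ := hd.1
      obtain ⟨N3, hN3, hx⟩ := hX
      refine ⟨N1 ⊓ N2 ⊓ N3, hB.inf_mem _ (hB.inf_mem _ hN1 _ hN2) _ hN3,
        fun s t n hn m hm => ?_⟩
      have h3 : (permP l G X).a' (s * n) (sh r b' t) = (permP l G X).a' s (sh r b' t) := by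
        funext x
        rw [permP_a', permP_a', mul_inv_rev, mul_smul, hx _ (N3.inv_mem hn.2)]
      beta_reduce
      rw [hc1 s n hn.1.1, hd1 t m hm.1.2, h3]) (by
      intro s t w
      rw [hc.2 s t, hd' t w, map_add, map_add, map_add, LinearMap.add_apply, map_mul,
        LinearEquiv.mul_apply, LagL_inv]
      ring)
  have h3 : ∀ v, B.inv v (fun s t => (permP l G X).e (sh r b s)
      ((permP l G X).a' s (sh r b' t))) =
      ∑ᶠ o : orbitRel.Quotient (B.D v) X, sym (lp B E r v o.out b) (lp B E r v o.out b') := by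
    intro v
    rw [← sy_inv hB v (hc.on v) (sh r b'), sy_orb hB hX hE v (hc.on v) (hd.on v)]
    exact finsum_congr fun o => by rw [lp_sh hB hE, lp_sh hB hE]
  simp only [h3] at h2
  rw [← h2]
  refine (finsum_eq_sum_of_support_subset _ fun v hv => ?_).symm
  by_contra hvT
  have hvT' : v ∉ T := fun h => hvT (mem_coe.2 h)
  apply hv
  refine (finsum_congr fun o => ?_).trans finsum_zero
  unfold sym
  rw [hb.2 v hvT' o.out, hb'.2 v hvT' o.out, mul_zero, zero_mul, sub_zero]

/-! ### The local space -/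

private theorem LagL_sym_add (x x' y : ZMod l × ZMod l) : sym (x + x') y = sym x y + sym x' y := by
  simp only [sym, Prod.fst_add, Prod.snd_add]
  ring

private theorem LagL_sym_neg (x y : ZMod l × ZMod l) : sym y x = -sym x y := by
  unfold sym
  ring

/-- The form on the local space. -/
private def LagL_form (l : ℕ) (ι : Type*) [Fintype ι] :
    LinearMap.BilinForm (ZMod l) (ι → ZMod l × ZMod l) :=
  LinearMap.mk₂ (ZMod l) (fun x y => ∑ i, sym (x i) (y i))
    (fun x x' y => by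
      rw [← sum_add_distrib]
      refine sum_congr rfl fun i _ => ?_
      simp only [sym, Pi.add_apply, Prod.fst_add, Prod.snd_add]
      ring)
    (fun c x y => by
      rw [smul_eq_mul, mul_sum]
      refine sum_congr rfl fun i _ => ?_
      simp only [sym, Pi.smul_apply, Prod.smul_fst, Prod.smul_snd, smul_eq_mul]
      ring)
    (fun x y y' => by
      rw [← sum_add_distrib]
      refine sum_congr rfl fun i _ => ?_
      simp only [sym, Pi.add_apply, Prod.fst_add, Prod.snd_add]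
      ring)
    (fun c x y => by
      rw [smul_eq_mul, mul_sum]
      refine sum_congr rfl fun i _ => ?_
      simp only [sym, Pi.smul_apply, Prod.smul_fst, Prod.smul_snd, smul_eq_mul]
      ring)

private theorem LagL_form_apply {ι : Type*} [Fintype ι] (x y : ι → ZMod l × ZMod l) :
    LagL_form l ι x y = ∑ i, sym (x i) (y i) := rfl

private theorem LagL_form_neg {ι : Type*} [Fintype ι] (x y : ι → ZMod l × ZMod l) :
    LagL_form l ι y x = -LagL_form l ι x y := by
  rw [LagL_form_apply, LagL_form_apply, ← sum_neg_distrib]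
  exact sum_congr rfl fun i _ => LagL_sym_neg _ _

private theorem LagL_form_nondeg {ι : Type*} [Fintype ι] : (LagL_form l ι).Nondegenerate := by
  classical
  have h1 : ∀ x : ι → ZMod l × ZMod l, (∀ y, LagL_form l ι x y = 0) → x = 0 := by
    intro x hx
    ext1 i
    have key : ∀ z : ZMod l × ZMod l, sym (x i) z = 0 := by
      intro z
      have h3 := hx (Pi.single i z)
      rw [LagL_form_apply, sum_eq_single i] at h3
      · rw [Pi.single_eq_same] at h3
        exact h3
      · intro j _ hj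
        rw [Pi.single_eq_of_ne hj]
        simp [sym]
      · intro h
        exact absurd (mem_univ i) h
    have k1 := key (1, 0)
    have k2 := key (0, 1)
    unfold sym at k1 k2
    simp only [mul_zero, mul_one, sub_zero, zero_sub, neg_eq_zero] at k1 k2
    exact Prod.ext k2 k1
  refine ⟨h1, fun y hy => h1 y fun x => ?_⟩
  rw [LagL_form_neg, hy x, neg_zero]

/-- A subspace of half dimension on which the form is zero is its own orthogonal complement. -/
private theorem LagL_mem [Fact l.Prime] {ι : Type*} [Fintype ι]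
    (Λ : Submodule (ZMod l) (ι → ZMod l × ZMod l))
    (hdim : Module.finrank (ZMod l) Λ = Fintype.card ι)
    (hiso : ∀ x ∈ Λ, ∀ y ∈ Λ, LagL_form l ι x y = 0) (ξ : ι → ZMod l × ZMod l)
    (h : ∀ y ∈ Λ, LagL_form l ι ξ y = 0) : ξ ∈ Λ := by
  have hle : Λ ≤ (LagL_form l ι).orthogonal Λ := by
    intro y hy
    rw [LinearMap.BilinForm.mem_orthogonal_iff]
    intro x hx
    exact hiso x hx y hy
  have hfr := LinearMap.BilinForm.finrank_orthogonal (LagL_form_nondeg (l := l) (ι := ι)) Λ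
  have hV : Module.finrank (ZMod l) (ι → ZMod l × ZMod l) = 2 * Fintype.card ι := by
    rw [Module.finrank_pi_fintype]
    simp only [Module.finrank_prod, Module.finrank_self, sum_const, card_univ, smul_eq_mul]
    ring
  have heq : Λ = (LagL_form l ι).orthogonal Λ := by
    apply Submodule.eq_of_le_of_finrank_eq hle
    rw [hfr, hV, hdim]
    omega
  rw [heq, LinearMap.BilinForm.mem_orthogonal_iff]
  intro x hx
  have h3 := h x hx
  change LagL_form l ι x ξ = 0
  rw [LagL_form_neg, h3, neg_zero]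

/-! ### The image of the homomorphisms -/

omit [MulAction G X] [Fintype X] in
private theorem LagL_lp_add (v : Pl) (x : X) (b b' : G → ZMod l) :
    lp B E r v x (fun s => b s + b' s) = lp B E r v x b + lp B E r v x b' := rfl

omit [MulAction G X] [Fintype X] in
private theorem LagL_lp_smul (v : Pl) (x : X) (z : ZMod l) (b : G → ZMod l) :
    lp B E r v x (fun s => z * b s) = z • lp B E r v x b := rfl

omit [MulAction G X] [Fintype X] in
private theorem LagL_lp_sub (v : Pl) (x : X) (b b' : G → ZMod l) :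
    lp B E r v x (fun s => b s - b' s) = lp B E r v x b - lp B E r v x b' := rfl

private theorem LagL_tf {H : Subgroup G} (hB : B.Ok l) {b b' : G → ZMod l}
    (F : ZMod l → ZMod l → ZMod l) (hb : B.TFOn H b) (hb' : B.TFOn H b') :
    B.TFOn H (fun s => F (b s) (b' s)) := by
  obtain ⟨M, hM, h1⟩ := hb
  obtain ⟨M', hM', h2⟩ := hb'
  refine ⟨M ⊓ M', hB.inf_mem M hM M' hM', fun s hs n hn hnD => ?_⟩
  beta_reduce
  rw [h1 s hs n hn.1 hnD, h2 s hs n hn.2 hnD]

omit [Fintype X] in
private theorem LagL_add (hB : B.Ok l) {T : Finset Pl} {b b' : G → ZMod l}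
    (hb : HomT B E x0 r T b) (hb' : HomT B E x0 r T b') :
    HomT B E x0 r T (fun s => b s + b' s) := by
  refine ⟨⟨LagL_tf hB (fun x y => x + y) hb.1.1 hb'.1.1, fun s hs t ht => ?_⟩,
    fun v hv x => ?_⟩
  · beta_reduce
    rw [hb.1.2 s hs t ht, hb'.1.2 s hs t ht]
    ring
  · rw [LagL_lp_add, Prod.fst_add, hb.2 v hv x, hb'.2 v hv x, add_zero]

omit [Fintype X] in
private theorem LagL_sub (hB : B.Ok l) {T : Finset Pl} {b b' : G → ZMod l}
    (hb : HomT B E x0 r T b) (hb' : HomT B E x0 r T b') :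
    HomT B E x0 r T (fun s => b s - b' s) := by
  refine ⟨⟨LagL_tf hB (fun x y => x - y) hb.1.1 hb'.1.1, fun s hs t ht => ?_⟩,
    fun v hv x => ?_⟩
  · beta_reduce
    rw [hb.1.2 s hs t ht, hb'.1.2 s hs t ht]
    ring
  · rw [LagL_lp_sub, Prod.fst_sub, hb.2 v hv x, hb'.2 v hv x, sub_zero]

omit [Fintype X] in
private theorem LagL_smul (hB : B.Ok l) {T : Finset Pl} (z : ZMod l) {b : G → ZMod l}
    (hb : HomT B E x0 r T b) : HomT B E x0 r T (fun s => z * b s) := by
  refine ⟨⟨LagL_tf hB (fun x _ => z * x) hb.1.1 hb.1.1, fun s hs t ht => ?_⟩,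
    fun v hv x => ?_⟩
  · beta_reduce
    rw [hb.1.2 s hs t ht]
    ring
  · rw [LagL_lp_smul, Prod.smul_fst, hb.2 v hv x, smul_zero]

omit [Fintype X] in
private theorem LagL_zero (hB : B.Ok l) (T : Finset Pl) :
    HomT B E x0 r T (fun _ => (0 : ZMod l)) :=
  ⟨⟨⟨⊤, hB.top_mem, fun _ _ _ _ _ => rfl⟩, fun _ _ _ _ => (add_zero _).symm⟩, fun _ _ _ => rfl⟩

/-- The image of `HomT`. -/
private def LagL_im (hB : B.Ok l) (E : Pl → X → ℕ × ℕ × ℕ) (x0 : X) (r : X → G) (T : Finset Pl) :
    Submodule (ZMod l) ((Σ v : T, orbitRel.Quotient (B.D v.1) X) → ZMod l × ZMod l) where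
  carrier := {y | ∃ b : G → ZMod l, HomT B E x0 r T b ∧ ∀ i, lp B E r i.1.1 i.2.out b = y i}
  add_mem' := by
    rintro y y' ⟨b, hb, h⟩ ⟨b', hb', h'⟩
    refine ⟨_, LagL_add hB hb hb', fun i => ?_⟩
    rw [LagL_lp_add, h i, h' i]
    rfl
  zero_mem' := ⟨_, LagL_zero hB T, fun _ => rfl⟩
  smul_mem' := by
    rintro z y ⟨b, hb, h⟩
    refine ⟨_, LagL_smul hB z hb, fun i => ?_⟩
    rw [LagL_lp_smul, h i]
    rfl

omit [Fintype X] in
private theorem LagL_im_mem (hB : B.Ok l) {T : Finset Pl}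
    {y : (Σ v : T, orbitRel.Quotient (B.D v.1) X) → ZMod l × ZMod l} :
    y ∈ LagL_im hB E x0 r T ↔
      ∃ b : G → ZMod l, HomT B E x0 r T b ∧ ∀ i, lp B E r i.1.1 i.2.out b = y i := Iff.rfl

omit [Fintype X] in
/-- The values depend only on the restriction to the stabiliser. -/
private theorem LagL_congr (hE : OrbE l B E) (hr : ∀ x, r x • x = x0) {b b' : G → ZMod l}
    (h : ∀ s ∈ stabilizer G x0, b s = b' s) (v : Pl) (x : X) :
    lp B E r v x b = lp B E r v x b' := by
  have key : ∀ g : G, g • x = x → r x * g * (r x)⁻¹ ∈ stabilizer G x0 := by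
    intro g hg
    rw [mem_stabilizer_iff]
    have h1 : (r x)⁻¹ • x0 = x := by rw [← hr x, inv_smul_smul]
    rw [mul_smul, mul_smul, h1, hg, hr x]
  exact congrArg₂ Prod.mk (h _ (key (sgx B E v x) (hE.efj v x).sg_fix))
    (h _ (key (phx B E v x) (hE.efj v x).ph_fix))

theorem lagL (hB : B.Ok l) (hR : B.Rec2 l) (hCh : B.Cheb1) (hX : TrivX B X) (hE : OrbE l B E)
    (hr : ∀ x, r x • x = x0) (hL : LGl l B E x0 r) :
    ∃ T0 : Finset Pl, ∀ T, T0 ⊆ T →
      ∀ xi : ∀ v : Pl, orbitRel.Quotient (B.D v) X → ZMod l × ZMod l,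
      (∀ b : G → ZMod l, HomT B E x0 r T b →
        ∑ v ∈ T, ∑ᶠ o : orbitRel.Quotient (B.D v) X, sym (xi v o) (lp B E r v o.out b) = 0) →
      ∃ b : G → ZMod l, HomT B E x0 r T b ∧
        ∀ v ∈ T, ∀ o : orbitRel.Quotient (B.D v) X, lp B E r v o.out b = xi v o := by
  classical
  have : Fact l.Prime := ⟨hB.prime⟩
  obtain ⟨T1, hT1⟩ := hL.card
  obtain ⟨T2, hT2⟩ := injL hB hCh hX hE hr hL
  refine ⟨T1 ∪ T2, fun T hT xi hxi => ?_⟩
  obtain ⟨A, hAc, hA, hA2⟩ := hT1 T (subset_union_left.trans hT)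
  have hinj := hT2 T (subset_union_right.trans hT)
  have : ∀ v : Pl, Fintype (orbitRel.Quotient (B.D v) X) := fun v => Fintype.ofFinite _
  obtain ⟨Λ, hΛ⟩ : ∃ Λ, Λ = LagL_im (l := l) hB E x0 r T := ⟨_, rfl⟩
  have hmem : ∀ y : (Σ v : T, orbitRel.Quotient (B.D v.1) X) → ZMod l × ZMod l, y ∈ Λ ↔
      ∃ b : G → ZMod l, HomT B E x0 r T b ∧ ∀ i, lp B E r i.1.1 i.2.out b = y i := by
    intro y
    rw [hΛ, LagL_im_mem]
  have hsum : ∀ f : ∀ v : Pl, orbitRel.Quotient (B.D v) X → ZMod l,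
      ∑ i : Σ v : T, orbitRel.Quotient (B.D v.1) X, f i.1.1 i.2 =
        ∑ v ∈ T, ∑ᶠ o : orbitRel.Quotient (B.D v) X, f v o := by
    intro f
    rw [Fintype.sum_sigma, ← sum_coe_sort T (fun v => ∑ᶠ o, f v o)]
    exact sum_congr rfl fun v _ => (finsum_eq_sum_of_fintype _).symm
  have hcard : Nat.card Λ = l ^ Fintype.card (Σ v : T, orbitRel.Quotient (B.D v.1) X) := by
    have h1 : Fintype.card (Σ v : T, orbitRel.Quotient (B.D v.1) X) =
        ∑ v ∈ T, Nat.card (orbitRel.Quotient (B.D v) X) := by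
      rw [Fintype.card_sigma, ← sum_coe_sort T (fun v => Nat.card (orbitRel.Quotient (B.D v) X))]
      exact sum_congr rfl fun v _ => Nat.card_eq_fintype_card.symm
    rw [h1, ← hAc]
    have h4 : Nat.card A = A.card := by rw [Nat.card_eq_fintype_card, Fintype.card_coe]
    rw [← h4]
    refine (Nat.card_eq_of_bijective (fun b : A => (⟨fun i => lp B E r i.1.1 i.2.out b.1,
      (hmem _).2 ⟨b.1, hA b.1 b.2, fun _ => rfl⟩⟩ : Λ)) ⟨?_, ?_⟩).symm
    · rintro ⟨b, hb⟩ ⟨b', hb'⟩ h5
      have h6 : ∀ i : Σ v : T, orbitRel.Quotient (B.D v.1) X,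
          lp B E r i.1.1 i.2.out b = lp B E r i.1.1 i.2.out b' :=
        fun i => congrFun (congrArg Subtype.val h5) i
      have h7 := LagL_sub hB (hA b hb) (hA b' hb')
      have h8 := hinj _ h7 (fun v hv => (lp_zero_iff hB hX hE hr h7.1 v).2 fun o => by
        rw [LagL_lp_sub, h6 ⟨⟨v, hv⟩, o⟩, sub_self])
      obtain ⟨b'', -, h9⟩ := hA2 b (hA b hb)
      have h10 : b = b'' := h9 b ⟨hb, fun _ _ => rfl⟩
      have h11 : b' = b'' := h9 b' ⟨hb', fun s hs => sub_eq_zero.1 (h8 s hs)⟩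
      exact Subtype.ext (h10.trans h11.symm)
    · rintro ⟨y, hy⟩
      obtain ⟨b, hb, h5⟩ := (hmem y).1 hy
      obtain ⟨b', ⟨hb', h6⟩, -⟩ := hA2 b hb
      refine ⟨⟨b', hb'⟩, Subtype.ext (funext fun i => ?_)⟩
      exact (LagL_congr hE hr h6 _ _).symm.trans (h5 i)
  have hdim : Module.finrank (ZMod l) Λ =
      Fintype.card (Σ v : T, orbitRel.Quotient (B.D v.1) X) := by
    have h3 : Nat.card Λ = Nat.card (ZMod l) ^ Module.finrank (ZMod l) Λ :=
      Module.natCard_eq_pow_finrank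
    rw [hcard, Nat.card_zmod] at h3
    exact (Nat.pow_right_injective hB.prime.two_le h3).symm
  have hfin := LagL_mem Λ hdim ?_ (fun i => xi i.1.1 i.2) ?_
  · obtain ⟨b, hb, h3⟩ := (hmem _).1 hfin
    exact ⟨b, hb, fun v hv o => h3 ⟨⟨v, hv⟩, o⟩⟩
  · intro x hx' y hy'
    obtain ⟨b, hb, hx⟩ := (hmem x).1 hx'
    obtain ⟨b', hb', hy⟩ := (hmem y).1 hy'
    rw [LagL_form_apply]
    have h3 := recL hB hR hX hE hr hb hb'
    rw [← hsum] at h3
    rw [← h3]
    exact sum_congr rfl fun i _ => by rw [hx i, hy i]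
  · intro y hy'
    obtain ⟨b, hb, hy⟩ := (hmem y).1 hy'
    rw [LagL_form_apply]
    have h3 := hxi b hb
    rw [← hsum (fun v o => sym (xi v o) (lp B E r v o.out b))] at h3
    rw [← h3]
    exact sum_congr rfl fun i _ => by rw [hy i]

end Pool.Agent.SmL.F
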