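import Pool.Agent.Lib.SmL.F.Defs
import Pool.Agent.Lib.SmL.Ar.Inv
import Pool.Agent.Lib.SmN.F.OrbL

/-!
# SMITH-L, arithmetic: the orbit formula

PORT of `SmN/Loc/Orb.lean` (`exists_efj`), `SmN/Loc/Ext.lean` (`inv_stab`), `SmN/F/OrbL.lean` (`exists_efj_orbit`,
`Efj.gen`, `orb_inv`) from `ZMod 2` to `ZMod l`, `q` odd replaced by `(q : ZMod l) = 1`. In `exists_efj` replace
`w : R → ZMod 2` by `w : R → ZMod l`.

`linv_stab`: in the extension of `Q` by `A = (Y → ZMod l)` defined by `c` put `σ̂ = (0, σ)`, `φ̂ = (0, φ)`;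
`φ̂ σ̂ φ̂⁻¹ = R σ̂^q` with `R y = linv σ φ q (c · · y)`; so `φ̂ σ̂^m φ̂⁻¹ = (∑_{i < m} σ^{q i} R) σ̂^{q m}`; as `σ^e` acts trivially and
`q = 1` in `ZMod l`, `φ̂^f σ̂^e φ̂^{-f} = (∑_{i < f} φ^i ∑_{m < e} σ^{q m} R) σ̂^{q^f e}`. Conjugate by `σ̂^j` and take the
component at `x`: the component map `Y → ZMod l` at `x` is a homomorphism of the extension of the
stabiliser to its extension by `ZMod l` defined by `c · · x`, in which `σ̂^e`, `σ̂^j φ̂^f` are lifts of `σ^e`, `σ^j φ^f`, and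
the invariant does not depend on the lifts (`1 - q^f = 0`). (The `SmN` proof by explicit formulas also
works.) Instead of a group structure on `A × Q` with an unnormalised cocycle one can use the
permutations `(g, t) ↦ (f + s g + c(s, t), s t)` of `A × Q`.
-/

set_option autoImplicit false

open Finset

namespace Pool.Agent.SmL.F

open MulAction Pool.Agent.SmL.Ar


/-! ### The extension by the functions on `Y` -/

namespace OrbAux

section shift

variable {l : ℕ} {H R : Type*} [Group H] [MulAction H R]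

/-- The action on functions. -/
def sh (s : H) (a : R → ZMod l) : R → ZMod l := fun r => a (s⁻¹ • r)

theorem sh_add (s : H) (a b : R → ZMod l) : sh s (a + b) = sh s a + sh s b := rfl

theorem sh_mul (s t : H) (a : R → ZMod l) : sh (s * t) a = sh s (sh t a) := by
  funext r
  simp only [sh, mul_inv_rev, mul_smul]

theorem sh_one (a : R → ZMod l) : sh (1 : H) a = a := by
  funext r
  simp [sh]

theorem sh_sum {ι : Type*} (s : H) (J : Finset ι) (a : ι → R → ZMod l) :
    sh s (∑ i ∈ J, a i) = ∑ i ∈ J, sh s (a i) := by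
  funext r
  simp only [sh, Finset.sum_apply]

/-- 2-cocycles with values in the functions on `R`. -/
def Coc2F (B : H → H → R → ZMod l) : Prop :=
  ∀ s t u, B s t + B (s * t) u = sh s (B t u) + B s (t * u)

/-- Translation. -/
def tau (H : Type*) (a : R → ZMod l) : Equiv.Perm ((R → ZMod l) × H) where
  toFun x := (x.1 + a, x.2)
  invFun x := (x.1 - a, x.2)
  left_inv x := by
    ext1
    · exact add_sub_cancel_right _ _
    · rfl
  right_inv x := by
    ext1
    · exact sub_add_cancel _ _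
    · rfl

/-- The operator attached to `s`. -/
def TT (B : H → H → R → ZMod l) (s : H) : Equiv.Perm ((R → ZMod l) × H) where
  toFun x := (sh s x.1 + B s x.2, s * x.2)
  invFun x := (sh s⁻¹ (x.1 - B s (s⁻¹ * x.2)), s⁻¹ * x.2)
  left_inv x := by
    ext1
    · change sh s⁻¹ (sh s x.1 + B s x.2 - B s (s⁻¹ * (s * x.2))) = x.1
      rw [inv_mul_cancel_left, add_sub_cancel_right, ← sh_mul, inv_mul_cancel, sh_one]
    · exact inv_mul_cancel_left _ _
  right_inv x := by
    ext1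
    · change sh s (sh s⁻¹ (x.1 - B s (s⁻¹ * x.2))) + B s (s⁻¹ * x.2) = x.1
      rw [← sh_mul, mul_inv_cancel, sh_one, sub_add_cancel]
    · exact mul_inv_cancel_left _ _

theorem tau_apply (a : R → ZMod l) (x : (R → ZMod l) × H) : tau H a x = (x.1 + a, x.2) := rfl

theorem TT_apply (B : H → H → R → ZMod l) (s : H) (x : (R → ZMod l) × H) :
    TT B s x = (sh s x.1 + B s x.2, s * x.2) := rfl

theorem tau_mul (a b : R → ZMod l) : tau H a * tau H b = tau H (a + b) := by
  ext1 x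
  rw [Equiv.Perm.mul_apply, tau_apply, tau_apply, tau_apply]
  ext1
  · change x.1 + b + a = x.1 + (a + b)
    abel
  · rfl

theorem tau_zero : tau H (0 : R → ZMod l) = 1 := by
  ext1 x
  rw [tau_apply, add_zero]
  rfl

theorem tau_inj {a b : R → ZMod l} (h : tau H a = tau H b) : a = b := by
  have h1 := congrArg (fun f : Equiv.Perm ((R → ZMod l) × H) => (f (0, 1)).1) h
  simpa [tau_apply] using h1

variable {B : H → H → R → ZMod l}

theorem TT_tau (s : H) (a : R → ZMod l) : TT B s * tau H a = tau H (sh s a) * TT B s := by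
  ext1 x
  rw [Equiv.Perm.mul_apply, Equiv.Perm.mul_apply, tau_apply, TT_apply, TT_apply, tau_apply]
  ext1
  · change sh s (x.1 + a) + B s x.2 = sh s x.1 + B s x.2 + sh s a
    rw [sh_add]
    abel
  · rfl

theorem TT_mul (hB : Coc2F B) (s t : H) : TT B s * TT B t = tau H (B s t) * TT B (s * t) := by
  ext1 x
  rw [Equiv.Perm.mul_apply, Equiv.Perm.mul_apply, TT_apply, TT_apply, TT_apply, tau_apply]
  ext1
  · change sh s (sh t x.1 + B t x.2) + B s (t * x.2) = sh (s * t) x.1 + B (s * t) x.2 + B s t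
    rw [sh_add, add_assoc, ← hB s t x.2, sh_mul]
    abel
  · exact (mul_assoc s t x.2).symm

theorem TT_pow_tau (s : H) (n : ℕ) (a : R → ZMod l) :
    TT B s ^ n * tau H a = tau H (sh (s ^ n) a) * TT B s ^ n := by
  induction n with
  | zero => simp [sh_one]
  | succ n ih =>
    rw [pow_succ', mul_assoc, ih, ← mul_assoc, TT_tau, mul_assoc, ← sh_mul, ← pow_succ',
      ← pow_succ']

theorem TT_pow (hB : Coc2F B) (s : H) (n : ℕ) :
    TT B s ^ (n + 1) = tau H (∑ i ∈ Ico 1 (n + 1), B (s ^ i) s) * TT B (s ^ (n + 1)) := by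
  induction n with
  | zero => simp [tau_zero]
  | succ n ih =>
    rw [pow_succ, ih, mul_assoc, TT_mul hB, ← mul_assoc, tau_mul, ← pow_succ,
      sum_Ico_succ_top (by omega : 1 ≤ n + 1)]

/-- The invariant with values in the functions on `R`. -/
def linvV (sg ph : H) (q : ℕ) (B : H → H → R → ZMod l) (r : R) : ZMod l :=
  linv sg ph q (fun s t => B s t r)

theorem linvV_eq (sg ph : H) (q : ℕ) :
    linvV sg ph q B = B ph sg - B (sg ^ q) ph - ∑ i ∈ Ico 1 q, B (sg ^ i) sg := by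
  funext r
  simp only [linvV, linv, Pi.sub_apply, Finset.sum_apply]

theorem TT_rel (hB : Coc2F B) {sg ph : H} {q : ℕ} (hq : 1 ≤ q) (h : ph * sg = sg ^ q * ph) :
    TT B ph * TT B sg = tau H (linvV sg ph q B) * TT B sg ^ q * TT B ph := by
  obtain ⟨n, rfl⟩ : ∃ n, q = n + 1 := ⟨q - 1, by omega⟩
  rw [TT_mul hB, TT_pow hB, h, ← mul_assoc, tau_mul, mul_assoc, TT_mul hB, ← mul_assoc, tau_mul,
    linvV_eq]
  congr 2
  abel

theorem TT_rel_pow (hB : Coc2F B) {sg ph : H} {q : ℕ} (hq : 1 ≤ q) (h : ph * sg = sg ^ q * ph)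
    (m : ℕ) : TT B ph * TT B sg ^ m =
      tau H (∑ i ∈ range m, sh (sg ^ (q * i)) (linvV sg ph q B)) * TT B sg ^ (q * m) * TT B ph := by
  induction m with
  | zero => simp [tau_zero]
  | succ m ih =>
    rw [pow_succ, ← mul_assoc, ih, mul_assoc, TT_rel hB hq h, mul_assoc, sum_range_succ,
      ← tau_mul, mul_add, mul_one, pow_add]
    simp only [mul_assoc]
    congr 1
    rw [← mul_assoc (TT B sg ^ (q * m)), TT_pow_tau]
    simp only [mul_assoc]

/-- Sum of a periodic function over a number of periods which is 1 modulo `l`. -/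
theorem sum_period (b : ℕ → R → ZMod l) (e : ℕ) (hb : ∀ i, b (i + e) = b i) (m : ℕ)
    (hm : (m : ZMod l) = 1) :
    ∑ i ∈ range (e * m), b i = ∑ i ∈ range e, b i := by
  have hb' : ∀ n i, b (i + e * n) = b i := by
    intro n
    induction n with
    | zero => simp
    | succ n ih =>
      intro i
      rw [mul_add, mul_one, ← add_assoc, hb, ih]
  have key : ∀ n, ∑ i ∈ range (e * n), b i = n • ∑ i ∈ range e, b i := by
    intro n
    induction n with
    | zero => simp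
    | succ n ih =>
      rw [mul_add, mul_one, sum_range_add, ih, add_smul, one_smul]
      congr 1
      exact sum_congr rfl fun i _ => by rw [add_comm, hb' n i]
  rw [key, ← Nat.cast_smul_eq_nsmul (ZMod l), hm, one_smul]

theorem TT_rel_e (hB : Coc2F B) {sg ph : H} {q : ℕ} (hq0 : 1 ≤ q) (hq : (q : ZMod l) = 1)
    (h : ph * sg = sg ^ q * ph) {e : ℕ} (he : ∀ r : R, sg ^ e • r = r) (i : ℕ) :
    TT B ph ^ i * TT B sg ^ e =
      tau H (∑ n ∈ range i, sh (ph ^ n) (∑ k ∈ range e, sh (sg ^ (q * k)) (linvV sg ph q B))) *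
        TT B sg ^ (e * q ^ i) * TT B ph ^ i := by
  have he' : ∀ (n : ℕ) (a : R → ZMod l), sh (sg ^ (e * n)) a = a := by
    intro n a
    funext r
    change a ((sg ^ (e * n))⁻¹ • r) = a r
    congr 1
    rw [inv_smul_eq_iff, pow_mul]
    induction n with
    | zero => simp
    | succ n ih => rw [pow_succ, mul_smul, he, ← ih]
  induction i with
  | zero => simp [tau_zero]
  | succ i ih =>
    rw [pow_succ', mul_assoc, ih]
    simp only [← mul_assoc]
    rw [TT_tau, mul_assoc (tau H _) (TT B ph), TT_rel_pow hB hq0 h]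
    have h1 : ∑ k ∈ range (e * q ^ i), sh (sg ^ (q * k)) (linvV sg ph q B) =
        ∑ k ∈ range e, sh (sg ^ (q * k)) (linvV sg ph q B) := by
      refine sum_period (fun k => sh (sg ^ (q * k)) (linvV sg ph q B)) e (fun k => ?_) _ (by
        rw [Nat.cast_pow, hq, one_pow])
      rw [mul_add, pow_add, sh_mul, mul_comm q e, he']
    rw [h1]
    simp only [← mul_assoc]
    rw [tau_mul, sh_sum]
    have h2 : (∑ n ∈ range i, sh ph (sh (ph ^ n)
        (∑ k ∈ range e, sh (sg ^ (q * k)) (linvV sg ph q B)))) +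
        ∑ k ∈ range e, sh (sg ^ (q * k)) (linvV sg ph q B) =
        ∑ n ∈ range (i + 1), sh (ph ^ n)
          (∑ k ∈ range e, sh (sg ^ (q * k)) (linvV sg ph q B)) := by
      rw [sum_range_succ', pow_zero, sh_one]
      congr 1
      exact sum_congr rfl fun n _ => by rw [pow_succ', sh_mul]
    rw [h2]
    have h3 : q * e * q ^ i = e * q ^ (i + 1) := by ring
    rw [h3]

/-- First part of the orbit formula. -/
theorem linv_stab' (hB : Coc2F B) {sg ph : H} {q : ℕ} (hq0 : 1 ≤ q) (hq : (q : ZMod l) = 1)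
    (h : ph * sg = sg ^ q * ph)
    {e : ℕ} (he0 : 0 < e) (he : ∀ r : R, sg ^ e • r = r) (f j : ℕ) {r : R}
    (hr : (sg ^ j * ph ^ f) • r = r) :
    linv (sg ^ e) (sg ^ j * ph ^ f) (q ^ f) (fun s t => B s t r) =
      ∑ i ∈ range f, ∑ k ∈ range e,
        linv sg ph q (fun s t => B s t ((sg ^ j * ph ^ i * sg ^ (q * k))⁻¹ • r)) := by
  -- the relation in `H`
  have hpow : ∀ m : ℕ, ph * sg ^ m = sg ^ (q * m) * ph := by
    intro m
    induction m with
    | zero => simp
    | succ m ih =>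
      rw [pow_succ, ← mul_assoc, ih, mul_assoc, h, ← mul_assoc, ← pow_add, mul_add, mul_one]
  have hpow2 : ∀ i m : ℕ, ph ^ i * sg ^ m = sg ^ (q ^ i * m) * ph ^ i := by
    intro i
    induction i with
    | zero => simp
    | succ i ih =>
      intro m
      rw [pow_succ, mul_assoc, hpow, ← mul_assoc, ih, mul_assoc]
      congr 2
      ring
  have hrel : (sg ^ j * ph ^ f) * sg ^ e = (sg ^ e) ^ (q ^ f) * (sg ^ j * ph ^ f) := by
    rw [mul_assoc, hpow2, ← mul_assoc, ← pow_add, ← pow_mul, ← mul_assoc, ← pow_add]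
    congr 2
    ring
  set σ := sg ^ e with hσ
  set φ := sg ^ j * ph ^ f with hφ
  set w := linvV sg ph q B with hw
  set a' := sh (sg ^ j) (∑ n ∈ range f, sh (ph ^ n) (∑ k ∈ range e, sh (sg ^ (q * k)) w)) with ha'
  -- lifts
  obtain ⟨b, hb⟩ : ∃ b, TT B sg ^ e = tau H b * TT B σ := by
    obtain ⟨n, rfl⟩ : ∃ n, e = n + 1 := ⟨e - 1, by omega⟩
    exact ⟨_, TT_pow hB sg n⟩
  have hlift : ∀ (s : H) (n : ℕ), ∃ b, TT B s ^ n = tau H b * TT B (s ^ n) := by
    intro s n
    cases n with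
    | zero =>
      refine ⟨-B 1 1, ?_⟩
      have h1 := TT_mul hB (1 : H) 1
      rw [one_mul] at h1
      have h2 : tau H (B 1 1) = TT B 1 := mul_right_cancel h1.symm
      rw [pow_zero, pow_zero, ← h2, tau_mul, neg_add_cancel, tau_zero]
    | succ n => exact ⟨_, TT_pow hB s n⟩
  obtain ⟨b', hb'⟩ : ∃ b', TT B sg ^ j * TT B ph ^ f = tau H b' * TT B φ := by
    obtain ⟨b1, h1⟩ := hlift sg j
    obtain ⟨b2, h2⟩ := hlift ph f
    refine ⟨b1 + sh (sg ^ j) b2 + B (sg ^ j) (ph ^ f), ?_⟩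
    rw [h1, h2, ← tau_mul, ← tau_mul]
    have h3 : tau H b1 * TT B (sg ^ j) * (tau H b2 * TT B (ph ^ f)) =
        tau H b1 * ((TT B (sg ^ j) * tau H b2) * TT B (ph ^ f)) := by group
    rw [h3, TT_tau, mul_assoc (tau H (sh (sg ^ j) b2)), TT_mul hB, hφ]
    simp only [mul_assoc]
  have hQ : 1 ≤ q ^ f := Nat.one_le_pow _ _ hq0
  have h1 : TT B φ * TT B σ = tau H (linvV σ φ (q ^ f) B) * TT B σ ^ q ^ f * TT B φ :=
    TT_rel hB hQ hrel
  have h2 : (TT B sg ^ j * TT B ph ^ f) * TT B sg ^ e =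
      tau H a' * TT B sg ^ (e * q ^ f) * (TT B sg ^ j * TT B ph ^ f) := by
    rw [mul_assoc, TT_rel_e hB hq0 hq h he f]
    simp only [← mul_assoc]
    rw [TT_pow_tau, mul_assoc (tau H _) (TT B sg ^ j) (TT B sg ^ (e * q ^ f)), ← pow_add,
      mul_assoc (tau H _) (TT B sg ^ (e * q ^ f)) (TT B sg ^ j), ← pow_add, add_comm j]
  have h4 : ∀ m : ℕ, (tau H b * TT B σ) ^ m =
      tau H (∑ k ∈ range m, sh (σ ^ k) b) * TT B σ ^ m := by
    intro m
    induction m with
    | zero => simp [tau_zero]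
    | succ m ih =>
      rw [pow_succ, ih, sum_range_succ, ← tau_mul]
      have : tau H (∑ k ∈ range m, sh (σ ^ k) b) * TT B σ ^ m * (tau H b * TT B σ) =
          tau H (∑ k ∈ range m, sh (σ ^ k) b) * ((TT B σ ^ m * tau H b) * TT B σ) := by group
      rw [this, TT_pow_tau, pow_succ]
      group
  rw [hb', hb, pow_mul, hb, h4] at h2
  have h5 : tau H b' * TT B φ * (tau H b * TT B σ) =
      tau H (b' + sh φ b + linvV σ φ (q ^ f) B) * (TT B σ ^ q ^ f * TT B φ) := by
    have : tau H b' * TT B φ * (tau H b * TT B σ) =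
        tau H b' * ((TT B φ * tau H b) * TT B σ) := by group
    rw [this, TT_tau, mul_assoc (tau H (sh φ b)), h1, ← tau_mul, ← tau_mul]
    group
  have h6 : tau H a' * (tau H (∑ k ∈ range (q ^ f), sh (σ ^ k) b) * TT B σ ^ q ^ f) *
      (tau H b' * TT B φ) =
      tau H (a' + (∑ k ∈ range (q ^ f), sh (σ ^ k) b) + sh (σ ^ q ^ f) b') *
        (TT B σ ^ q ^ f * TT B φ) := by
    have : tau H a' * (tau H (∑ k ∈ range (q ^ f), sh (σ ^ k) b) * TT B σ ^ q ^ f) *
      (tau H b' * TT B φ) = tau H a' * tau H (∑ k ∈ range (q ^ f), sh (σ ^ k) b) *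
        ((TT B σ ^ q ^ f * tau H b') * TT B φ) := by group
    rw [this, TT_pow_tau, ← tau_mul, ← tau_mul]
    group
  rw [h5, h6] at h2
  have h7 := tau_inj (mul_right_cancel h2)
  have h8 := congrFun h7 r
  -- evaluate at `r`
  have hφr : φ⁻¹ • r = r := by rw [inv_smul_eq_iff, hr]
  have hσr : ∀ n : ℕ, (σ ^ n)⁻¹ • r = r := by
    intro n
    rw [inv_smul_eq_iff]
    induction n with
    | zero => simp
    | succ n ih => rw [pow_succ, mul_smul, he, ← ih]
  simp only [Pi.add_apply, Finset.sum_apply] at h8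
  have e1 : sh φ b r = b r := by rw [sh, hφr]
  have e2 : ∀ (n : ℕ) (c : R → ZMod l), sh (σ ^ n) c r = c r := by
    intro n c
    rw [sh, hσr]
  rw [e1, e2] at h8
  simp only [e2, sum_const, card_range, nsmul_eq_mul] at h8
  have e3 : ((q ^ f : ℕ) : ZMod l) = 1 := by rw [Nat.cast_pow, hq, one_pow]
  rw [e3, one_mul] at h8
  have h9 : linvV σ φ (q ^ f) B r = a' r := by linear_combination h8
  have h10 : a' r = ∑ i ∈ range f, ∑ k ∈ range e,
      w ((sg ^ j * ph ^ i * sg ^ (q * k))⁻¹ • r) := by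
    rw [ha', sh_sum, Finset.sum_apply]
    refine sum_congr rfl fun i _ => ?_
    rw [sh_sum, sh_sum, Finset.sum_apply]
    refine sum_congr rfl fun k _ => ?_
    rw [← sh_mul, ← sh_mul]
    rfl
  exact h9.trans h10

end shift

/-! ### The bijection -/

section perm

open SmN.Loc

variable {R : Type*} [Finite R] {σ φ : Equiv.Perm R} {q : ℕ}

/-- The bijection behind the orbit formula. -/
theorem exists_efj {M : Type*} [AddCommMonoid M] [Fintype R] (h : φ * σ = σ ^ q * φ)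
    (ht : ∀ x y : R, ∃ k ∈ Subgroup.closure ({φ, σ} : Set (Equiv.Perm R)), k x = y) (r : R) :
    ∃ e f j : ℕ, 0 < e ∧ 0 < f ∧ σ ^ e = 1 ∧ (σ ^ j * φ ^ f) r = r ∧
      (∀ l : ℤ, (σ ^ l) r = r → (e : ℤ) ∣ l) ∧
      (∀ (n : ℕ) (a : ℤ), 0 < n → (σ ^ a * φ ^ n) r = r → f ≤ n) ∧
      ∀ w : R → M, ∑ i ∈ range f, ∑ l ∈ range e, w ((σ ^ j * φ ^ i * σ ^ (q * l))⁻¹ r) =
        ∑ r', w r' := by
  classical
  have hfree := fun l x hx => free h rfl ht l x hx
  have he0 : 0 < orderOf σ := orderOf_pos σ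
  have hdvd : ∀ (l : ℤ) (x : R), (σ ^ l) x = x → (orderOf σ : ℤ) ∣ l := fun l x hx =>
    orderOf_dvd_iff_zpow_eq_one.2 (hfree l x hx)
  -- `f`
  have hex : ∃ n : ℕ, 0 < n ∧ ∃ a : ℤ, (σ ^ a * φ ^ n) r = r :=
    ⟨orderOf φ, orderOf_pos φ, 0, by simp [pow_orderOf_eq_one]⟩
  obtain ⟨hf0, a0, ha0⟩ := Nat.find_spec hex
  set f := Nat.find hex with hf
  have hmin : ∀ (n : ℕ) (a : ℤ), 0 < n → (σ ^ a * φ ^ n) r = r → f ≤ n := fun n a hn ha =>
    Nat.find_min' hex ⟨hn, a, ha⟩
  obtain ⟨j, hj⟩ : ∃ j : ℕ, σ ^ j = σ ^ a0 := by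
    refine ⟨(a0 % (orderOf σ : ℤ)).toNat, ?_⟩
    have h1 : ((a0 % (orderOf σ : ℤ)).toNat : ℤ) = a0 % (orderOf σ : ℤ) :=
      Int.toNat_of_nonneg (Int.emod_nonneg _ (by exact_mod_cast he0.ne'))
    rw [← zpow_natCast, h1, zpow_mod_orderOf]
  have hjr : (σ ^ j * φ ^ f) r = r := by rw [hj]; exact ha0
  refine ⟨orderOf σ, f, j, he0, hf0, pow_orderOf_eq_one σ, hjr, fun l hl => hdvd l r hl, hmin,
    fun w => ?_⟩
  rw [← Finset.sum_product']
  refine Finset.sum_bij (fun x _ => (σ ^ j * φ ^ x.1 * σ ^ (q * x.2))⁻¹ r) (fun _ _ => mem_univ _)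
    ?_ ?_ fun _ _ => rfl
  · -- injectivity
    have key : ∀ i i' l l' : ℕ, i ≤ i' → i' < f → l < orderOf σ → l' < orderOf σ →
        (σ ^ j * φ ^ i * σ ^ (q * l))⁻¹ r = (σ ^ j * φ ^ i' * σ ^ (q * l'))⁻¹ r →
        i = i' ∧ l = l' := by
      intro i i' l l' hii hi' hl hl' heq
      obtain ⟨d, rfl⟩ := Nat.exists_eq_add_of_le hii
      set z := (σ ^ j * φ ^ i * σ ^ (q * l))⁻¹ r with hz
      have h1 : (σ ^ j * φ ^ i * σ ^ (q * l)) z = r := Equiv.apply_symm_apply _ _
      have h2 : (σ ^ j * φ ^ (i + d) * σ ^ (q * l')) z = r := by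
        rw [heq]
        exact Equiv.apply_symm_apply _ _
      -- `z` in terms of `u = φ ^ i z`
      set u := (φ ^ i) z with hu
      have h3 : σ ^ j * φ ^ i * σ ^ (q * l) =
          σ ^ ((j : ℤ) + (q : ℤ) ^ i * ((q * l : ℕ) : ℤ)) * φ ^ i := by
        rw [← zpow_natCast σ (q * l), mul_assoc, semi h, ← mul_assoc, ← zpow_natCast σ j,
          ← zpow_add]
      have h4 : σ ^ j * φ ^ (i + d) * σ ^ (q * l') =
          σ ^ ((j : ℤ) + (q : ℤ) ^ (i + d) * ((q * l' : ℕ) : ℤ)) * φ ^ d * φ ^ i := by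
        rw [← zpow_natCast σ (q * l'), mul_assoc, semi h, ← mul_assoc, ← zpow_natCast σ j,
          ← zpow_add, mul_assoc, ← pow_add, add_comm d i]
      rw [h3, Equiv.Perm.mul_apply, ← hu] at h1
      rw [h4, Equiv.Perm.mul_apply, ← hu, Equiv.Perm.mul_apply] at h2
      set A : ℤ := (j : ℤ) + (q : ℤ) ^ i * ((q * l : ℕ) : ℤ) with hA
      set A' : ℤ := (j : ℤ) + (q : ℤ) ^ (i + d) * ((q * l' : ℕ) : ℤ) with hA'
      have h5 : u = (σ ^ (-A)) r := by
        rw [← h1, ← Equiv.Perm.mul_apply, ← zpow_add, neg_add_cancel, zpow_zero,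
          Equiv.Perm.one_apply]
      have h6 : (σ ^ (A' + (q : ℤ) ^ d * (-A)) * φ ^ d) r = r := by
        rw [zpow_add, mul_assoc, ← semi h, Equiv.Perm.mul_apply, Equiv.Perm.mul_apply, ← h5]
        exact h2
      have hd : d = 0 := by
        by_contra hd
        have := hmin d _ (Nat.pos_of_ne_zero hd) h6
        omega
      subst hd
      refine ⟨rfl, ?_⟩
      rw [pow_zero, Equiv.Perm.one_apply] at h2
      have h7 : (σ ^ (-A' + A)) u = u := by
        rw [zpow_add, Equiv.Perm.mul_apply, h1, ← h2, ← Equiv.Perm.mul_apply, ← zpow_add,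
          neg_add_cancel, zpow_zero, Equiv.Perm.one_apply]
      have h8 := hdvd _ _ h7
      have h9 : -A' + A = (q : ℤ) ^ (i + 1) * ((l : ℤ) - l') := by
        rw [hA, hA', add_zero]
        push_cast
        ring
      rw [h9] at h8
      have h10 : IsCoprime (orderOf σ : ℤ) ((q : ℤ) ^ (i + 1)) :=
        ((Nat.isCoprime_iff_coprime.2 (cop h)).symm).pow_right
      have h11 := h10.dvd_of_dvd_mul_left h8
      have h12 : (l' : ℤ) % (orderOf σ : ℤ) = (l : ℤ) % (orderOf σ : ℤ) :=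
        Int.modEq_iff_dvd.2 h11
      rw [Int.emod_eq_of_lt (by positivity) (by exact_mod_cast hl'),
        Int.emod_eq_of_lt (by positivity) (by exact_mod_cast hl)] at h12
      exact_mod_cast h12.symm
    intro x hx y hy hxy
    rw [mem_product, mem_range, mem_range] at hx hy
    rcases le_total x.1 y.1 with hle | hle
    · obtain ⟨h1, h2⟩ := key _ _ _ _ hle hy.1 hx.2 hy.2 hxy
      exact Prod.ext h1 h2
    · obtain ⟨h1, h2⟩ := key _ _ _ _ hle hx.1 hy.2 hx.2 hxy.symm
      exact Prod.ext h1.symm h2.symm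
  · -- surjectivity
    intro z _
    obtain ⟨k, hk, hkz⟩ := ht z r
    obtain ⟨a, b, rfl⟩ := form h k hk
    -- reduce `b` modulo `f`
    have hred : ∀ m i : ℕ, ∀ a : ℤ, (σ ^ a * φ ^ (f * m + i)) z = r →
        ∃ a' : ℤ, (σ ^ a' * φ ^ i) z = r := by
      intro m
      induction m with
      | zero =>
        intro i a h1
        rw [mul_zero, zero_add] at h1
        exact ⟨a, h1⟩
      | succ m ih =>
        intro i a h1
        have h2 : (σ ^ j * φ ^ f)⁻¹ r = r := by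
          rw [Equiv.Perm.inv_eq_iff_eq, hjr]
        have h3 : (σ ^ a * φ ^ (f * (m + 1) + i)) z = (σ ^ j * φ ^ f) r := by rw [h1, hjr]
        have h4 : σ ^ a * φ ^ (f * (m + 1) + i) =
            σ ^ (a - j) * (σ ^ j * φ ^ f) * φ ^ (f * m + i) := by
          rw [← mul_assoc, ← zpow_natCast σ j, ← zpow_add, sub_add_cancel, mul_assoc, ← pow_add]
          congr 2
          ring
        -- move `σ ^ (a - j)` through `ψ = σ ^ j φ ^ f`
        obtain ⟨m', hm'⟩ := exists_pow_eq_self_of_coprime (x := σ) (n := q ^ f)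
          ((cop h).pow_left f)
        have h5 : σ ^ (a - j) * (σ ^ j * φ ^ f) =
            (σ ^ j * φ ^ f) * σ ^ ((m' : ℤ) * (a - j)) := by
          have h6 : φ ^ f * σ ^ ((m' : ℤ) * (a - j)) = σ ^ (a - j) * φ ^ f := by
            rw [semi h]
            congr 1
            have h7 : σ ^ ((q : ℤ) ^ f * ((m' : ℤ) * (a - j))) = ((σ ^ q ^ f) ^ m') ^ (a - j) := by
              rw [← zpow_natCast σ (q ^ f), ← zpow_natCast, ← zpow_mul, ← zpow_mul]
              congr 1
            rw [h7, hm']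
          rw [mul_assoc, h6, ← mul_assoc, ← mul_assoc, ← zpow_natCast σ j, ← zpow_add, ← zpow_add,
            add_comm]
        rw [h4, h5, mul_assoc, Equiv.Perm.mul_apply] at h3
        have h8 := (σ ^ j * φ ^ f).injective h3
        exact ih i _ h8
    have hb : b = f * (b / f) + b % f := (Nat.div_add_mod b f).symm
    rw [hb] at hkz
    obtain ⟨a', ha'⟩ := hred _ _ _ hkz
    set i := b % f with hi
    have hif : i < f := Nat.mod_lt _ hf0
    -- solve for `l`
    obtain ⟨m', hm'⟩ := exists_pow_eq_self_of_coprime (x := σ) (n := q ^ (i + 1))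
      ((cop h).pow_left (i + 1))
    set L : ℤ := (m' : ℤ) * (a' - j) with hL
    obtain ⟨l, hl, hlL⟩ : ∃ l : ℕ, l < orderOf σ ∧ σ ^ l = σ ^ L := by
      refine ⟨(L % (orderOf σ : ℤ)).toNat, ?_, ?_⟩
      · have h1 : L % (orderOf σ : ℤ) < orderOf σ := Int.emod_lt_of_pos _ (by exact_mod_cast he0)
        have h2 : 0 ≤ L % (orderOf σ : ℤ) := Int.emod_nonneg _ (by exact_mod_cast he0.ne')
        omega
      · have h1 : ((L % (orderOf σ : ℤ)).toNat : ℤ) = L % (orderOf σ : ℤ) :=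
          Int.toNat_of_nonneg (Int.emod_nonneg _ (by exact_mod_cast he0.ne'))
        rw [← zpow_natCast, h1, zpow_mod_orderOf]
    refine ⟨(i, l), ?_, ?_⟩
    · rw [mem_product, mem_range, mem_range]
      exact ⟨hif, hl⟩
    · change (σ ^ j * φ ^ i * σ ^ (q * l))⁻¹ r = z
      rw [Equiv.Perm.inv_eq_iff_eq, ← ha']
      congr 1
      have h1 : σ ^ (q * l) = σ ^ ((q : ℤ) * L) := by
        rw [mul_comm q l, pow_mul, hlL, mul_comm (q : ℤ) L, zpow_mul σ L (q : ℤ)]
        exact (zpow_natCast (σ ^ L) q).symm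
      rw [h1, mul_assoc, semi h, ← mul_assoc, ← zpow_natCast σ j, ← zpow_add]
      congr 1
      have h2 : σ ^ ((j : ℤ) + (q : ℤ) ^ i * ((q : ℤ) * L)) =
          σ ^ (j : ℤ) * ((σ ^ q ^ (i + 1)) ^ m') ^ (a' - j) := by
        rw [zpow_add]
        congr 1
        rw [← zpow_natCast σ (q ^ (i + 1)), ← zpow_natCast, ← zpow_mul, ← zpow_mul]
        congr 1
        rw [hL]
        push_cast
        ring
      rw [h2, hm', ← zpow_add]
      congr 1
      ring

end perm

end OrbAux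

open OrbAux

section quot

variable {l : ℕ} {Q Y : Type*} [Group Q] [MulAction Q Y]

theorem linv_stab {c : Q → Q → Y → ZMod l}
    (hc : ∀ s t u y, c s t y + c (s * t) u y = c t u (s⁻¹ • y) + c s (t * u) y) {σ φ : Q} {q : ℕ}
    (hq0 : 1 ≤ q) (hq : (q : ZMod l) = 1) (hrel : φ * σ = σ ^ q * φ) {e : ℕ} (he : 0 < e)
    (hσ : ∀ y : Y, σ ^ e • y = y) (f j : ℕ) {x : Y} (hx : (σ ^ j * φ ^ f) • x = x) :
    linv (σ ^ e) (σ ^ j * φ ^ f) (q ^ f) (fun s t => c s t x) =
      ∑ i ∈ range f, ∑ m ∈ range e,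
        linv σ φ q (fun s t => c s t ((σ ^ j * φ ^ i * σ ^ (q * m))⁻¹ • x)) := by
  refine linv_stab' (B := c) (fun s t u => ?_) hq0 hq hrel he hσ f j hx
  funext y
  exact hc s t u y

end quot

variable {l : ℕ} {G Pl : Type*} [Group G] {B : Bs G Pl} {X : Type*} [MulAction G X]

/-- The stabiliser of `x` in `D v` is generated by `sg ^ e` and `sg ^ j * ph ^ f` modulo every `N`. -/
theorem Efj.gen (hB : B.Ok l) {v : Pl} {x : X} {e f j : ℕ} (hE : Efj (B.sg v) (B.ph v) x e f j)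
    {N : Subgroup G} (hN : N ∈ B.NN) (hX : ∀ n ∈ N, ∀ x : X, n • x = x) {s : G}
    (hs : s ∈ Dx B v x) :
    ∃ (a : ℤ) (b : ℕ),
      (((B.sg v ^ e) ^ a) * ((B.sg v ^ j * B.ph v ^ f) ^ b))⁻¹ * s ∈ N := by
  have hNn := hB.normal N hN
  have hNf := hB.fi N hN
  have hx : s • x = x := hs.2
  obtain ⟨t, ht, htN⟩ := hB.gen v N hN s hs.1
  let π := QuotientGroup.mk' N
  have hπ : ∀ a b : G, π a = π b ↔ a⁻¹ * b ∈ N := fun a b => QuotientGroup.eq
  have hact : ∀ a b : G, π a = π b → a • x = x → b • x = x := by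
    intro a b hab ha
    have h1 := hX _ ((hπ a b).1 hab) x
    rw [mul_smul, inv_smul_eq_iff, ha] at h1
    exact h1
  have hrel : π (B.ph v) * π (B.sg v) = π (B.sg v) ^ B.q v * π (B.ph v) := by
    have h2 := (hπ _ _).2 (hB.rel v N hN)
    rw [← map_mul, ← map_pow, h2, ← map_mul, inv_mul_cancel_right]
  have hfin : Finite (G ⧸ N) := inferInstance
  have htQ : π t ∈ Subgroup.closure ({π (B.ph v), π (B.sg v)} : Set (G ⧸ N)) := by
    have h3 : (Subgroup.closure ({B.ph v, B.sg v} : Set G)).map π =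
        Subgroup.closure ({π (B.ph v), π (B.sg v)} : Set (G ⧸ N)) := by
      rw [MonoidHom.map_closure, Set.image_pair]
    rw [← h3]
    exact ⟨t, ht, rfl⟩
  obtain ⟨a, b, hab⟩ := SmN.F.form' hrel _ htQ
  have hst : π s = π t := ((hπ t s).2 htN).symm
  have hs' : π s = π (B.sg v ^ a * B.ph v ^ b) := by
    rw [hst, hab, map_mul, map_zpow, map_pow]
  have hm := Nat.div_add_mod b f
  set m := b / f with hmdef
  set n := b % f with hndef
  obtain ⟨c, hc⟩ := SmN.F.pw hrel j f m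
  have hc' : π ((B.sg v ^ j * B.ph v ^ f) ^ m) = π (B.sg v ^ c * B.ph v ^ (f * m)) := by
    rw [map_pow, map_mul, map_pow, map_pow, hc, map_mul, map_zpow, map_pow]
  -- `s * (sg ^ j ph ^ f) ^ (-m)`
  have h4 : π (s * ((B.sg v ^ j * B.ph v ^ f) ^ m)⁻¹) =
      π (B.sg v ^ (a - (B.q v : ℤ) ^ n * c) * B.ph v ^ n) := by
    have h5 : π (B.ph v) ^ n * π (B.sg v) ^ (-c) =
        π (B.sg v) ^ ((B.q v : ℤ) ^ n * (-c)) * π (B.ph v) ^ n := SmN.F.semi' hrel n (-c)
    rw [map_mul, hs', map_inv, hc', map_mul, map_mul, map_zpow, map_zpow, map_pow, map_pow,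
      mul_inv_rev, map_mul, map_zpow, map_pow, ← hm, add_comm (f * m) n, pow_add]
    have h6 : π (B.sg v) ^ a * (π (B.ph v) ^ n * π (B.ph v) ^ (f * m)) *
        ((π (B.ph v) ^ (f * m))⁻¹ * (π (B.sg v) ^ c)⁻¹) =
        π (B.sg v) ^ a * (π (B.ph v) ^ n * π (B.sg v) ^ (-c)) := by
      rw [zpow_neg]
      group
    rw [h6, h5, ← mul_assoc, ← zpow_add]
    congr 2
    ring
  have hfixm : ((B.sg v ^ j * B.ph v ^ f) ^ m) • x = x := by
    have : ∀ m : ℕ, ((B.sg v ^ j * B.ph v ^ f) ^ m) • x = x := by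
      intro m
      induction m with
      | zero => rw [pow_zero, one_smul]
      | succ m ih => rw [pow_succ, mul_smul, hE.ph_fix, ih]
    exact this m
  have h7 : (s * ((B.sg v ^ j * B.ph v ^ f) ^ m)⁻¹) • x = x := by
    rw [mul_smul, inv_smul_eq_iff.2 hfixm.symm, hx]
  have h8 := hact _ _ h4 h7
  have hn0 : n = 0 := by
    by_contra hn0
    have h9 := hE.f_min n _ (Nat.pos_of_ne_zero hn0) h8
    exact absurd (Nat.mod_lt b hE.f_pos) (not_lt.2 h9)
  rw [hn0, pow_zero, pow_zero, mul_one, one_mul] at h8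
  obtain ⟨k, hk⟩ := hE.e_min _ h8
  refine ⟨k, m, ?_⟩
  rw [← hπ]
  rw [hn0, pow_zero, pow_zero, mul_one, one_mul, hk] at h4
  rw [map_mul, map_inv, mul_inv_eq_iff_eq_mul] at h4
  rw [h4, map_mul, ← zpow_natCast (B.sg v) e, ← zpow_mul]

/-- The relation for `sgx`, `phx`. -/
theorem rel_x (hB : B.Ok l) {E : Pl → X → ℕ × ℕ × ℕ} (v : Pl) (x : X) {N : Subgroup G}
    (hN : N ∈ B.NN) :
    (sgx B E v x ^ qx B E v x)⁻¹ * (phx B E v x * sgx B E v x * (phx B E v x)⁻¹) ∈ N := by
  have hNn := hB.normal N hN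
  let π := QuotientGroup.mk' N
  have hπ : ∀ a b : G, π a = π b ↔ a⁻¹ * b ∈ N := fun a b => QuotientGroup.eq
  have hrel : π (B.ph v) * π (B.sg v) = π (B.sg v) ^ B.q v * π (B.ph v) := by
    have h2 := (hπ _ _).2 (hB.rel v N hN)
    rw [← map_mul, ← map_pow, h2, ← map_mul, inv_mul_cancel_right]
  rw [← hπ]
  unfold sgx phx qx
  rw [map_mul, map_mul, map_inv, map_mul]
  simp only [map_pow]
  rw [eq_mul_inv_iff_mul_eq]
  have h5 := SmN.F.semi' hrel (E v x).2.1 ((E v x).1 : ℤ)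
  rw [mul_assoc (π (B.sg v) ^ (E v x).2.2), ← zpow_natCast (π (B.sg v)) (E v x).1, h5,
    ← zpow_natCast (π (B.sg v)) (E v x).2.2, ← mul_assoc, ← mul_assoc,
    ← zpow_natCast (π (B.sg v) ^ ((E v x).1 : ℤ)),
    ← zpow_mul, ← zpow_add, ← zpow_add]
  congr 2
  push_cast
  ring

theorem sgx_mem (hB : B.Ok l) {E : Pl → X → ℕ × ℕ × ℕ} (hE : OrbE l B E) (v : Pl) (x : X) :
    sgx B E v x ∈ Dx B v x := by
  exact ⟨(B.D v).pow_mem (hB.sg_mem v) _, (hE.efj v x).sg_fix⟩

theorem phx_mem (hB : B.Ok l) {E : Pl → X → ℕ × ℕ × ℕ} (hE : OrbE l B E) (v : Pl) (x : X) :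
    phx B E v x ∈ Dx B v x := by
  exact ⟨(B.D v).mul_mem ((B.D v).pow_mem (hB.sg_mem v) _) ((B.D v).pow_mem (hB.ph_mem v) _),
    (hE.efj v x).ph_fix⟩

theorem qx_one (hB : B.Ok l) (E : Pl → X → ℕ × ℕ × ℕ) (v : Pl) (x : X) :
    ((qx B E v x : ℕ) : ZMod l) = 1 := by
  unfold qx
  rw [Nat.cast_pow, hB.q_one, one_pow]

theorem qx_pos (hB : B.Ok l) (E : Pl → X → ℕ × ℕ × ℕ) (v : Pl) (x : X) : 1 ≤ qx B E v x :=
  Nat.one_le_pow _ _ (hB.q_pos v)

theorem OrbAux.exists_efj_orbit [Finite X] (hB : B.Ok l) (v : Pl) (hX : TrivX B X) (x : X) :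
    ∃ e f j : ℕ, Efj (B.sg v) (B.ph v) x e f j ∧
      (∀ y ∈ orbit (B.D v) x, B.sg v ^ e • y = y) ∧
      ∀ w : orbit (B.D v) x → ZMod l,
        ∑ i ∈ range f, ∑ k ∈ range e,
          w ((⟨B.sg v, hB.sg_mem v⟩ ^ j * ⟨B.ph v, hB.ph_mem v⟩ ^ i *
            ⟨B.sg v, hB.sg_mem v⟩ ^ (B.q v * k) : B.D v)⁻¹ • ⟨x, mem_orbit_self x⟩) =
        ∑ᶠ r', w r' := by
  classical
  have : Finite (orbit (B.D v) x) := inferInstance
  have : Fintype (orbit (B.D v) x) := Fintype.ofFinite _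
  obtain ⟨N, hN, hX⟩ := hX
  set D := B.D v with hD
  set s0 : D := ⟨B.sg v, hB.sg_mem v⟩ with hs0
  set p0 : D := ⟨B.ph v, hB.ph_mem v⟩ with hp0
  set π : D →* Equiv.Perm (orbit D x) := MulAction.toPermHom D (orbit D x) with hπ
  have hπa : ∀ (s : D) (y : orbit D x), π s y = s • y := fun _ _ => rfl
  have hN1 : ∀ s : D, (s : G) ∈ N → π s = 1 := by
    intro s hs
    ext y
    rw [hπa, Equiv.Perm.one_apply, orbit.coe_smul]
    exact hX _ hs _
  have h1 : π p0 * π s0 = π s0 ^ B.q v * π p0 := by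
    have h2 := hN1 ((s0 ^ B.q v)⁻¹ * (p0 * s0 * p0⁻¹)) (by
      have := hB.rel v N hN
      simpa [hs0, hp0] using this)
    rw [map_mul, map_inv, inv_mul_eq_one] at h2
    rw [← map_mul, ← map_pow, h2, ← map_mul, inv_mul_cancel_right]
  have ht : ∀ y z : orbit D x, ∃ k ∈ Subgroup.closure ({π p0, π s0} : Set (Equiv.Perm _)),
      k y = z := by
    intro y z
    obtain ⟨d, hd⟩ := MulAction.exists_smul_eq D y z
    obtain ⟨t, ht, htN⟩ := hB.gen v N hN d d.2
    have hcl : Subgroup.closure ({B.ph v, B.sg v} : Set G) ≤ D := by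
      rw [Subgroup.closure_le]
      rintro _ (rfl | rfl)
      · exact hB.ph_mem v
      · exact hB.sg_mem v
    have hmap : ∀ t ∈ Subgroup.closure ({B.ph v, B.sg v} : Set G), ∀ ht : t ∈ D,
        π ⟨t, ht⟩ ∈ Subgroup.closure ({π p0, π s0} : Set (Equiv.Perm _)) := by
      intro t ht htD
      induction ht using Subgroup.closure_induction with
      | mem t ht' =>
        rcases ht' with rfl | rfl
        · exact Subgroup.subset_closure (Or.inl rfl)
        · exact Subgroup.subset_closure (Or.inr rfl)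
      | one =>
        have : (⟨1, htD⟩ : D) = 1 := rfl
        rw [this, map_one]
        exact Subgroup.one_mem _
      | mul a b ha hb iha ihb =>
        have : (⟨a * b, htD⟩ : D) = ⟨a, hcl ha⟩ * ⟨b, hcl hb⟩ := rfl
        rw [this, map_mul]
        exact Subgroup.mul_mem _ (iha _) (ihb _)
      | inv a ha iha =>
        have : (⟨a⁻¹, htD⟩ : D) = (⟨a, hcl ha⟩ : D)⁻¹ := rfl
        rw [this, map_inv]
        exact Subgroup.inv_mem _ (iha _)
    refine ⟨π ⟨t, hcl ht⟩, hmap t ht _, ?_⟩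
    have h3 : π d = π ⟨t, hcl ht⟩ := by
      have h4 := hN1 ((⟨t, hcl ht⟩ : D)⁻¹ * d) htN
      rw [map_mul, map_inv, inv_mul_eq_one] at h4
      exact h4.symm
    rw [← h3, hπa, hd]
  obtain ⟨e, f, j, he0, hf0, he, hj, hd, hm, hw⟩ :=
    exists_efj (M := ZMod l) h1 ht ⟨x, mem_orbit_self x⟩
  have hco : ∀ (s : D) (y : orbit D x), ((π s y : orbit D x) : X) = (s : G) • (y : X) := by
    intro s y
    rw [hπa, orbit.coe_smul]
    rfl
  refine ⟨e, f, j, ⟨he0, hf0, ?_, ?_, ?_, ?_⟩, ?_, ?_⟩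
  · have h4 := hco (s0 ^ e) ⟨x, mem_orbit_self x⟩
    rw [map_pow, he] at h4
    exact h4.symm
  · have h4 := hco (s0 ^ j * p0 ^ f) ⟨x, mem_orbit_self x⟩
    rw [map_mul, map_pow, map_pow, hj] at h4
    exact h4.symm
  · intro k hk
    refine hd k (Subtype.ext ?_)
    rw [← map_zpow, hco]
    exact hk
  · intro n a hn hna
    refine hm n a hn (Subtype.ext ?_)
    rw [← map_zpow, ← map_pow, ← map_mul, hco]
    exact hna
  · intro y hy
    have h4 := hco (s0 ^ e) ⟨y, hy⟩
    rw [map_pow, he] at h4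
    exact h4.symm
  · intro w
    rw [finsum_eq_sum_of_fintype, ← hw w]
    refine sum_congr rfl fun i _ => sum_congr rfl fun k _ => ?_
    rw [← map_pow, ← map_pow, ← map_pow, ← map_mul, ← map_mul, ← map_inv]
    rfl

/-- The orbit formula for the local group. -/
theorem OrbAux.orb_inv [Finite X] (hB : B.Ok l) (v : Pl) (hX : TrivX B X) (x : X) :
    ∃ E : ℕ × ℕ × ℕ, Efj (B.sg v) (B.ph v) x E.1 E.2.1 E.2.2 ∧ ∀ c : G → G → X → ZMod l,
      B.TF2On (B.D v) c →
      (∀ s ∈ B.D v, ∀ t ∈ B.D v, ∀ u ∈ B.D v, ∀ y ∈ orbit (B.D v) x,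
        c s t y + c (s * t) u y = c t u (s⁻¹ • y) + c s (t * u) y) →
      linv (B.sg v ^ E.1) (B.sg v ^ E.2.2 * B.ph v ^ E.2.1) (B.q v ^ E.2.1)
        (fun s t => c s t x) =
        B.inv v (fun s t => ∑ᶠ y : orbit (B.D v) x, c s t y) := by
  classical
  obtain ⟨e, f, j, hE, hsg, hw⟩ := exists_efj_orbit hB v hX x
  refine ⟨(e, f, j), hE, ?_⟩
  rintro c ⟨N1, hN1, hB1⟩ hc
  obtain ⟨N0, hN0, hX⟩ := hX
  have hN : N1 ⊓ N0 ∈ B.NN := hB.inf_mem _ hN1 _ hN0
  set N := N1 ⊓ N0 with hNdef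
  have hNn := hB.normal N hN
  have : Fintype (orbit (B.D v) x) := Fintype.ofFinite _
  set D := B.D v with hD
  set sg := B.sg v with hsgd
  set ph := B.ph v with hphd
  set q := B.q v with hqd
  -- the quotient group and its action
  let H := D ⧸ (N.subgroupOf D)
  have hout : ∀ d : D, ∃ n : D, (n : G) ∈ N ∧ ((QuotientGroup.mk d : H).out : D) = d * n := by
    intro d
    refine ⟨d⁻¹ * (QuotientGroup.mk d : H).out, ?_, by group⟩
    have h1 : (QuotientGroup.mk d : H) = QuotientGroup.mk (QuotientGroup.mk d : H).out :=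
      (Quotient.out_eq _).symm
    exact Subgroup.mem_subgroupOf.1 (QuotientGroup.eq.1 h1)
  have htriv : ∀ (n : D), (n : G) ∈ N → ∀ y : orbit D x, n • y = y := by
    intro n hn y
    ext
    rw [orbit.coe_smul]
    exact hX _ hn.2 _
  have hsm : ∀ (d : D) (y : orbit D x), (QuotientGroup.mk d : H).out • y = d • y := by
    intro d y
    obtain ⟨n, hn, h1⟩ := hout d
    rw [h1, mul_smul, htriv n hn]
  let act : MulAction H (orbit D x) :=
    { smul := fun k y => k.out • y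
      one_smul := fun y => by
        change (1 : H).out • y = y
        have h1 := hsm 1 y
        rw [one_smul] at h1
        exact h1
      mul_smul := fun k k' y => by
        change (k * k').out • y = k.out • (k'.out • y)
        have h1 : k * k' = QuotientGroup.mk (k.out * k'.out) := by
          rw [QuotientGroup.mk_mul, QuotientGroup.out_eq', QuotientGroup.out_eq']
        rw [h1, hsm, mul_smul] }
  have hact : ∀ (d : D) (y : orbit D x), (QuotientGroup.mk d : H) • y = d • y := hsm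
  let B' : H → H → orbit D x → ZMod l := fun k k' y => c k.out k'.out y
  have hBq : ∀ (d d' : D) (y : X), c ((QuotientGroup.mk d : H).out : D)
      ((QuotientGroup.mk d' : H).out : D) y = c d d' y := by
    intro d d' y
    obtain ⟨n, hn, h1⟩ := hout d
    obtain ⟨n', hn', h2⟩ := hout d'
    rw [h1, h2]
    exact congrFun (hB1 d d.2 d' d'.2 n hn.1 n.2 n' hn'.1 n'.2) y
  have hB' : Coc2F B' := by
    intro k k' k''
    funext y
    have e1 : k * k' = QuotientGroup.mk (k.out * k'.out) := by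
      rw [QuotientGroup.mk_mul, QuotientGroup.out_eq', QuotientGroup.out_eq']
    have e2 : k' * k'' = QuotientGroup.mk (k'.out * k''.out) := by
      rw [QuotientGroup.mk_mul, QuotientGroup.out_eq', QuotientGroup.out_eq']
    have e3 : k⁻¹ • y = (k.out)⁻¹ • y := by
      have h1 : k⁻¹ = QuotientGroup.mk (k.out)⁻¹ := by
        rw [QuotientGroup.mk_inv, QuotientGroup.out_eq']
      rw [h1, hact]
    have e4 : c ((k * k').out : D) (k''.out : D) y =
        c ((k.out : D) * (k'.out : D) : G) (k''.out : D) y := by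
      have h1 := hBq (k.out * k'.out) k''.out y
      rw [QuotientGroup.out_eq', ← e1] at h1
      exact h1
    have e5 : c (k.out : D) ((k' * k'').out : D) y =
        c (k.out : D) ((k'.out : D) * (k''.out : D) : G) y := by
      have h1 := hBq k.out (k'.out * k''.out) y
      rw [QuotientGroup.out_eq', ← e2] at h1
      exact h1
    change c (k.out : D) (k'.out : D) y + c ((k * k').out : D) (k''.out : D) y =
      c (k'.out : D) (k''.out : D) ((k⁻¹ • y : orbit D x) : X) + c (k.out : D) ((k' * k'').out : D) y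
    rw [e3, e4, e5, orbit.coe_smul]
    exact hc _ k.out.2 _ k'.out.2 _ k''.out.2 y y.2
  set s0 : D := ⟨sg, hB.sg_mem v⟩ with hs0
  set p0 : D := ⟨ph, hB.ph_mem v⟩ with hp0
  have hrel : (QuotientGroup.mk p0 : H) * QuotientGroup.mk s0 =
      (QuotientGroup.mk s0 : H) ^ q * QuotientGroup.mk p0 := by
    have h1 : (QuotientGroup.mk (s0 ^ q) : H) = QuotientGroup.mk (p0 * s0 * p0⁻¹) := by
      refine QuotientGroup.eq.2 (Subgroup.mem_subgroupOf.2 ?_)
      exact hB.rel v N hN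
    rw [← QuotientGroup.mk_pow, h1, ← QuotientGroup.mk_mul, ← QuotientGroup.mk_mul]
    congr 1
    group
  have hr : ((QuotientGroup.mk s0 : H) ^ j * (QuotientGroup.mk p0 : H) ^ f) •
      (⟨x, mem_orbit_self x⟩ : orbit D x) = ⟨x, mem_orbit_self x⟩ := by
    rw [← QuotientGroup.mk_pow, ← QuotientGroup.mk_pow, ← QuotientGroup.mk_mul, hact]
    ext
    rw [orbit.coe_smul]
    exact hE.ph_fix
  have he' : ∀ y : orbit D x, (QuotientGroup.mk s0 : H) ^ e • y = y := by
    intro y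
    rw [← QuotientGroup.mk_pow, hact]
    ext
    rw [orbit.coe_smul]
    exact hsg y y.2
  have key := linv_stab' hB' (hB.q_pos v) (hB.q_one v) hrel hE.e_pos he' f j hr
  have hL : linv ((QuotientGroup.mk s0 : H) ^ e)
      ((QuotientGroup.mk s0 : H) ^ j * (QuotientGroup.mk p0 : H) ^ f) (q ^ f)
      (fun s t => B' s t ⟨x, mem_orbit_self x⟩) =
      linv (sg ^ e) (sg ^ j * ph ^ f) (q ^ f) (fun s t => c s t x) := by
    unfold linv
    simp only [← QuotientGroup.mk_pow, ← QuotientGroup.mk_mul, B', hBq]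
    rfl
  have hR : ∀ y : orbit D x, linv (QuotientGroup.mk s0 : H) (QuotientGroup.mk p0 : H) q
      (fun s t => B' s t y) = linv sg ph q (fun s t => c s t y) := by
    intro y
    unfold linv
    simp only [← QuotientGroup.mk_pow, B', hBq]
    rfl
  rw [hL] at key
  refine key.trans ?_
  have h9 := hw (fun y => linv sg ph q (fun s t => c s t y))
  have h10 : ∑ i ∈ range f, ∑ k ∈ range e,
      linv (QuotientGroup.mk s0 : H) (QuotientGroup.mk p0 : H) q
      (fun s t => B' s t (((QuotientGroup.mk s0 : H) ^ j * (QuotientGroup.mk p0 : H) ^ i *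
        (QuotientGroup.mk s0 : H) ^ (q * k))⁻¹ • (⟨x, mem_orbit_self x⟩ : orbit D x))) =
      ∑ i ∈ range f, ∑ k ∈ range e, linv sg ph q (fun s t => c s t
        (((s0 ^ j * p0 ^ i * s0 ^ (q * k))⁻¹ • (⟨x, mem_orbit_self x⟩ : orbit D x) :
          orbit D x) : X)) := by
    refine sum_congr rfl fun i _ => sum_congr rfl fun k _ => ?_
    rw [hR, ← QuotientGroup.mk_pow, ← QuotientGroup.mk_pow, ← QuotientGroup.mk_pow,
      ← QuotientGroup.mk_mul, ← QuotientGroup.mk_mul, ← QuotientGroup.mk_inv, hact]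
  rw [h10, h9, finsum_eq_sum_of_fintype]
  have h11 : ∀ s t, ∑ᶠ y : orbit D x, c s t y = ∑ y : orbit D x, c s t y := fun s t =>
    finsum_eq_sum_of_fintype _
  simp only [h11]
  unfold linv Bs.inv
  rw [sum_sub_distrib, sum_sub_distrib]
  congr 1
  rw [sum_comm]

/-- The exponents exist. -/
theorem exists_orbE [Finite X] (hB : B.Ok l) (hX : TrivX B X) :
    ∃ E : Pl → X → ℕ × ℕ × ℕ, OrbE l B E := by
  choose E hE hf using fun v x => orb_inv hB v hX x
  exact ⟨E, hE, fun v x c h1 h2 => hf v x c h1 h2⟩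

end Pool.Agent.SmL.F
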