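import Pool.Agent.Lib.SmL.F.GlP
import Pool.Agent.Lib.SmL.F.HasP

/-!
# SMITH-L, arithmetic: all facts for permutation modules
-/

set_option autoImplicit false

open Finset

namespace Pool.Agent.SmL.F

open MulAction Pool.Agent.SmL.Ar

variable {l : ℕ} {G Pl : Type*} [Group G] {B : Bs G Pl} {X : Type*} [MulAction G X] [Fintype X]
  {E : Pl → X → ℕ × ℕ × ℕ} {x0 : X} {r : X → G}

theorem permP_gl (hB : B.Ok l) (hR : B.Rec2 l) (hCh : B.Cheb1) (hX : TrivX B X)
    (hE : OrbE l B E) (hr : ∀ x, r x • x = x0) (hL : LGl l B E x0 r) : (permP l G X).Gl B :=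
  ⟨permP_hasse hB hX hr hL, permP_fin hB hX hE hr hL, permP_lag hB hR hCh hX hE hr hL⟩

theorem permP_gd (hB : B.Ok l) (hU : B.Uni l) (hR : B.Rec2 l) (hCh : B.Cheb1) (hX : TrivX B X)
    (hE : OrbE l B E) (hr : ∀ x, r x • x = x0) (hL : LGl l B E x0 r) : (permP l G X).Gd B := by
  have h1 := permP_lo hB hU hX hE
  have h2 := permP_gl hB hR hCh hX hE hr hL
  exact ⟨permP_ok hB hX, h1, by rw [permP_swap]; exact h1, h2, by rw [permP_swap]; exact h2⟩

end Pool.Agent.SmL.F
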