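import Pool.Agent.Lib.SmL.F.Orb
import Pool.Agent.Lib.SmL.F.Shap
import Pool.Agent.Lib.SmL.Ar.Sy

/-!
# SMITH-L, arithmetic: the local pairing of permutation modules as a sum over the orbits

PORT of `SmN/F/Pair.lean`. `e (c s) (s d(t)) = ∑_x c s x * d t (s⁻¹ x)`; `B s t x = c s x * d t (s⁻¹ x)` is a
2-cocycle on `D v` with values in `X → ZMod l`; `P.sy = B.inv v (∑_x B s t x)` (`inv_sy`),
`= ∑_o linv (sgx) (phx) (qx) (B · · o.out)` (`OrbE.formula`), and for two homomorphisms `b, b'` on `Dx` (the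
components at `o.out`) `linv (b s * b' t) = b φ * b' σ - b (σ^q) * b' φ - ∑_{1 ≤ i < q} b (σ^i) * b' σ
= b φ * b' σ - b σ * b' φ`, as `q = 1` and `∑_{1 ≤ i < q} i = q (q - 1) / 2 = 0` in `ZMod l` (`l` odd).
-/

set_option autoImplicit false

open Finset

namespace Pool.Agent.SmL.F

open MulAction Pool.Agent.SmL.Ar

variable {l : ℕ} {G Pl : Type*} [Group G] {B : Bs G Pl} {X : Type*} [MulAction G X] [Fintype X]
  {E : Pl → X → ℕ × ℕ × ℕ}

private theorem SyP_sum_id (n : ℕ) :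
    (2 : ZMod l) * ∑ i ∈ Ico 1 (n + 1), (i : ZMod l) = n * (n + 1) := by
  induction n with
  | zero => simp
  | succ n ih =>
    rw [sum_Ico_succ_top (by omega), mul_add, ih]
    push_cast
    ring

private theorem SyP_sum_zero (hp : l.Prime) (hodd : l ≠ 2) {q : ℕ} (hq0 : 1 ≤ q)
    (hq : (q : ZMod l) = 1) : ∑ i ∈ Ico 1 q, (i : ZMod l) = 0 := by
  obtain ⟨m, rfl⟩ : ∃ m, q = m + 1 := ⟨q - 1, by omega⟩
  have h3 := SyP_sum_id (l := l) m
  have h6 : (m : ZMod l) = 0 := by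
    push_cast at hq
    linear_combination hq
  rw [h6, zero_mul] at h3
  haveI : Fact l.Prime := ⟨hp⟩
  have h7 : (2 : ZMod l) ≠ 0 := by
    intro h8
    have h9 : ((2 : ℕ) : ZMod l) = 0 := by exact_mod_cast h8
    rw [ZMod.natCast_eq_zero_iff] at h9
    exact hodd ((Nat.prime_dvd_prime_iff_eq hp Nat.prime_two).1 h9)
  exact (mul_eq_zero.1 h3).resolve_left h7

private theorem SyP_pow {D : Subgroup G} {b : G → ZMod l}
    (hb : ∀ s ∈ D, ∀ t ∈ D, b (s * t) = b s + b t) {s : G} (hs : s ∈ D) (n : ℕ) :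
    b (s ^ n) = n * b s := by
  have h1 : b 1 = 0 := by
    have h := hb 1 D.one_mem 1 D.one_mem
    rw [mul_one] at h
    exact left_eq_add.1 h
  induction n with
  | zero => rw [pow_zero, h1, Nat.cast_zero, zero_mul]
  | succ n ih =>
    rw [pow_succ, hb _ (D.pow_mem hs n) _ hs, ih]
    push_cast
    ring

theorem linv_hom (hB : B.Ok l) (hE : OrbE l B E) (v : Pl) (x : X) {b b' : G → ZMod l}
    (hb : ∀ s ∈ Dx B v x, ∀ t ∈ Dx B v x, b (s * t) = b s + b t)
    (hb' : ∀ s ∈ Dx B v x, ∀ t ∈ Dx B v x, b' (s * t) = b' s + b' t) :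
    linv (sgx B E v x) (phx B E v x) (qx B E v x) (fun s t => b s * b' t) =
      sym (b (sgx B E v x), b (phx B E v x)) (b' (sgx B E v x), b' (phx B E v x)) := by
  have _ := hb'
  have hs := sgx_mem hB hE v x
  have h0 := SyP_sum_zero hB.prime hB.odd (qx_pos hB E v x) (qx_one hB E v x)
  unfold linv sym
  beta_reduce
  simp only [SyP_pow hb hs]
  rw [qx_one hB E v x, ← sum_mul, ← sum_mul, h0]
  ring

private theorem SyP_linv_congr {σ φ : G} {q : ℕ} {D : Subgroup G} (hσ : σ ∈ D) (hφ : φ ∈ D)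
    {c c' : G → G → ZMod l} (h : ∀ s ∈ D, ∀ t ∈ D, c s t = c' s t) :
    linv σ φ q c = linv σ φ q c' := by
  unfold linv
  rw [h _ hφ _ hσ, h _ (D.pow_mem hσ _) _ hφ,
    sum_congr rfl fun i _ => h _ (D.pow_mem hσ i) _ hσ]

theorem sy_orb (hB : B.Ok l) (hX : TrivX B X) (hE : OrbE l B E) (v : Pl) {c d : G → X → ZMod l}
    (hc : Z1On B (permP l G X).a v c) (hd : Z1On B (permP l G X).a v d) :
    (permP l G X).sy B v (loc B v c) (loc B v d) =
      ∑ᶠ o : orbitRel.Quotient (B.D v) X,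
        sym (c (sgx B E v o.out) o.out, c (phx B E v o.out) o.out)
          (d (sgx B E v o.out) o.out, d (phx B E v o.out) o.out) := by
  classical
  have hfin : Finite (orbitRel.Quotient (B.D v) X) := Quotient.finite _
  have hft : Fintype (orbitRel.Quotient (B.D v) X) := Fintype.ofFinite _
  have hc2 : ∀ s ∈ B.D v, ∀ t ∈ B.D v, ∀ x, c (s * t) x = c s x + c t (s⁻¹ • x) :=
    fun s hs t ht x => congrFun (hc.2 s hs t ht) x
  have hd2 : ∀ s ∈ B.D v, ∀ t ∈ B.D v, ∀ x, d (s * t) x = d s x + d t (s⁻¹ • x) :=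
    fun s hs t ht x => congrFun (hd.2 s hs t ht) x
  rw [sy_inv hB v hc d, finsum_eq_sum_of_fintype]
  let B2 : G → G → X → ZMod l := fun s t x => c s x * d t (s⁻¹ • x)
  have hcup : (fun s t => (permP l G X).e (c s) ((permP l G X).a' s (d t))) =
      fun s t => ∑ x, B2 s t x := rfl
  have hsplit : ∀ f : X → ZMod l, ∑ x, f x =
      ∑ o : orbitRel.Quotient (B.D v) X, ∑ᶠ y : orbit (B.D v) o.out, f y := by
    intro f
    have h1 : ∀ o : orbitRel.Quotient (B.D v) X, Fintype (orbit (B.D v) o.out) :=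
      fun o => Fintype.ofFinite _
    rw [← (selfEquivSigmaOrbits (B.D v) X).symm.sum_comp, Fintype.sum_sigma]
    refine sum_congr rfl fun o _ => ?_
    rw [finsum_eq_sum_of_fintype]
    rfl
  have hsum : ∀ F : orbitRel.Quotient (B.D v) X → G → G → ZMod l,
      B.inv v (fun s t => ∑ o, F o s t) = ∑ o, B.inv v (F o) := by
    intro F
    unfold Bs.inv
    beta_reduce
    rw [sum_comm, sum_sub_distrib, sum_sub_distrib]
  have hinv : B.inv v (fun s t => ∑ x, B2 s t x) =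
      ∑ o : orbitRel.Quotient (B.D v) X, B.inv v
        (fun s t => ∑ᶠ y : orbit (B.D v) o.out, B2 s t y) := by
    rw [← hsum]
    congr 1
    funext s t
    exact hsplit _
  rw [hcup, hinv]
  refine sum_congr rfl fun o _ => ?_
  set x := o.out with hx
  rw [← hE.formula v x B2]
  · have hfix : ∀ s ∈ Dx B v x, s⁻¹ • x = x := by
      intro s hs
      have h1 : s • x = x := hs.2
      rw [inv_smul_eq_iff, h1]
    rw [← linv_hom hB hE v x (b := fun s => c s x) (b' := fun s => d s x)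
      (fun s hs t ht => by
        rw [hc2 s hs.1 t ht.1, hfix s hs])
      (fun s hs t ht => by
        rw [hd2 s hs.1 t ht.1, hfix s hs])]
    refine SyP_linv_congr (sgx_mem hB hE v x) (phx_mem hB hE v x) ?_
    intro s hs t _
    change c s x * d t (s⁻¹ • x) = c s x * d t x
    rw [hfix s hs]
  · -- finite level
    obtain ⟨N1, hN1, h1⟩ := hc.1
    obtain ⟨N2, hN2, h2⟩ := hd.1
    obtain ⟨N0, hN0, h0⟩ := hX
    refine ⟨N1 ⊓ N2 ⊓ N0, hB.inf_mem _ (hB.inf_mem _ hN1 _ hN2) _ hN0, ?_⟩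
    intro s hs t ht n hn hnD m hm hmD
    funext y
    change c (s * n) y * d (t * m) ((s * n)⁻¹ • y) = c s y * d t (s⁻¹ • y)
    have h3 : (s * n)⁻¹ • y = s⁻¹ • y := by
      rw [mul_inv_rev, mul_smul]
      exact h0 _ (N0.inv_mem hn.2) _
    rw [h1 s hs n hn.1.1 hnD, h2 t ht m hm.1.2 hmD, h3]
  · intro s hs t ht u hu y _
    change c s y * d t (s⁻¹ • y) + c (s * t) y * d u ((s * t)⁻¹ • y) =
      c t (s⁻¹ • y) * d u (t⁻¹ • s⁻¹ • y) + c s y * d (t * u) (s⁻¹ • y)
    rw [hc2 s hs t ht, hd2 t ht u hu, mul_inv_rev, mul_smul]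
    ring

end Pool.Agent.SmL.F
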