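import Pool.Agent.Lib.SmL.F.Orb

/-!
# SMITH-L, arithmetic: homomorphisms from the decomposition groups to finite groups

`sum_dvd`: `x ≡ 1` modulo `l`, `l^k ∣ b` ⇒ `l^k ∣ ∑_{i < b} x^i`: induction on `k`, `b = l m`,
`∑_{i < l m} x^i = (∑_{i < m} x^i) (∑_{i < l} x^{m i})`, the second factor is `≡ l ≡ 0` modulo `l`.

`uni_stab`: `k' = k + v_l(e) + v_l(f)`, `N` = (the one from `Uni` for `k'`) ⊓ (one which acts trivially on `X`).
Modulo `N`: `(sg^e)^a (sg^j ph^f)^b = sg^{e a + c} ph^{f b}`, `c = j ∑_{i < b} q^{f i}`. So `l^{k'} ∣ f b`,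
`l^{k + v_l(e)} ∣ b`, `l^{k + v_l(e)} ∣ c` (`sum_dvd`), `l^{k'} ∣ e a + c`, hence `l^k ∣ a`.

`exists_hom`: write `#Γ = l^k n'`, `n'` prime to `l`; `M ∈ NN`, `M ≤ N` (from `hC`), `M` acts trivially on `X`, and
`M` from `uni_stab` for `k`. CLAIM: `sgx^a phx^b ∈ M` ⇒ `σ^a φ^b = 1`. Put `z = σ^a φ^b`: `z^l = 1`, `z` commutes with `σ`;
`l^k ∣ a, b`, so `(σ^a)^{n'} = 1 = (φ^b)^{n'}`; `φ^b = σ^{-a} z`, so `1 = (φ^b)^{n'} = σ^{-a n'} z^{n'} = z^{n'}`, and `z = 1`.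
For `s ∈ Dx` take `a, b` with `s ≡ sgx^a phx^b` modulo `M` (`Efj.gen`), `F s = σ^a φ^b`. Well defined: if
`sgx^a phx^b ≡ sgx^a' phx^b'`, `b' ≤ b`, then `sgx^{a - a'} phx^{b - b'} ∈ M`. Multiplicative:
`σ^a φ^b σ^a' φ^b' = σ^{a + q^b a'} φ^{b + b'}` in `Γ` and in `G / M` (`q = qx`, `rel_x`). (Let `π : G → G ⧸ M`.)
-/

set_option autoImplicit false

open Finset

namespace Pool.Agent.SmL.F

open MulAction Pool.Agent.SmL.Ar

theorem UniAux.sum_mul (x m n : ℕ) :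
    ∑ i ∈ range (n * m), x ^ i = (∑ i ∈ range m, x ^ i) * ∑ i ∈ range n, (x ^ m) ^ i := by
  induction n with
  | zero => simp
  | succ n ih =>
    rw [Nat.succ_mul, sum_range_add, ih, sum_range_succ, mul_add]
    congr 1
    rw [← pow_mul, Finset.sum_mul]
    refine sum_congr rfl fun i _ => ?_
    rw [← pow_add, mul_comm n m, add_comm]

theorem sum_dvd {l x : ℕ} (hx : (x : ZMod l) = 1) {k b : ℕ} (hb : l ^ k ∣ b) :
    l ^ k ∣ ∑ i ∈ range b, x ^ i := by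
  induction k generalizing b with
  | zero => simp
  | succ k ih =>
    obtain ⟨c, rfl⟩ := hb
    have h1 : l ^ (k + 1) * c = l * (l ^ k * c) := by ring
    rw [h1, UniAux.sum_mul, pow_succ]
    refine mul_dvd_mul (ih (dvd_mul_right _ _)) ?_
    rw [← ZMod.natCast_eq_zero_iff]
    push_cast
    rw [hx]
    simp

variable {l : ℕ} {G Pl : Type*} [Group G] {B : Bs G Pl} {X : Type*} [MulAction G X]
  {E : Pl → X → ℕ × ℕ × ℕ}

theorem UniAux.pw_explicit {Q : Type*} [Group Q] {σ φ : Q} {q : ℕ} (h : φ * σ = σ ^ q * φ)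
    (j f m : ℕ) :
    (σ ^ j * φ ^ f) ^ m = σ ^ (j * ∑ i ∈ range m, (q ^ f) ^ i) * φ ^ (f * m) := by
  induction m with
  | zero => simp
  | succ m ih =>
    have h1 := SmN.F.semi' h (f * m) (j : ℤ)
    rw [zpow_natCast] at h1
    have h2 : σ ^ ((q : ℤ) ^ (f * m) * j) = σ ^ (j * (q ^ f) ^ m) := by
      rw [← zpow_natCast σ (j * (q ^ f) ^ m)]
      congr 1
      push_cast
      ring
    rw [h2] at h1
    rw [pow_succ, ih, sum_range_succ, mul_add, pow_add, mul_add, mul_one, pow_add]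
    simp only [← mul_assoc]
    congr 1
    simp only [mul_assoc]
    congr 1

theorem uni_stab (hB : B.Ok l) (hU : B.Uni l) (hX : TrivX B X) (hE : OrbE l B E) (v : Pl) (x : X)
    (k : ℕ) : ∃ N ∈ B.NN, ∀ (a : ℤ) (b : ℕ), sgx B E v x ^ a * phx B E v x ^ b ∈ N →
      ((l ^ k : ℕ) : ℤ) ∣ a ∧ l ^ k ∣ b := by
  have hl : l.Prime := hB.prime
  have hlf : Fact l.Prime := ⟨hl⟩
  have hEx := hE.efj v x
  set e := (E v x).1 with he
  set f := (E v x).2.1 with hf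
  set j := (E v x).2.2 with hj
  obtain ⟨ve, e', he', hee⟩ : ∃ ve e' : ℕ, ¬ l ∣ e' ∧ e = l ^ ve * e' :=
    Nat.exists_eq_pow_mul_and_not_dvd hEx.e_pos.ne' l hl.ne_one
  obtain ⟨vf, f', hf', hff⟩ : ∃ vf f' : ℕ, ¬ l ∣ f' ∧ f = l ^ vf * f' :=
    Nat.exists_eq_pow_mul_and_not_dvd hEx.f_pos.ne' l hl.ne_one
  obtain ⟨N, hN, hNU⟩ := hU v (k + ve + vf)
  refine ⟨N, hN, fun a b hab => ?_⟩
  have hNn := hB.normal N hN
  let π := QuotientGroup.mk' N
  have hπ : ∀ a b : G, π a = π b ↔ a⁻¹ * b ∈ N := fun a b => QuotientGroup.eq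
  have hrel : π (B.ph v) * π (B.sg v) = π (B.sg v) ^ B.q v * π (B.ph v) := by
    have h2 := (hπ _ _).2 (hB.rel v N hN)
    rw [← map_mul, ← map_pow, h2, ← map_mul, inv_mul_cancel_right]
  have h1 : π (sgx B E v x ^ a * phx B E v x ^ b) =
      π (B.sg v ^ ((e : ℤ) * a + ((j * ∑ i ∈ range b, (B.q v ^ f) ^ i : ℕ) : ℤ)) *
        B.ph v ^ (f * b)) := by
    unfold sgx phx
    rw [map_mul, map_zpow, map_pow, map_pow, map_mul, map_pow, map_pow,
      UniAux.pw_explicit hrel, map_mul, map_zpow, map_pow, zpow_add, zpow_mul, zpow_natCast,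
      zpow_natCast, mul_assoc]
  have h2 : B.sg v ^ ((e : ℤ) * a + ((j * ∑ i ∈ range b, (B.q v ^ f) ^ i : ℕ) : ℤ)) *
        B.ph v ^ (f * b) ∈ N := by
    have h3 : π (sgx B E v x ^ a * phx B E v x ^ b) = 1 := (QuotientGroup.eq_one_iff _).2 hab
    rw [h1] at h3
    exact (QuotientGroup.eq_one_iff _).1 h3
  obtain ⟨h4, h5⟩ := hNU _ _ h2
  -- `l ^ (k + ve) ∣ b`
  have h6 : l ^ (k + ve) ∣ b := by
    rw [hff, pow_add, mul_comm (l ^ vf) f', mul_assoc, ← mul_assoc f'] at h5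
    have h7 : l ^ (k + ve) * l ^ vf ∣ (f' * b) * l ^ vf := by
      refine h5.trans (dvd_of_eq ?_)
      ring
    have h8 := Nat.dvd_of_mul_dvd_mul_right (pow_pos hl.pos vf) h7
    exact ((Nat.Prime.coprime_iff_not_dvd hl).2 hf').pow_left _ |>.dvd_of_dvd_mul_left h8
  have h7 : l ^ (k + ve) ∣ j * ∑ i ∈ range b, (B.q v ^ f) ^ i := by
    refine Dvd.dvd.mul_left (sum_dvd ?_ h6) _
    rw [Nat.cast_pow, hB.q_one, one_pow]
  have h8 : ((l ^ (k + ve) : ℕ) : ℤ) ∣ (e : ℤ) * a := by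
    have h9 : ((l ^ (k + ve) : ℕ) : ℤ) ∣
        (e : ℤ) * a + ((j * ∑ i ∈ range b, (B.q v ^ f) ^ i : ℕ) : ℤ) :=
      (Int.natCast_dvd_natCast.2 (pow_dvd_pow l (by omega))).trans h4
    exact (dvd_add_left (Int.natCast_dvd_natCast.2 h7)).1 h9
  refine ⟨?_, (pow_dvd_pow l (by omega)).trans h6⟩
  have h9 : ((l ^ ve : ℕ) : ℤ) * ((l ^ k : ℕ) : ℤ) ∣ ((l ^ ve : ℕ) : ℤ) * ((e' : ℤ) * a) := by
    rw [hee] at h8
    refine (dvd_of_eq ?_).trans (h8.trans (dvd_of_eq ?_))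
    · push_cast
      ring
    · push_cast
      ring
  have h10 : ((l ^ k : ℕ) : ℤ) ∣ (e' : ℤ) * a :=
    Int.dvd_of_mul_dvd_mul_left (by exact_mod_cast (pow_pos hl.pos ve).ne') h9
  have h11 : IsCoprime ((l ^ k : ℕ) : ℤ) (e' : ℤ) :=
    Nat.isCoprime_iff_coprime.2 (((Nat.Prime.coprime_iff_not_dvd hl).2 he').pow_left _)
  exact h11.dvd_of_dvd_mul_left h10

theorem exists_hom (hB : B.Ok l) (hU : B.Uni l) (hX : TrivX B X) (hE : OrbE l B E) (v : Pl)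
    (x : X) {Γ : Type*} [Group Γ] [Finite Γ] {σ φ : Γ} (h : φ * σ = σ ^ qx B E v x * φ)
    (hC : ∃ N ∈ B.NN, ∀ (a : ℤ) (b : ℕ), sgx B E v x ^ a * phx B E v x ^ b ∈ N →
      (σ ^ a * φ ^ b) ^ l = 1 ∧ Commute (σ ^ a * φ ^ b) σ) :
    ∃ F : G → Γ, B.TFOn (Dx B v x) F ∧
      (∀ s ∈ Dx B v x, ∀ t ∈ Dx B v x, F (s * t) = F s * F t) ∧
      F (sgx B E v x) = σ ∧ F (phx B E v x) = φ := by
  classical
  have hl : l.Prime := hB.prime
  obtain ⟨k, n', hn', hcard⟩ : ∃ k n' : ℕ, ¬ l ∣ n' ∧ Nat.card Γ = l ^ k * n' :=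
    Nat.exists_eq_pow_mul_and_not_dvd Nat.card_pos.ne' l hl.ne_one
  obtain ⟨N1, hN1, hC⟩ := hC
  obtain ⟨N2, hN2, hX2⟩ := hX
  obtain ⟨N3, hN3, hU3⟩ := uni_stab hB hU ⟨N2, hN2, hX2⟩ hE v x k
  have hM : N1 ⊓ (N2 ⊓ N3) ∈ B.NN := hB.inf_mem _ hN1 _ (hB.inf_mem _ hN2 _ hN3)
  set M := N1 ⊓ (N2 ⊓ N3) with hMdef
  have hMX : ∀ n ∈ M, ∀ x : X, n • x = x := fun n hn => hX2 n hn.2.1
  -- the claim
  have claim : ∀ (a : ℤ) (b : ℕ), sgx B E v x ^ a * phx B E v x ^ b ∈ M →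
      σ ^ a * φ ^ b = 1 := by
    intro a b hab
    obtain ⟨h1, h2⟩ := hC a b hab.1
    obtain ⟨h3, h4⟩ := hU3 a b hab.2.2
    set z := σ ^ a * φ ^ b with hz
    have h5 : (σ ^ a) ^ n' = 1 := by
      obtain ⟨c, rfl⟩ := h3
      rw [← zpow_natCast, ← zpow_mul]
      have h6 : ((l ^ k : ℕ) : ℤ) * c * (n' : ℤ) = ((Nat.card Γ : ℕ) : ℤ) * c := by
        rw [hcard]
        push_cast
        ring
      rw [h6, zpow_mul, zpow_natCast, pow_card_eq_one', one_zpow]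
    have h6 : (φ ^ b) ^ n' = 1 := by
      obtain ⟨c, rfl⟩ := h4
      rw [← pow_mul]
      have h6 : l ^ k * c * n' = Nat.card Γ * c := by
        rw [hcard]
        ring
      rw [h6, pow_mul, pow_card_eq_one', one_pow]
    have h7 : φ ^ b = σ ^ (-a) * z := by
      rw [hz, ← mul_assoc, ← zpow_add, neg_add_cancel, zpow_zero, one_mul]
    have h8 : Commute (σ ^ (-a)) z := (h2.zpow_right (-a)).symm
    have h9 : z ^ n' = 1 := by
      rw [h7, h8.mul_pow, zpow_neg, inv_pow, h5, inv_one, one_mul] at h6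
      exact h6
    have h10 : orderOf z ∣ Nat.gcd l n' :=
      Nat.dvd_gcd (orderOf_dvd_of_pow_eq_one h1) (orderOf_dvd_of_pow_eq_one h9)
    rw [(Nat.Prime.coprime_iff_not_dvd hl).2 hn', Nat.dvd_one, orderOf_eq_one_iff] at h10
    exact h10
  have hNn := hB.normal M hM
  let π := QuotientGroup.mk' M
  have hπ : ∀ a b : G, π a = π b ↔ a⁻¹ * b ∈ M := fun a b => QuotientGroup.eq
  have hrel : π (phx B E v x) * π (sgx B E v x) =
      π (sgx B E v x) ^ qx B E v x * π (phx B E v x) := by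
    have h2 := (hπ _ _).2 (rel_x hB (E := E) v x hM)
    rw [← map_mul, ← map_pow, h2, ← map_mul, inv_mul_cancel_right]
  -- uniqueness
  have huni' : ∀ (a a' : ℤ) (b b' : ℕ), b' ≤ b →
      π (sgx B E v x ^ a * phx B E v x ^ b) = π (sgx B E v x ^ a' * phx B E v x ^ b') →
      σ ^ a * φ ^ b = σ ^ a' * φ ^ b' := by
    intro a a' b b' hb hab
    obtain ⟨d, rfl⟩ := Nat.exists_eq_add_of_le' hb
    have h1 : sgx B E v x ^ (a - a') * phx B E v x ^ d ∈ M := by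
      refine (QuotientGroup.eq_one_iff _).1 ?_
      change π _ = 1
      have h2 : sgx B E v x ^ (a - a') * phx B E v x ^ d =
          (sgx B E v x ^ a')⁻¹ * (sgx B E v x ^ a * phx B E v x ^ (d + b')) *
            (phx B E v x ^ b')⁻¹ := by
        rw [pow_add, sub_eq_neg_add, zpow_add, zpow_neg]
        group
      rw [h2, map_mul, map_mul, hab, map_mul, map_inv, map_inv]
      group
    have h3 := claim _ _ h1
    have h4 : σ ^ a * φ ^ (d + b') = σ ^ a' * (σ ^ (a - a') * φ ^ d) * φ ^ b' := by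
      rw [pow_add, ← mul_assoc, ← mul_assoc, ← zpow_add, add_sub_cancel]
    rw [h4, h3, mul_one]
  have huni : ∀ (a a' : ℤ) (b b' : ℕ),
      π (sgx B E v x ^ a * phx B E v x ^ b) = π (sgx B E v x ^ a' * phx B E v x ^ b') →
      σ ^ a * φ ^ b = σ ^ a' * φ ^ b' := by
    intro a a' b b' hab
    rcases le_total b' b with hb | hb
    · exact huni' a a' b b' hb hab
    · exact (huni' a' a b' b hb hab.symm).symm
  have hgen : ∀ s : G, ∃ ab : ℤ × ℕ, s ∈ Dx B v x →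
      π (sgx B E v x ^ ab.1 * phx B E v x ^ ab.2) = π s := by
    intro s
    by_cases hs : s ∈ Dx B v x
    · obtain ⟨a, b, hab⟩ := Efj.gen hB (hE.efj v x) hM hMX hs
      exact ⟨(a, b), fun _ => (hπ _ _).2 hab⟩
    · exact ⟨(0, 0), fun h => absurd h hs⟩
  choose ab hab using hgen
  have hF : ∀ s ∈ Dx B v x, ∀ (a : ℤ) (b : ℕ), π (sgx B E v x ^ a * phx B E v x ^ b) = π s →
      σ ^ (ab s).1 * φ ^ (ab s).2 = σ ^ a * φ ^ b := by
    intro s hs a b h1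
    exact huni _ _ _ _ ((hab s hs).trans h1.symm)
  refine ⟨fun s => σ ^ (ab s).1 * φ ^ (ab s).2, ⟨M, hM, ?_⟩, ?_, ?_, ?_⟩
  · intro s hs n hn hnD
    refine hF _ ((Dx B v x).mul_mem hs hnD) _ _ ((hab s hs).trans ?_)
    rw [hπ]
    simpa using hn
  · intro s hs t ht
    have h1 : π (sgx B E v x ^ ((ab s).1 + ((qx B E v x : ℕ) : ℤ) ^ (ab s).2 * (ab t).1) *
        phx B E v x ^ ((ab s).2 + (ab t).2)) = π (s * t) := by
      rw [map_mul π s t, ← hab s hs, ← hab t ht]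
      simp only [map_mul, map_zpow, map_pow]
      rw [zpow_add, pow_add, mul_assoc, mul_assoc, ← mul_assoc (π (phx B E v x) ^ (ab s).2),
        SmN.F.semi' hrel]
      simp only [mul_assoc]
    change σ ^ (ab (s * t)).1 * φ ^ (ab (s * t)).2 =
      σ ^ (ab s).1 * φ ^ (ab s).2 * (σ ^ (ab t).1 * φ ^ (ab t).2)
    rw [hF _ ((Dx B v x).mul_mem hs ht) _ _ h1]
    rw [zpow_add, pow_add, mul_assoc, mul_assoc, ← mul_assoc (φ ^ (ab s).2), SmN.F.semi' h]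
    simp only [mul_assoc]
  · change σ ^ (ab (sgx B E v x)).1 * φ ^ (ab (sgx B E v x)).2 = σ
    rw [hF _ (sgx_mem hB hE v x) 1 0 (by rw [zpow_one, pow_zero, mul_one]), zpow_one, pow_zero,
      mul_one]
  · change σ ^ (ab (phx B E v x)).1 * φ ^ (ab (phx B E v x)).2 = φ
    rw [hF _ (phx_mem hB hE v x) 0 1 (by rw [zpow_zero, pow_one, one_mul]), zpow_zero, pow_one,
      one_mul]

/-- Every pair of values is the pair of values of a homomorphism (`exists_hom` with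
`Γ = Multiplicative (ZMod l)`). -/
theorem exists_pair (hB : B.Ok l) (hU : B.Uni l) (hX : TrivX B X) (hE : OrbE l B E) (v : Pl)
    (x : X) (y : ZMod l × ZMod l) : ∃ b : G → ZMod l, HomH B (Dx B v x) b ∧
      b (sgx B E v x) = y.1 ∧ b (phx B E v x) = y.2 := by
  have hl : l.Prime := hB.prime
  have hne : NeZero l := ⟨hl.ne_zero⟩
  have hfin : Finite (Multiplicative (ZMod l)) := inferInstanceAs (Finite (ZMod l))
  obtain ⟨F, hF1, hF2, hF3, hF4⟩ := exists_hom hB hU hX hE v x (Γ := Multiplicative (ZMod l))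
    (σ := Multiplicative.ofAdd y.1) (φ := Multiplicative.ofAdd y.2) (by
      rw [← ofAdd_nsmul, nsmul_eq_mul, qx_one hB, one_mul, mul_comm])
    ⟨⊤, hB.top_mem, fun a b _ => ⟨by
      refine Multiplicative.toAdd.injective ?_
      rw [toAdd_pow, toAdd_one, nsmul_eq_mul, ZMod.natCast_self, zero_mul], Commute.all _ _⟩⟩
  refine ⟨fun s => (F s).toAdd, ⟨?_, ?_⟩, ?_, ?_⟩
  · obtain ⟨N, hN, h⟩ := hF1
    exact ⟨N, hN, fun s hs n hn hn' => congrArg Multiplicative.toAdd (h s hs n hn hn')⟩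
  · intro s hs t ht
    change (F (s * t)).toAdd = _
    rw [hF2 s hs t ht, toAdd_mul]
  · change (F (sgx B E v x)).toAdd = _
    rw [hF3, toAdd_ofAdd]
  · change (F (phx B E v x)).toAdd = _
    rw [hF4, toAdd_ofAdd]

end Pool.Agent.SmL.F
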